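import Mathlib

/-!
# The soluble graph, and semilinear maps of the plane over a field

* `SGL.solGraph G` is the soluble graph on the non-identity elements of a group `G`.
* `SGL.GamL F` is the group of semilinear bijections of `F²`, as the semidirect product
  `GL₂(F) ⋊ Aut(F)`; `SGL.act` is its action on vectors and `SGL.toPerm` its action on the
  projective line.
-/

namespace SGL

open Matrix
open scoped MatrixGroups LinearAlgebra.Projectivization

/-- The soluble graph of a group: vertices are the non-identity elements, and distinct vertices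
are adjacent when they generate a soluble subgroup. -/
def solGraph (G : Type*) [Group G] : SimpleGraph {g : G // g ≠ 1} where
  Adj x y := x ≠ y ∧ Group.IsSolvable (Subgroup.closure {(x : G), (y : G)})
  symm := ⟨by
    rintro x y ⟨h1, h2⟩
    refine ⟨h1.symm, ?_⟩
    rwa [Set.pair_comm]⟩
  loopless := ⟨fun x h => h.1 rfl⟩

/-- Two elements of a group generate a soluble subgroup. -/
def Sol {G : Type*} [Group G] (x y : G) : Prop := Group.IsSolvable (Subgroup.closure {x, y})

theorem Sol.symm {G : Type*} [Group G] {x y : G} (h : Sol x y) : Sol y x := by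
  unfold Sol at *; rwa [Set.pair_comm]

theorem Sol.of_mem {G : Type*} [Group G] {x y : G} (S : Subgroup G) [hS : Group.IsSolvable S]
    (hx : x ∈ S) (hy : y ∈ S) : Sol x y := by
  have hle : Subgroup.closure {x, y} ≤ S := by
    rw [Subgroup.closure_le]
    rintro z (rfl | rfl) <;> assumption
  exact Group.isSolvable_of_isSolvable_injective (Subgroup.inclusion_injective hle)

variable {F : Type} [Field F]

/-- The action of the field automorphisms on `GL₂(F)`. -/
def galAct (F : Type) [Field F] : (F ≃+* F) →* MulAut (GL (Fin 2) F) where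
  toFun σ := Units.mapEquiv (σ.mapMatrix (m := Fin 2)).toMulEquiv
  map_one' := by
    ext; rfl
  map_mul' σ τ := by
    ext; rfl

@[simp] theorem galAct_coe (σ : F ≃+* F) (g : GL (Fin 2) F) :
    ((galAct F σ g : GL (Fin 2) F) : Matrix (Fin 2) (Fin 2) F)
      = (g : Matrix (Fin 2) (Fin 2) F).map σ := rfl

/-- The group of semilinear bijections of `F²`: pairs `(M, σ)`, acting by `v ↦ M σ(v)`. -/
abbrev GamL (F : Type) [Field F] := GL (Fin 2) F ⋊[galAct F] (F ≃+* F)

/-- The matrix of a semilinear map. -/
def mat (g : GamL F) : Matrix (Fin 2) (Fin 2) F := (g.left : Matrix (Fin 2) (Fin 2) F)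

theorem mat_det_ne_zero (g : GamL F) : (mat g).det ≠ 0 := by
  have := (Matrix.isUnit_iff_isUnit_det (mat g)).1 g.left.isUnit
  exact this.ne_zero

@[simp] theorem mat_one : mat (1 : GamL F) = 1 := rfl

@[simp] theorem right_one : (1 : GamL F).right = 1 := rfl

theorem mat_mul (g h : GamL F) : mat (g * h) = mat g * (mat h).map g.right := rfl

theorem right_mul (g h : GamL F) : (g * h).right = g.right * h.right := rfl

theorem gam_ext {g h : GamL F} (h1 : mat g = mat h) (h2 : g.right = h.right) : g = h := by
  apply SemidirectProduct.ext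
  · exact Units.ext h1
  · exact h2

/-- The semilinear map on vectors. -/
def act (g : GamL F) (v : Fin 2 → F) : Fin 2 → F := mat g *ᵥ (fun i => g.right (v i))

theorem act_def (g : GamL F) (v : Fin 2 → F) : act g v = mat g *ᵥ (fun i => g.right (v i)) := rfl

@[simp] theorem act_one (v : Fin 2 → F) : act 1 v = v := by
  simp [act]

theorem map_mulVec' (σ : F ≃+* F) (M : Matrix (Fin 2) (Fin 2) F) (v : Fin 2 → F) :
    (fun i => σ ((M *ᵥ v) i)) = (M.map σ) *ᵥ (fun i => σ (v i)) := by
  ext i
  simp [Matrix.mulVec, dotProduct]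

theorem act_mul (g h : GamL F) (v : Fin 2 → F) : act (g * h) v = act g (act h v) := by
  unfold act
  rw [map_mulVec', mat_mul, Matrix.mulVec_mulVec]
  rfl

@[simp] theorem act_zero (g : GamL F) : act g 0 = 0 := by
  ext i; fin_cases i <;> simp [act, Matrix.mulVec, dotProduct]

theorem act_add (g : GamL F) (v w : Fin 2 → F) : act g (v + w) = act g v + act g w := by
  unfold act
  rw [← Matrix.mulVec_add]
  congr 1
  ext i; simp

theorem act_smul (g : GamL F) (c : F) (v : Fin 2 → F) : act g (c • v) = g.right c • act g v := by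
  unfold act
  rw [← Matrix.mulVec_smul]
  congr 1
  ext i; simp

theorem act_ne_zero (g : GamL F) {v : Fin 2 → F} (hv : v ≠ 0) : act g v ≠ 0 := by
  intro h
  apply hv
  have : act g⁻¹ (act g v) = v := by rw [← act_mul]; simp
  rw [← this, h, act_zero]

/-- The action on the projective line, as a function. -/
noncomputable def pact (g : GamL F) (p : ℙ F (Fin 2 → F)) : ℙ F (Fin 2 → F) :=
  Projectivization.mk F (act g p.rep) (act_ne_zero g p.rep_nonzero)

theorem pact_mk (g : GamL F) (v : Fin 2 → F) (hv : v ≠ 0) :
    pact g (Projectivization.mk F v hv) = Projectivization.mk F (act g v) (act_ne_zero g hv) := by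
  unfold pact
  rw [Projectivization.mk_eq_mk_iff']
  obtain ⟨a, ha⟩ := Projectivization.exists_smul_eq_mk_rep F v hv
  refine ⟨g.right a, ?_⟩
  rw [← ha, ← act_smul]; rfl

/-- The action of the semilinear group on the projective line. -/
noncomputable instance pAction : MulAction (GamL F) (ℙ F (Fin 2 → F)) where
  smul g p := pact g p
  one_smul p := by
    change pact 1 p = p
    induction p using Projectivization.ind with | _ v hv =>
    rw [pact_mk]; simp
  mul_smul g h p := by
    change pact (g * h) p = pact g (pact h p)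
    induction p using Projectivization.ind with | _ v hv =>
    simp only [pact_mk, act_mul]

/-- The homomorphism from the semilinear group to the permutations of the projective line. -/
noncomputable def toPerm (F : Type) [Field F] : GamL F →* Equiv.Perm (ℙ F (Fin 2 → F)) :=
  MulAction.toPermHom (GamL F) (ℙ F (Fin 2 → F))

theorem toPerm_mk (g : GamL F) (v : Fin 2 → F) (hv : v ≠ 0) :
    toPerm F g (Projectivization.mk F v hv)
      = Projectivization.mk F (act g v) (act_ne_zero g hv) := pact_mk g v hv

theorem toPerm_mk_eq_iff (g : GamL F) (v w : Fin 2 → F) (hv : v ≠ 0) (hw : w ≠ 0) :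
    toPerm F g (Projectivization.mk F v hv) = Projectivization.mk F w hw
      ↔ ∃ c : F, c • w = act g v := by
  rw [toPerm_mk, Projectivization.mk_eq_mk_iff']

/-- The linear semilinear maps of a matrix in `GL₂`. -/
def ofGL : GL (Fin 2) F →* GamL F := SemidirectProduct.inl

@[simp] theorem mat_ofGL (g : GL (Fin 2) F) : mat (ofGL g) = g := rfl

@[simp] theorem right_ofGL (g : GL (Fin 2) F) : (ofGL g).right = 1 := rfl

/-- The linear semilinear map of a matrix in `SL₂`. -/
def ofSL : SL(2, F) →* GamL F := ofGL.comp (Matrix.SpecialLinearGroup.toGL)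

@[simp] theorem mat_ofSL (g : SL(2, F)) : mat (ofSL g) = (g : Matrix (Fin 2) (Fin 2) F) := rfl

@[simp] theorem right_ofSL (g : SL(2, F)) : (ofSL g).right = 1 := rfl

/-- The action of `SL₂(F)` on the projective line. -/
noncomputable def pn : SL(2, F) →* Equiv.Perm (ℙ F (Fin 2 → F)) := (toPerm F).comp ofSL

theorem pn_def (g : SL(2, F)) : pn g = toPerm F (ofSL g) := rfl

theorem act_ofSL (g : SL(2, F)) (v : Fin 2 → F) :
    act (ofSL g) v = (g : Matrix (Fin 2) (Fin 2) F) *ᵥ v := rfl

theorem act_ofGL (g : GL (Fin 2) F) (v : Fin 2 → F) :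
    act (ofGL g) v = (g : Matrix (Fin 2) (Fin 2) F) *ᵥ v := rfl

/-- The discriminant of a 2×2 matrix. -/
def disc (X : Matrix (Fin 2) (Fin 2) F) : F := X.trace ^ 2 - 4 * X.det

/-- The semilinear maps normalising the algebra `F[X]`. -/
def normX (X : Matrix (Fin 2) (Fin 2) F) : Subgroup (GamL F) where
  carrier := {g | ∃ a b : F,
    mat g * X.map g.right = (a • (1 : Matrix (Fin 2) (Fin 2) F) + b • X) * mat g}
  one_mem' := ⟨0, 1, by ext i j; simp⟩
  mul_mem' := by
    rintro g h ⟨a, b, hg⟩ ⟨c, d, hh⟩
    refine ⟨g.right c + g.right d * a, g.right d * b, ?_⟩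
    have h1 : X.map (g * h).right = (X.map h.right).map g.right := by
      ext i j; rfl
    have h2 : ((mat h).map g.right) * ((X.map h.right).map g.right)
        = (mat h * X.map h.right).map g.right := by
      rw [Matrix.map_mul]
    rw [mat_mul, h1, Matrix.mul_assoc, h2, hh, Matrix.map_mul]
    have h3 : ((c • (1 : Matrix (Fin 2) (Fin 2) F) + d • X).map g.right)
        = g.right c • (1 : Matrix (Fin 2) (Fin 2) F) + g.right d • X.map g.right := by
      ext i j
      simp only [Matrix.map_apply, Matrix.add_apply, Matrix.smul_apply, smul_eq_mul, map_add,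
        map_mul, Matrix.one_apply]
      split_ifs <;> simp
    rw [h3, ← Matrix.mul_assoc, Matrix.mul_add, Matrix.mul_smul, Matrix.mul_smul, hg,
      ← Matrix.mul_assoc]
    congr 1
    simp only [Matrix.mul_one, Matrix.add_mul, Matrix.smul_mul, Matrix.one_mul, smul_add, smul_smul,
      add_smul]
    abel
  inv_mem' := by
    rintro g ⟨a, b, hg⟩
    set τ := g⁻¹.right with hτ
    have hτσ : ∀ x, τ (g.right x) = x := by
      intro x
      have : τ * g.right = 1 := by
        rw [hτ, ← right_mul]; simp
      have h2 := congrArg (fun f : F ≃+* F => f x) this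
      simpa using h2
    have hinv : mat g⁻¹ * (mat g).map τ = 1 := by
      rw [hτ, ← mat_mul]; simp
    have hinv' : (mat g).map τ * mat g⁻¹ = 1 := by
      exact mul_eq_one_comm.1 hinv
    have hX : (X.map g.right).map τ = X := by
      ext i j; simp [hτσ]
    have h1 : (mat g).map τ * X
        = (τ a • (1 : Matrix (Fin 2) (Fin 2) F) + τ b • X.map τ) * (mat g).map τ := by
      have := congrArg (fun M : Matrix (Fin 2) (Fin 2) F => M.map τ) hg
      simp only [Matrix.map_mul] at this
      rw [hX] at this
      rw [this]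
      congr 1
      ext i j
      simp only [Matrix.map_apply, Matrix.add_apply, Matrix.smul_apply, smul_eq_mul, map_add,
        map_mul, Matrix.one_apply]
      split_ifs <;> simp
    have h2 : X * mat g⁻¹ = τ a • mat g⁻¹ + τ b • (mat g⁻¹ * X.map τ) := by
      calc X * mat g⁻¹ = mat g⁻¹ * ((mat g).map τ * X) * mat g⁻¹ := by
            rw [← Matrix.mul_assoc, hinv, Matrix.one_mul]
        _ = mat g⁻¹ * (τ a • (1 : Matrix (Fin 2) (Fin 2) F) + τ b • X.map τ)
              * ((mat g).map τ * mat g⁻¹) := by
            rw [h1]; simp only [Matrix.mul_assoc]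
        _ = _ := by
            rw [hinv', Matrix.mul_one, Matrix.mul_add, Matrix.mul_smul, Matrix.mul_smul,
              Matrix.mul_one]
    by_cases hb : b = 0
    · subst hb
      have h3 : X * mat g⁻¹ = τ a • mat g⁻¹ := by rw [h2]; simp
      have h4 : X = τ a • (1 : Matrix (Fin 2) (Fin 2) F) := by
        have hu : mat g⁻¹ * (mat g).map τ = 1 := hinv
        calc X = X * mat g⁻¹ * (mat g).map τ := by rw [Matrix.mul_assoc, hu, Matrix.mul_one]
          _ = _ := by rw [h3, Matrix.smul_mul, hu]
      refine ⟨τ (τ a), 0, ?_⟩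
      have h7 : X.map g⁻¹.right = τ (τ a) • (1 : Matrix (Fin 2) (Fin 2) F) := by
        change X.map τ = _
        rw [h4]
        ext i j
        simp only [Matrix.map_apply, Matrix.smul_apply, smul_eq_mul, map_mul, Matrix.one_apply]
        split_ifs <;> simp
      rw [h7]
      simp [Matrix.mul_smul, Matrix.smul_mul]
    · have hb' : τ b ≠ 0 := by simpa using hb
      refine ⟨-(τ b)⁻¹ * τ a, (τ b)⁻¹, ?_⟩
      change mat g⁻¹ * X.map τ = _
      have h5 : τ b • (mat g⁻¹ * X.map τ) = X * mat g⁻¹ - τ a • mat g⁻¹ := by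
        rw [h2]; abel
      have h6 : mat g⁻¹ * X.map τ = (τ b)⁻¹ • (X * mat g⁻¹ - τ a • mat g⁻¹) := by
        rw [← h5, smul_smul, inv_mul_cancel₀ hb', one_smul]
      rw [h6, Matrix.add_mul, Matrix.smul_mul, Matrix.smul_mul, Matrix.one_mul, smul_sub, smul_smul]
      rw [neg_mul, neg_smul]
      abel

theorem mem_normX {X : Matrix (Fin 2) (Fin 2) F} {g : GamL F} : g ∈ normX X ↔ ∃ a b : F,
    mat g * X.map g.right = (a • (1 : Matrix (Fin 2) (Fin 2) F) + b • X) * mat g := Iff.rfl

/-- Two semilinear maps are *linked* when they fix a common point of the projective line or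
normalise a common étale algebra `F[X]` of matrices. -/
def Link (x y : GamL F) : Prop :=
  (∃ p : ℙ F (Fin 2 → F), toPerm F x p = p ∧ toPerm F y p = p) ∨
  (∃ X : Matrix (Fin 2) (Fin 2) F, disc X ≠ 0 ∧ x ∈ normX X ∧ y ∈ normX X)

theorem Link.symm {x y : GamL F} (h : Link x y) : Link y x := by
  rcases h with ⟨p, h1, h2⟩ | ⟨X, h0, h1, h2⟩
  · exact Or.inl ⟨p, h2, h1⟩
  · exact Or.inr ⟨X, h0, h2, h1⟩

end SGL
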