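import Pool.Agent.SGL.Defs

/-! Field automorphisms of a finite field commute (the unit group is cyclic, so an automorphism is a power map). -/

namespace SGL

open Matrix
open scoped MatrixGroups LinearAlgebra.Projectivization

variable {F : Type} [Field F]

theorem aut_comm [Finite F] (σ τ : F ≃+* F) : σ * τ = τ * σ := by
  classical
  obtain ⟨g, hg⟩ := IsCyclic.exists_generator (α := Fˣ)
  have hpow : ∀ ρ : F ≃+* F, ∃ n : ℕ, ∀ x : F, x ≠ 0 → ρ x = x ^ n := by
    intro ρ
    have h1 : (Units.mapEquiv ρ.toMulEquiv g : Fˣ) ∈ Submonoid.powers g := by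
      rw [mem_powers_iff_mem_zpowers]
      exact hg _
    obtain ⟨n, hn⟩ := h1
    refine ⟨n, fun x hx => ?_⟩
    have h2 : (Units.mk0 x hx) ∈ Submonoid.powers g := by
      rw [mem_powers_iff_mem_zpowers]
      exact hg _
    obtain ⟨k, hk⟩ := h2
    have hx2 : x = (g : F) ^ k := by
      have := congrArg (fun u : Fˣ => (u : F)) hk
      simpa using this.symm
    have hn2 : ρ (g : F) = (g : F) ^ n := by
      have := congrArg (fun u : Fˣ => (u : F)) hn
      simpa using this.symm
    rw [hx2, map_pow, hn2, ← pow_mul, ← pow_mul, mul_comm]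
  obtain ⟨m, hm⟩ := hpow σ
  obtain ⟨n, hn⟩ := hpow τ
  ext x
  rcases eq_or_ne x 0 with rfl | hx
  · simp
  · change σ (τ x) = τ (σ x)
    rw [hn x hx, hm x hx, map_pow, map_pow, hm x hx, hn x hx, ← pow_mul, ← pow_mul, mul_comm]

/-- The group of field automorphisms of a finite field is finite. -/
instance aut_finite [Finite F] : Finite (F ≃+* F) :=
  Finite.of_injective (fun σ : F ≃+* F => (σ : F → F)) DFunLike.coe_injective

end SGL
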