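import Pool.Agent.SGL.Defs

/-! Kernel of the action on the projective line. -/

namespace SGL

open Matrix
open scoped MatrixGroups LinearAlgebra.Projectivization

variable {F : Type} [Field F]

/-- A semilinear map acting trivially on the projective line is a scalar. (Look at e1, e2, e1+e2 and
e1+x e2.) -/
theorem toPerm_eq_one_iff (g : GamL F) :
    toPerm F g = 1 ↔ g.right = 1 ∧ ∃ c : F, mat g = c • (1 : Matrix (Fin 2) (Fin 2) F) := by
  constructor
  · intro h
    have key : ∀ v : Fin 2 → F, v ≠ 0 → ∃ c : F, c • v = act g v := by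
      intro v hv
      rw [← toPerm_mk_eq_iff g v v hv hv, h]
      rfl
    have hact : ∀ x y : F, act g ![x, y]
        = ![mat g 0 0 * g.right x + mat g 0 1 * g.right y,
            mat g 1 0 * g.right x + mat g 1 1 * g.right y] := by
      intro x y
      ext i
      fin_cases i <;> simp [act, Matrix.mulVec, dotProduct, Fin.sum_univ_two]
    have h10 : mat g 1 0 = 0 := by
      obtain ⟨c, hc⟩ := key ![1, 0] (by
        intro h0
        have := congrFun h0 0
        simp at this)
      rw [hact] at hc
      have := congrFun hc 1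
      simpa using this.symm
    have h01 : mat g 0 1 = 0 := by
      obtain ⟨c, hc⟩ := key ![0, 1] (by
        intro h0
        have := congrFun h0 1
        simp at this)
      rw [hact] at hc
      have := congrFun hc 0
      simpa using this.symm
    have h11 : mat g 1 1 = mat g 0 0 := by
      obtain ⟨c, hc⟩ := key ![1, 1] (by
        intro h0
        have := congrFun h0 1
        simp at this)
      rw [hact, h10, h01] at hc
      have h0 := congrFun hc 0
      have h1 := congrFun hc 1
      simp only [Pi.smul_apply, smul_eq_mul, Matrix.cons_val_zero, Matrix.cons_val_one, map_one,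
        mul_one, zero_mul, add_zero, zero_add] at h0 h1
      rw [← h0, ← h1]
    have h00 : mat g 0 0 ≠ 0 := by
      intro h0
      apply mat_det_ne_zero g
      rw [Matrix.det_fin_two, h0, h01]
      simp
    refine ⟨?_, mat g 0 0, ?_⟩
    · ext x
      obtain ⟨c, hc⟩ := key ![1, x] (by
        intro h0
        have := congrFun h0 0
        simp at this)
      rw [hact, h10, h01, h11] at hc
      have h0 := congrFun hc 0
      have h1 := congrFun hc 1
      simp only [Pi.smul_apply, smul_eq_mul, Matrix.cons_val_zero, Matrix.cons_val_one, map_one,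
        mul_one, zero_mul, add_zero, zero_add] at h0 h1
      rw [h0] at h1
      exact (mul_left_cancel₀ h00 h1).symm
    · ext i j
      fin_cases i <;> fin_cases j <;> simp [h10, h01, h11]
  · rintro ⟨h1, c, hc⟩
    ext p
    induction p using Projectivization.ind with | _ v hv =>
    rw [Equiv.Perm.one_apply, toPerm_mk_eq_iff]
    refine ⟨c, ?_⟩
    unfold act
    rw [h1, hc]
    ext i
    simp [Matrix.smul_mulVec]

theorem pn_eq_one_iff (a : SL(2, F)) :
    pn a = 1 ↔ ∃ c : F, (a : Matrix (Fin 2) (Fin 2) F) = c • (1 : Matrix (Fin 2) (Fin 2) F) := by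
  rw [pn_def, toPerm_eq_one_iff]
  simp

/-- For matrices in `SL₂`: `pn a = pn b` iff `a = ± b`. -/
theorem pn_eq_iff (a b : SL(2, F)) :
    pn a = pn b ↔ (a : Matrix (Fin 2) (Fin 2) F) = b ∨
      (a : Matrix (Fin 2) (Fin 2) F) = -(b : Matrix (Fin 2) (Fin 2) F) := by
  have h1 : pn a = pn b ↔ pn (a * b⁻¹) = 1 := by
    rw [map_mul, map_inv, mul_inv_eq_one]
  rw [h1, pn_eq_one_iff]
  have h2 : ∀ c : F, ((a * b⁻¹ : SL(2, F)) : Matrix (Fin 2) (Fin 2) F) = c • 1 ↔
      (a : Matrix (Fin 2) (Fin 2) F) = c • (b : Matrix (Fin 2) (Fin 2) F) := by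
    intro c
    constructor
    · intro h
      have h3 : (a : Matrix (Fin 2) (Fin 2) F)
          = ((a * b⁻¹ : SL(2, F)) : Matrix (Fin 2) (Fin 2) F) * (b : Matrix (Fin 2) (Fin 2) F) := by
        rw [← Matrix.SpecialLinearGroup.coe_mul, inv_mul_cancel_right]
      rw [h3, h]
      simp
    · intro h
      rw [Matrix.SpecialLinearGroup.coe_mul, h, Matrix.smul_mul,
        ← Matrix.SpecialLinearGroup.coe_mul]
      simp
  constructor
  · rintro ⟨c, hc⟩
    have hdet : c ^ 2 = 1 := by
      have h4 : ((a * b⁻¹ : SL(2, F)) : Matrix (Fin 2) (Fin 2) F).det = 1 :=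
        (a * b⁻¹ : SL(2, F)).2
      rw [hc, Matrix.det_smul] at h4
      simpa using h4
    rw [h2] at hc
    have h6 : (c - 1) * (c + 1) = 0 := by ring_nf; rw [hdet]; ring
    have h7 : c = 1 ∨ c = -1 := by
      rcases mul_eq_zero.1 h6 with h8 | h8
      · left; exact sub_eq_zero.1 h8
      · right; exact eq_neg_of_add_eq_zero_left h8
    rcases h7 with h5 | h5
    · left; rw [hc, h5, one_smul]
    · right; rw [hc, h5]; simp
  · rintro (h | h)
    · exact ⟨1, (h2 1).2 (by rw [h, one_smul])⟩
    · exact ⟨-1, (h2 (-1)).2 (by rw [h]; simp)⟩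

end SGL
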