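import Pool.Agent.SGL.Defs

/-! General facts on pairs generating soluble groups. -/

namespace SGL

open Matrix
open scoped MatrixGroups LinearAlgebra.Projectivization
open scoped commutatorElement

variable {F : Type} [Field F]

/-- Two involutions (or trivial elements) generate a dihedral, hence soluble, group. -/
theorem sol_of_involutions {G : Type*} [Group G] {a b : G} (ha : a * a = 1) (hb : b * b = 1) :
    Sol a b := by
  have hai : a⁻¹ = a := inv_eq_of_mul_eq_one_left ha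
  have hbi : b⁻¹ = b := inv_eq_of_mul_eq_one_left hb
  set c := a * b with hc
  have hci : c⁻¹ = b * a := by rw [hc, _root_.mul_inv_rev, hai, hbi]
  have hconj : a * c * a⁻¹ = c⁻¹ := by
    rw [hci, hc, hai, ← mul_assoc, ha, one_mul]
  have hcn : ∀ n : ℤ, a * c ^ n = (c ^ n)⁻¹ * a := by
    intro n
    have h1 : a * c ^ n * a⁻¹ = (c ^ n)⁻¹ := by
      rw [← conj_zpow, hconj, _root_.inv_zpow]
    rw [← h1]; group
  let D : Subgroup G :=
    { carrier := {g | ∃ n : ℤ, g = c ^ n ∨ g = c ^ n * a}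
      one_mem' := ⟨0, Or.inl (by simp)⟩
      mul_mem' := by
        rintro x y ⟨n, rfl | rfl⟩ ⟨m, rfl | rfl⟩
        · exact ⟨n + m, Or.inl (by rw [_root_.zpow_add])⟩
        · exact ⟨n + m, Or.inr (by rw [_root_.zpow_add, mul_assoc])⟩
        · refine ⟨n - m, Or.inr ?_⟩
          rw [mul_assoc, hcn, ← mul_assoc, _root_.zpow_sub]
        · refine ⟨n - m, Or.inl ?_⟩
          rw [mul_assoc, ← mul_assoc a, hcn, mul_assoc _ a a, ha, mul_one, _root_.zpow_sub]
      inv_mem' := by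
        rintro x ⟨n, rfl | rfl⟩
        · exact ⟨-n, Or.inl (by rw [_root_.zpow_neg])⟩
        · refine ⟨n, Or.inr ?_⟩
          rw [_root_.mul_inv_rev, hai]
          have := hcn (-n)
          rw [_root_.zpow_neg, inv_inv] at this
          exact this }
  have haD : a ∈ D := ⟨0, Or.inr (by simp)⟩
  have hcD : c ∈ D := ⟨1, Or.inl (by simp)⟩
  have hbD : b ∈ D := by
    have h1 : b = a⁻¹ * c := by rw [hc]; group
    rw [h1]
    exact D.mul_mem (D.inv_mem haD) hcD
  let Z : Subgroup D := Subgroup.zpowers ⟨c, hcD⟩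
  have hZ : ∀ x : D, (∃ n : ℤ, (x : G) = c ^ n) → x ∈ Z := by
    rintro x ⟨n, hn⟩
    refine ⟨n, ?_⟩
    apply Subtype.ext
    simp [hn]
  have hcomm : ∀ x y : D, ⁅x, y⁆ ∈ Z := by
    rintro ⟨x, n, hx⟩ ⟨y, m, hy⟩
    apply hZ
    change ∃ k : ℤ, x * y * x⁻¹ * y⁻¹ = c ^ k
    have hm := hcn m
    have hn := hcn n
    have hm' := hcn (-m)
    have hn' := hcn (-n)
    rw [_root_.zpow_neg, inv_inv] at hm' hn'
    rcases hx with rfl | rfl <;> rcases hy with rfl | rfl
    · refine ⟨0, ?_⟩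
      rw [← _root_.zpow_neg, ← _root_.zpow_neg, ← _root_.zpow_add, ← _root_.zpow_add, ← _root_.zpow_add]
      congr 1; ring
    · refine ⟨2 * n, ?_⟩
      have : c ^ n * (c ^ m * a) * (c ^ n)⁻¹ * (c ^ m * a)⁻¹
          = c ^ n * c ^ m * (a * (c ^ n)⁻¹) * a⁻¹ * (c ^ m)⁻¹ := by group
      rw [this, hn']
      have : c ^ n * c ^ m * (c ^ n * a) * a⁻¹ * (c ^ m)⁻¹ = c ^ (2 * n) := by
        group
      exact this
    · refine ⟨-2 * m, ?_⟩
      have : c ^ n * a * c ^ m * (c ^ n * a)⁻¹ * (c ^ m)⁻¹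
          = c ^ n * (a * c ^ m) * a⁻¹ * (c ^ n)⁻¹ * (c ^ m)⁻¹ := by group
      rw [this, hm]
      group
    · refine ⟨2 * (n - m), ?_⟩
      have : c ^ n * a * (c ^ m * a) * (c ^ n * a)⁻¹ * (c ^ m * a)⁻¹
          = c ^ n * (a * c ^ m) * (c ^ n)⁻¹ * a⁻¹ * (c ^ m)⁻¹ := by group
      rw [this, hm]
      have : c ^ n * ((c ^ m)⁻¹ * a) * (c ^ n)⁻¹ * a⁻¹ * (c ^ m)⁻¹
          = c ^ n * (c ^ m)⁻¹ * (a * (c ^ n)⁻¹) * a⁻¹ * (c ^ m)⁻¹ := by group
      rw [this, hn']
      group
  have hD1 : derivedSeries D 1 ≤ Z := by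
    rw [derivedSeries_succ, Subgroup.commutator_le]
    intro x _ y _
    exact hcomm x y
  have hD2 : derivedSeries D 2 = ⊥ := by
    rw [derivedSeries_succ, eq_bot_iff, Subgroup.commutator_le]
    intro x hx y hy
    obtain ⟨n, hn⟩ := hD1 hx
    obtain ⟨m, hm⟩ := hD1 hy
    rw [Subgroup.mem_bot, ← hn, ← hm, commutatorElement_eq_one_iff_mul_comm]
    change (⟨c, hcD⟩ : D) ^ n * (⟨c, hcD⟩ : D) ^ m = (⟨c, hcD⟩ : D) ^ m * (⟨c, hcD⟩ : D) ^ n
    rw [← _root_.zpow_add, ← _root_.zpow_add, add_comm]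
  have hsol : Group.IsSolvable D := ⟨⟨2, hD2⟩⟩
  exact Sol.of_mem D haD hbD

/-- Solubility of the generated subgroup passes to homomorphic images. -/
theorem Sol.map {G H : Type*} [Group G] [Group H] (f : G →* H) {x y : G} (h : Sol x y) :
    Sol (f x) (f y) := by
  unfold Sol at *
  have h1 : Subgroup.closure ({f x, f y} : Set H) = (Subgroup.closure ({x, y} : Set G)).map f := by
    rw [MonoidHom.map_closure, Set.image_pair]
  rw [h1]
  have := h
  exact Group.isSolvable_of_surjective (f.subgroupMap_surjective (Subgroup.closure ({x, y} : Set G)))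

/-- Solubility of the generated subgroup is invariant under injective homomorphisms. -/
theorem sol_map_iff {G H : Type*} [Group G] [Group H] (f : G →* H) (hf : Function.Injective f)
    (x y : G) : Sol (f x) (f y) ↔ Sol x y := by
  refine ⟨fun h => ?_, fun h => h.map f⟩
  unfold Sol at *
  have h1 : Subgroup.closure ({f x, f y} : Set H) = (Subgroup.closure ({x, y} : Set G)).map f := by
    rw [MonoidHom.map_closure, Set.image_pair]
  rw [h1] at h
  have := h
  exact Group.isSolvable_of_isSolvable_injective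
    (f := ((Subgroup.closure ({x, y} : Set G)).equivMapOfInjective f hf).toMonoidHom)
    ((Subgroup.closure ({x, y} : Set G)).equivMapOfInjective f hf).injective

theorem sol_self {G : Type*} [Group G] (x : G) : Sol x x := by
  have hx : x ∈ Subgroup.zpowers x := Subgroup.mem_zpowers x
  have : Group.IsSolvable (Subgroup.zpowers x) :=
    Group.isSolvable_of_comm (fun a b => mul_comm' a b)
  exact Sol.of_mem (Subgroup.zpowers x) hx hx

/-- Last nontrivial term of the derived series of a soluble subgroup not killed by `f`. -/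
theorem exists_abelian_normal {G G' : Type*} [Group G] [Group G'] (f : G →* G') (H : Subgroup G)
    [Group.IsSolvable H] (h : ∃ x ∈ H, f x ≠ 1) :
    ∃ N : Subgroup G, N ≤ H ∧ (∀ h ∈ H, ∀ n ∈ N, h * n * h⁻¹ ∈ N) ∧ (∃ n ∈ N, f n ≠ 1) ∧
      ∀ a ∈ N, ∀ b ∈ N, f a * f b = f b * f a := by
  classical
  obtain ⟨m, hm⟩ := (Group.isSolvable_def H).1 inferInstance
  have hex : ∃ n : ℕ, ∀ x ∈ derivedSeries H n, f (x : G) = 1 := by
    refine ⟨m, fun x hx => ?_⟩
    rw [hm, Subgroup.mem_bot] at hx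
    rw [hx]; simp
  have hspec := Nat.find_spec hex
  have hpos : Nat.find hex ≠ 0 := by
    intro h0
    rw [h0] at hspec
    obtain ⟨x, hx, hfx⟩ := h
    exact hfx (hspec ⟨x, hx⟩ (by simp))
  obtain ⟨k, hk⟩ := Nat.exists_eq_succ_of_ne_zero hpos
  have hmin := Nat.find_min hex (m := k) (by omega)
  rw [hk] at hspec
  push Not at hmin
  obtain ⟨x, hx, hfx⟩ := hmin
  refine ⟨(derivedSeries H k).map H.subtype, ?_, ?_, ?_, ?_⟩
  · rintro _ ⟨y, _, rfl⟩
    exact y.2
  · rintro g hg _ ⟨y, hy, rfl⟩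
    refine ⟨⟨g, hg⟩ * y * ⟨g, hg⟩⁻¹, ?_, rfl⟩
    exact (inferInstance : (derivedSeries H k).Normal).conj_mem y hy _
  · exact ⟨x, ⟨x, hx, rfl⟩, hfx⟩
  · rintro _ ⟨y, hy, rfl⟩ _ ⟨z, hz, rfl⟩
    have h1 : ⁅y, z⁆ ∈ derivedSeries H (k + 1) := by
      rw [derivedSeries_succ]
      exact Subgroup.commutator_mem_commutator hy hz
    have h2 := hspec _ h1
    have h3 : ⁅f (y : G), f (z : G)⁆ = 1 := by
      rw [← h2]
      simp [commutatorElement_def]
    exact commutatorElement_eq_one_iff_mul_comm.1 h3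

end SGL
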