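import Pool.Agent.SGL.Defs

/-! Bounds on the extended diameter of the soluble graph (`SimpleGraph.ediam`). -/

namespace SGL

open Matrix
open scoped MatrixGroups LinearAlgebra.Projectivization

variable {F : Type} [Field F]

theorem m04_sol_self {G : Type*} [Group G] (x : G) : Sol x x := by
  have : Group.IsSolvable (Subgroup.zpowers x) := by
    refine Group.isSolvable_of_comm ?_
    rintro ⟨a, ha⟩ ⟨b, hb⟩
    obtain ⟨m, rfl⟩ := Subgroup.mem_zpowers_iff.1 ha
    obtain ⟨n, rfl⟩ := Subgroup.mem_zpowers_iff.1 hb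
    refine Subtype.ext ?_
    change x ^ m * x ^ n = x ^ n * x ^ m
    rw [← _root_.zpow_add, ← _root_.zpow_add, add_comm]
  exact Sol.of_mem (Subgroup.zpowers x) (Subgroup.mem_zpowers x) (Subgroup.mem_zpowers x)

theorem m04_edist_le_one {G : Type*} [Group G] {u v : {g : G // g ≠ 1}}
    (h : Sol (u : G) (v : G)) : (solGraph G).edist u v ≤ 1 := by
  rw [SimpleGraph.edist_le_one_iff_adj_or_eq]
  by_cases huv : u = v
  · exact Or.inr huv
  · exact Or.inl ⟨huv, h⟩

theorem m04_sol_of_edist_le_one {G : Type*} [Group G] {u v : {g : G // g ≠ 1}}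
    (h : (solGraph G).edist u v ≤ 1) : Sol (u : G) (v : G) := by
  rw [SimpleGraph.edist_le_one_iff_adj_or_eq] at h
  rcases h with h | h
  · exact h.2
  · rw [h]
    exact m04_sol_self _

theorem ediam_le_two {G : Type*} [Group G]
    (h : ∀ x y : G, x ≠ 1 → y ≠ 1 → ∃ z : G, z ≠ 1 ∧ Sol x z ∧ Sol z y) :
    (solGraph G).ediam ≤ 2 := by
  rw [SimpleGraph.ediam_le_iff]
  intro u v
  obtain ⟨z, hz, h1, h2⟩ := h u v u.2 v.2
  calc (solGraph G).edist u v ≤ (solGraph G).edist u ⟨z, hz⟩ + (solGraph G).edist ⟨z, hz⟩ v :=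
        SimpleGraph.edist_triangle
    _ ≤ 1 + 1 := add_le_add (m04_edist_le_one h1) (m04_edist_le_one h2)
    _ = 2 := one_add_one_eq_two

theorem ediam_le_three {G : Type*} [Group G]
    (h : ∀ x y : G, x ≠ 1 → y ≠ 1 →
      ∃ z₁ z₂ : G, z₁ ≠ 1 ∧ z₂ ≠ 1 ∧ Sol x z₁ ∧ Sol z₁ z₂ ∧ Sol z₂ y) :
    (solGraph G).ediam ≤ 3 := by
  rw [SimpleGraph.ediam_le_iff]
  intro u v
  obtain ⟨z, w, hz, hw, h1, h2, h3⟩ := h u v u.2 v.2
  calc (solGraph G).edist u v ≤ (solGraph G).edist u ⟨z, hz⟩ + (solGraph G).edist ⟨z, hz⟩ v :=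
        SimpleGraph.edist_triangle
    _ ≤ (solGraph G).edist u ⟨z, hz⟩ +
        ((solGraph G).edist ⟨z, hz⟩ ⟨w, hw⟩ + (solGraph G).edist ⟨w, hw⟩ v) :=
        add_le_add le_rfl SimpleGraph.edist_triangle
    _ ≤ 1 + (1 + 1) := add_le_add (m04_edist_le_one h1)
        (add_le_add (m04_edist_le_one h2) (m04_edist_le_one h3))
    _ = 3 := by norm_num

theorem two_le_ediam {G : Type*} [Group G] {x y : G} (hx : x ≠ 1) (hy : y ≠ 1)
    (h : ¬ Sol x y) : 2 ≤ (solGraph G).ediam := by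
  refine le_trans ?_ (SimpleGraph.edist_le_ediam (u := (⟨x, hx⟩ : {g : G // g ≠ 1}))
    (v := (⟨y, hy⟩ : {g : G // g ≠ 1})))
  have h1 : ¬ (solGraph G).edist ⟨x, hx⟩ ⟨y, hy⟩ ≤ 1 := by
    intro h2
    have h3 := m04_sol_of_edist_le_one (u := ⟨x, hx⟩) (v := ⟨y, hy⟩) h2
    exact h h3
  rw [not_le] at h1
  have h2 := Order.add_one_le_of_lt h1
  rwa [one_add_one_eq_two] at h2

theorem m04_walk {V : Type*} {Gr : SimpleGraph V} {u v : V} (p : Gr.Walk u v) (h : p.length ≤ 2) :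
    u = v ∨ Gr.Adj u v ∨ ∃ w, Gr.Adj u w ∧ Gr.Adj w v := by
  cases p with
  | nil => exact Or.inl rfl
  | cons a q =>
    cases q with
    | nil => exact Or.inr (Or.inl a)
    | cons b r =>
      cases r with
      | nil => exact Or.inr (Or.inr ⟨_, a, b⟩)
      | cons c s =>
        simp only [SimpleGraph.Walk.length_cons] at h
        omega

/-- (Take `z = x` in `h` to see that `x`, `y` are distinct and not adjacent; `Sol x x` holds
because a cyclic group is soluble.) -/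
theorem three_le_ediam {G : Type*} [Group G] {x y : G} (hx : x ≠ 1) (hy : y ≠ 1)
    (h : ∀ z : G, z ≠ 1 → Sol x z → ¬ Sol z y) : 3 ≤ (solGraph G).ediam := by
  refine le_trans ?_ (SimpleGraph.edist_le_ediam (u := (⟨x, hx⟩ : {g : G // g ≠ 1}))
    (v := (⟨y, hy⟩ : {g : G // g ≠ 1})))
  have h1 : ¬ (solGraph G).edist ⟨x, hx⟩ ⟨y, hy⟩ ≤ 2 := by
    intro h2
    have h3 : (solGraph G).edist ⟨x, hx⟩ ⟨y, hy⟩ ≠ ⊤ := by
      intro h4
      rw [h4, top_le_iff] at h2
      simp at h2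
    obtain ⟨p, hp⟩ := SimpleGraph.exists_walk_of_edist_ne_top h3
    rw [← hp] at h2
    have h5 : p.length ≤ 2 := by exact_mod_cast h2
    rcases m04_walk p h5 with h6 | h6 | ⟨w, h6, h7⟩
    · have h7 : x = y := congrArg Subtype.val h6
      subst h7
      exact h x hx (m04_sol_self x) (m04_sol_self x)
    · exact h x hx (m04_sol_self x) h6.2
    · exact h w w.2 h6.2 h7.2
  rw [not_le] at h1
  have h2 := Order.add_one_le_of_lt h1
  have h3 : (2 : ℕ∞) + 1 = 3 := by norm_num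
  rwa [h3] at h2

end SGL
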