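import Pool.Agent.SGL.Defs
import Pool.Agent.SGL.M01

/-! Point stabilisers in the semilinear group are soluble. -/

namespace SGL

open Matrix
open scoped MatrixGroups LinearAlgebra.Projectivization commutatorElement

variable {F : Type} [Field F]

/-- A subgroup with a descending chain of length three, with commutators in the next term, is
soluble. -/
theorem m05_chain {G : Type*} [Group G] (H K1 K2 : Subgroup G)
    (h1 : ∀ a ∈ H, ∀ b ∈ H, ⁅a, b⁆ ∈ K1) (h2 : ∀ a ∈ K1, ∀ b ∈ K1, ⁅a, b⁆ ∈ K2)
    (h3 : ∀ a ∈ K2, ∀ b ∈ K2, a * b = b * a) : Group.IsSolvable H := by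
  have e0 : (derivedSeries H 0).map H.subtype ≤ H := by
    rintro _ ⟨x, _, rfl⟩
    exact x.2
  have e1 : (derivedSeries H 1).map H.subtype ≤ K1 := by
    rw [derivedSeries_succ, Subgroup.map_commutator, Subgroup.commutator_le]
    intro a ha b hb
    exact h1 a (e0 ha) b (e0 hb)
  have e2 : (derivedSeries H 2).map H.subtype ≤ K2 := by
    rw [derivedSeries_succ, Subgroup.map_commutator, Subgroup.commutator_le]
    intro a ha b hb
    exact h2 a (e1 ha) b (e1 hb)
  have e3 : (derivedSeries H 3).map H.subtype ≤ ⊥ := by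
    rw [derivedSeries_succ, Subgroup.map_commutator, Subgroup.commutator_le]
    intro a ha b hb
    rw [Subgroup.mem_bot, commutatorElement_eq_one_iff_mul_comm]
    exact h3 a (e2 ha) b (e2 hb)
  refine (Group.isSolvable_def _).2 ⟨3, ?_⟩
  rw [eq_bot_iff]
  intro x hx
  have h4 : (x : G) ∈ (derivedSeries H 3).map H.subtype := ⟨x, hx, rfl⟩
  have h5 := Subgroup.mem_bot.1 (e3 h4)
  exact Subgroup.mem_bot.2 (Subtype.ext h5)

/-- The linear maps with `g v = v` and determinant one. -/
def m05_K2 (v : Fin 2 → F) : Subgroup (GamL F) where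
  carrier := {g | g.right = 1 ∧ act g v = v ∧ (mat g).det = 1}
  one_mem' := ⟨rfl, by simp, by simp⟩
  mul_mem' := by
    rintro g h ⟨g1, g2, g3⟩ ⟨h1, h2, h3⟩
    refine ⟨by rw [right_mul, g1, h1, one_mul], by rw [act_mul, h2, g2], ?_⟩
    have e : (mat h).map (g.right) = mat h := by
      rw [g1]
      rfl
    rw [mat_mul, e, Matrix.det_mul, g3, h3, one_mul]
  inv_mem' := by
    rintro g ⟨g1, g2, g3⟩
    have e0 : g⁻¹.right = 1 := by
      have := right_mul g⁻¹ g
      rw [inv_mul_cancel, g1, mul_one] at this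
      exact this.symm
    refine ⟨e0, ?_, ?_⟩
    · have : act g⁻¹ (act g v) = v := by rw [← act_mul]; simp
      rwa [g2] at this
    · have h5 := mat_mul g⁻¹ g
      rw [inv_mul_cancel] at h5
      have e : (mat g).map (g⁻¹.right) = mat g := by
        rw [e0]
        rfl
      rw [e] at h5
      have h6 := congrArg Matrix.det h5
      rw [Matrix.det_mul, g3, mul_one, mat_one, Matrix.det_one] at h6
      exact h6.symm

theorem m05_K2_mat {v : Fin 2 → F} (hv : v ≠ 0) {g : GamL F} (hg : g ∈ m05_K2 v) :
    ∃ c : F, mat g = 1 + c • !![-(v 0 * v 1), v 0 ^ 2; -(v 1 ^ 2), v 0 * v 1] := by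
  obtain ⟨g1, g2, g3⟩ := hg
  obtain ⟨M, hM⟩ : ∃ M : Matrix (Fin 2) (Fin 2) F, M = mat g := ⟨_, rfl⟩
  have e1 : M *ᵥ v = v := by
    have h : act g v = mat g *ᵥ v := by
      rw [act_def, g1]
      rfl
    rw [hM, ← h, g2]
  rw [← hM] at g3 ⊢
  have h0 : M 0 0 * v 0 + M 0 1 * v 1 = v 0 := by
    have := congrFun e1 0
    simpa [Matrix.mulVec, dotProduct, Fin.sum_univ_two] using this
  have h1 : M 1 0 * v 0 + M 1 1 * v 1 = v 1 := by
    have := congrFun e1 1
    simpa [Matrix.mulVec, dotProduct, Fin.sum_univ_two] using this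
  rw [Matrix.det_fin_two] at g3
  have hex : v 0 ≠ 0 ∨ v 1 ≠ 0 := by
    by_contra hc
    push Not at hc
    apply hv
    ext i
    fin_cases i
    · exact hc.1
    · exact hc.2
  have htr : M 0 0 + M 1 1 = 2 := by
    rcases hex with hx | hx
    · have : (M 0 0 + M 1 1 - 2) * v 0 = 0 := by
        linear_combination h0 * (1 - M 1 1) + h1 * M 0 1 + g3 * v 0
      have := (mul_eq_zero.1 this).resolve_right hx
      linear_combination this
    · have : (M 0 0 + M 1 1 - 2) * v 1 = 0 := by
        linear_combination h1 * (1 - M 0 0) + h0 * M 1 0 + g3 * v 1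
      have := (mul_eq_zero.1 this).resolve_right hx
      linear_combination this
  rcases hex with hx | hx
  · refine ⟨M 0 1 / v 0 ^ 2, ?_⟩
    have hx2 : v 0 ^ 2 ≠ 0 := pow_ne_zero 2 hx
    ext i j
    fin_cases i <;> fin_cases j <;> simp
    · field_simp
      linear_combination h0
    · field_simp
    · field_simp
      linear_combination v 0 * h1 + v 1 * h0 - v 0 * v 1 * htr
    · field_simp
      linear_combination v 0 * htr - h0
  · refine ⟨-(M 1 0) / v 1 ^ 2, ?_⟩
    have hx2 : v 1 ^ 2 ≠ 0 := pow_ne_zero 2 hx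
    ext i j
    fin_cases i <;> fin_cases j <;> simp
    · field_simp
      linear_combination v 1 * htr - h1
    · field_simp
      linear_combination v 0 * h1 + v 1 * h0 - v 0 * v 1 * htr
    · field_simp
    · field_simp
      linear_combination h1

/-- (By transitivity of `GL₂` on points it is enough to treat the point `[e₁]`; there the map to
`Aut F` has abelian target, and on the kernel use the two diagonal entries.) -/
instance stab_solvable [Finite F] (p : ℙ F (Fin 2 → F)) :
    Group.IsSolvable (MulAction.stabilizer (GamL F) p) := by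
  obtain ⟨v, hv, rfl⟩ : ∃ (v : Fin 2 → F) (hv : v ≠ 0), p = Projectivization.mk F v hv :=
    ⟨p.rep, p.rep_nonzero, p.mk_rep.symm⟩
  have hstab : ∀ g : GamL F, g ∈ MulAction.stabilizer (GamL F) (Projectivization.mk F v hv) →
      ∃ c : F, c ≠ 0 ∧ act g v = c • v := by
    intro g hg
    rw [MulAction.mem_stabilizer_iff] at hg
    have h1 : toPerm F g (Projectivization.mk F v hv) = Projectivization.mk F v hv := hg
    rw [toPerm_mk_eq_iff] at h1
    obtain ⟨c, hc⟩ := h1
    have hc0 : c ≠ 0 := by
      rintro rfl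
      rw [zero_smul] at hc
      exact act_ne_zero g hv hc.symm
    exact ⟨c, hc0, hc.symm⟩
  have hker : ∀ a b : GamL F, (⁅a, b⁆ : GamL F).right = 1 := by
    intro a b
    have h1 : SemidirectProduct.rightHom ⁅a, b⁆ = ⁅SemidirectProduct.rightHom a,
        SemidirectProduct.rightHom b⁆ := map_commutatorElement _ _ _
    have h2 : (⁅a, b⁆ : GamL F).right = ⁅a.right, b.right⁆ := h1
    rw [h2, commutatorElement_eq_one_iff_mul_comm]
    exact aut_comm _ _
  refine m05_chain _ (MulAction.stabilizer (GamL F) (Projectivization.mk F v hv) ⊓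
    (SemidirectProduct.rightHom (φ := galAct F)).ker) (m05_K2 v) ?_ ?_ ?_
  · intro a ha b hb
    refine ⟨?_, hker a b⟩
    exact Subgroup.mul_mem _ (Subgroup.mul_mem _ (Subgroup.mul_mem _ ha hb)
      (Subgroup.inv_mem _ ha)) (Subgroup.inv_mem _ hb)
  · rintro a ⟨ha, ha1⟩ b ⟨hb, hb1⟩
    obtain ⟨α, hα, ha2⟩ := hstab a ha
    obtain ⟨β, hβ, hb2⟩ := hstab b hb
    have ha1' : a.right = 1 := ha1
    have hb1' : b.right = 1 := hb1
    have hc : ⁅a, b⁆ * (b * a) = a * b := by
      rw [commutatorElement_def]
      group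
    have hr := hker a b
    refine ⟨hr, ?_, ?_⟩
    · have h1 : act (⁅a, b⁆ * (b * a)) v = act (a * b) v := by rw [hc]
      have hL : act b (act a v) = (α * β) • v := by
        rw [ha2, act_smul, hb2, hb1', smul_smul]
        rfl
      have hR : act a (act b v) = (α * β) • v := by
        rw [hb2, act_smul, ha2, ha1', smul_smul, mul_comm α β]
        rfl
      rw [act_mul, act_mul, act_mul, hL, hR, act_smul, hr] at h1
      have h2 : (1 : F ≃+* F) (α * β) = α * β := rfl
      rw [h2] at h1
      exact smul_right_injective _ (mul_ne_zero hα hβ) h1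
    · have h1 := congrArg mat hc
      have e1 : (mat (b * a)).map (⁅a, b⁆ : GamL F).right = mat (b * a) := by
        rw [hr]
        rfl
      have e2 : (mat a).map b.right = mat a := by
        rw [hb1']
        rfl
      have e3 : (mat b).map a.right = mat b := by
        rw [ha1']
        rfl
      rw [mat_mul, e1, mat_mul b a, e2, mat_mul a b, e3] at h1
      have h2 := congrArg Matrix.det h1
      rw [Matrix.det_mul, Matrix.det_mul, Matrix.det_mul, mul_comm (mat b).det] at h2
      have h3 : (mat a).det * (mat b).det ≠ 0 :=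
        mul_ne_zero (mat_det_ne_zero a) (mat_det_ne_zero b)
      exact mul_right_cancel₀ h3 (by rw [h2, one_mul])
  · intro a ha b hb
    obtain ⟨c, hc⟩ := m05_K2_mat hv ha
    obtain ⟨d, hd⟩ := m05_K2_mat hv hb
    have e2 : (mat a).map b.right = mat a := by
      rw [hb.1]
      rfl
    have e3 : (mat b).map a.right = mat b := by
      rw [ha.1]
      rfl
    refine gam_ext ?_ ?_
    · rw [mat_mul, mat_mul, e2, e3, hc, hd]
      exact ((Commute.one_left _).add_left ((Commute.add_right (Commute.one_right _)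
        ((Commute.refl _).smul_right d)).smul_left c)).eq
    · rw [right_mul, right_mul, ha.1, hb.1]

end SGL
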