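import Pool.Agent.SGL.Defs
import Pool.Agent.SGL.M01

/-! The normaliser of the algebra `F[X]`, `disc X ≠ 0`, is soluble. -/

namespace SGL

open Matrix
open scoped MatrixGroups LinearAlgebra.Projectivization commutatorElement

variable {F : Type} [Field F]

theorem m06_map_one (g h : GamL F) (hr : g.right = 1) : (mat h).map g.right = mat h := by
  rw [hr]
  rfl

/-- An element of `normX X` which is linear either commutes with `X` or satisfies
`M X = (tr X - X) M`. -/
theorem normX_linear {X : Matrix (Fin 2) (Fin 2) F} (hX : disc X ≠ 0) {g : GamL F}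
    (hg : g ∈ normX X) (hr : g.right = 1) :
    mat g * X = X * mat g ∨ mat g * X = (X.trace • (1 : Matrix (Fin 2) (Fin 2) F) - X) * mat g := by
  obtain ⟨a, b, h⟩ := mem_normX.1 hg
  have hX1 : X.map g.right = X := by
    rw [hr]
    rfl
  rw [hX1] at h
  obtain ⟨Y, hY⟩ : ∃ Y : Matrix (Fin 2) (Fin 2) F, Y = a • (1 : Matrix (Fin 2) (Fin 2) F) + b • X :=
    ⟨_, rfl⟩
  have hdet : Y.det = X.det := by
    have h1 := congrArg Matrix.det h
    rw [← hY, Matrix.det_mul, Matrix.det_mul, mul_comm] at h1
    exact (mul_right_cancel₀ (mat_det_ne_zero g) h1).symm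
  have htr : Y.trace = X.trace := by
    have h1 := Matrix.trace_units_conj g.left X
    have h2 : (g.left : Matrix (Fin 2) (Fin 2) F) * X = Y * (g.left : Matrix (Fin 2) (Fin 2) F) := by
      rw [hY]
      exact h
    rw [h2, Matrix.mul_assoc, Units.mul_inv, Matrix.mul_one] at h1
    exact h1
  have ht : 2 * a + b * X.trace = X.trace := by
    have e : Y.trace = 2 * a + b * X.trace := by
      rw [hY]
      simp [Matrix.trace_fin_two]
      ring
    exact e.symm.trans htr
  have hd : a ^ 2 + a * b * X.trace + b ^ 2 * X.det = X.det := by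
    have e : Y.det = a ^ 2 + a * b * X.trace + b ^ 2 * X.det := by
      rw [hY]
      simp [Matrix.det_fin_two, Matrix.trace_fin_two]
      ring
    exact e.symm.trans hdet
  have hb : b ^ 2 = 1 := by
    have h1 : (b ^ 2 - 1) * disc X = 0 := by
      unfold disc
      linear_combination (2 * a + b * X.trace + X.trace) * ht - 4 * hd
    have h2 := (mul_eq_zero.1 h1).resolve_right hX
    linear_combination h2
  have hb' : (b - 1) * (b + 1) = 0 := by linear_combination hb
  rcases mul_eq_zero.1 hb' with hb1 | hb1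
  · have hb2 : b = 1 := by linear_combination hb1
    subst hb2
    have h2a : 2 * a = 0 := by linear_combination ht
    have h3 : a * (a + X.trace) = 0 := by linear_combination hd
    rcases mul_eq_zero.1 h3 with h4 | h4
    · left
      rw [h, h4, zero_smul, one_smul, zero_add]
    · have ha : a = - X.trace := by linear_combination h4
      by_cases h2 : (2 : F) = 0
      · right
        have h5 : ∀ x : F, -x = x := fun x => by linear_combination (-x) * h2
        rw [h, ha, h5 X.trace, one_smul, sub_eq_add_neg]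
        congr 2
        ext i j
        exact (h5 _).symm
      · left
        have ha0 : a = 0 := (mul_eq_zero.1 h2a).resolve_left h2
        rw [h, ha0, zero_smul, one_smul, zero_add]
  · have hb2 : b = -1 := by linear_combination hb1
    subst hb2
    have h2a : 2 * (a - X.trace) = 0 := by linear_combination ht
    have h3 : a * (a - X.trace) = 0 := by linear_combination hd
    rcases mul_eq_zero.1 h3 with h4 | h4
    · by_cases h2 : (2 : F) = 0
      · left
        have h5 : ∀ x : F, -x = x := fun x => by linear_combination (-x) * h2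
        rw [h, h4, zero_smul, zero_add]
        congr 1
        ext i j
        simpa using h5 (X i j)
      · right
        have ha0 : a = X.trace := by
          have := (mul_eq_zero.1 h2a).resolve_left h2
          linear_combination this
        rw [h, ha0, neg_smul, one_smul, sub_eq_add_neg]
    · right
      have ha0 : a = X.trace := by linear_combination h4
      rw [h, ha0, neg_smul, one_smul, sub_eq_add_neg]

/-- A subgroup with a descending chain of length three, with commutators in the next term, is
soluble. -/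
theorem m06_chain {G : Type*} [Group G] (H K1 K2 : Subgroup G)
    (h1 : ∀ a ∈ H, ∀ b ∈ H, ⁅a, b⁆ ∈ K1) (h2 : ∀ a ∈ K1, ∀ b ∈ K1, ⁅a, b⁆ ∈ K2)
    (h3 : ∀ a ∈ K2, ∀ b ∈ K2, a * b = b * a) : Group.IsSolvable H := by
  have e0 : (derivedSeries H 0).map H.subtype ≤ H := by
    rintro _ ⟨x, _, rfl⟩
    exact x.2
  have e1 : (derivedSeries H 1).map H.subtype ≤ K1 := by
    rw [derivedSeries_succ, Subgroup.map_commutator, Subgroup.commutator_le]
    intro a ha b hb
    exact h1 a (e0 ha) b (e0 hb)
  have e2 : (derivedSeries H 2).map H.subtype ≤ K2 := by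
    rw [derivedSeries_succ, Subgroup.map_commutator, Subgroup.commutator_le]
    intro a ha b hb
    exact h2 a (e1 ha) b (e1 hb)
  have e3 : (derivedSeries H 3).map H.subtype ≤ ⊥ := by
    rw [derivedSeries_succ, Subgroup.map_commutator, Subgroup.commutator_le]
    intro a ha b hb
    rw [Subgroup.mem_bot, commutatorElement_eq_one_iff_mul_comm]
    exact h3 a (e2 ha) b (e2 hb)
  refine (Group.isSolvable_def _).2 ⟨3, ?_⟩
  rw [eq_bot_iff]
  intro x hx
  have h4 : (x : G) ∈ (derivedSeries H 3).map H.subtype := ⟨x, hx, rfl⟩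
  have h5 := Subgroup.mem_bot.1 (e3 h4)
  exact Subgroup.mem_bot.2 (Subtype.ext h5)

/-- The linear maps commuting with `X`. -/
def m06_K2 (X : Matrix (Fin 2) (Fin 2) F) : Subgroup (GamL F) where
  carrier := {g | g.right = 1 ∧ mat g * X = X * mat g}
  one_mem' := ⟨rfl, by simp⟩
  mul_mem' := by
    rintro g h ⟨g1, g2⟩ ⟨h1, h2⟩
    refine ⟨by rw [right_mul, g1, h1, one_mul], ?_⟩
    rw [mat_mul, m06_map_one g h g1, Matrix.mul_assoc, h2, ← Matrix.mul_assoc, g2, Matrix.mul_assoc]
  inv_mem' := by
    rintro g ⟨g1, g2⟩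
    have e0 : g⁻¹.right = 1 := by
      have := right_mul g⁻¹ g
      rw [inv_mul_cancel, g1, mul_one] at this
      exact this.symm
    refine ⟨e0, ?_⟩
    have h5 : mat g⁻¹ * mat g = 1 := by
      have := mat_mul g⁻¹ g
      rw [inv_mul_cancel, m06_map_one g⁻¹ g e0] at this
      exact this.symm
    have h6 : mat g * mat g⁻¹ = 1 := mul_eq_one_comm.1 h5
    calc mat g⁻¹ * X = mat g⁻¹ * X * (mat g * mat g⁻¹) := by rw [h6, Matrix.mul_one]
      _ = mat g⁻¹ * (X * mat g) * mat g⁻¹ := by simp only [Matrix.mul_assoc]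
      _ = (mat g⁻¹ * mat g) * X * mat g⁻¹ := by rw [← g2]; simp only [Matrix.mul_assoc]
      _ = X * mat g⁻¹ := by rw [h5, Matrix.one_mul]

theorem m06_poly {X M : Matrix (Fin 2) (Fin 2) F} (hX : disc X ≠ 0) (h : M * X = X * M) :
    ∃ a b : F, M = a • (1 : Matrix (Fin 2) (Fin 2) F) + b • X := by
  have h00 := congrFun (congrFun h 0) 0
  have h01 := congrFun (congrFun h 0) 1
  have h10 := congrFun (congrFun h 1) 0
  simp only [Matrix.mul_apply, Fin.sum_univ_two] at h00 h01 h10
  by_cases hq : X 0 1 = 0
  · by_cases hr : X 1 0 = 0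
    · have hps : X 0 0 - X 1 1 ≠ 0 := by
        intro h0
        apply hX
        unfold disc
        rw [Matrix.trace_fin_two, Matrix.det_fin_two, hq]
        linear_combination (X 0 0 - X 1 1) * h0
      rw [hq] at h01
      rw [hr] at h10
      have hM01 : M 0 1 = 0 := by
        have : M 0 1 * (X 0 0 - X 1 1) = 0 := by linear_combination -h01
        exact (mul_eq_zero.1 this).resolve_right hps
      have hM10 : M 1 0 = 0 := by
        have : M 1 0 * (X 0 0 - X 1 1) = 0 := by linear_combination h10
        exact (mul_eq_zero.1 this).resolve_right hps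
      refine ⟨M 0 0 - (M 0 0 - M 1 1) / (X 0 0 - X 1 1) * X 0 0,
        (M 0 0 - M 1 1) / (X 0 0 - X 1 1), ?_⟩
      ext i j
      fin_cases i <;> fin_cases j <;> simp [hq, hr, hM01, hM10]
      field_simp
      ring
    · refine ⟨M 0 0 - M 1 0 / X 1 0 * X 0 0, M 1 0 / X 1 0, ?_⟩
      rw [hq] at h00
      have hM01 : M 0 1 = 0 := by
        have : M 0 1 * X 1 0 = 0 := by linear_combination h00
        exact (mul_eq_zero.1 this).resolve_right hr
      ext i j
      fin_cases i <;> fin_cases j <;> simp [hq, hM01]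
      · field_simp
      · field_simp
        linear_combination h10
  · refine ⟨M 0 0 - M 0 1 / X 0 1 * X 0 0, M 0 1 / X 0 1, ?_⟩
    ext i j
    fin_cases i <;> fin_cases j <;> simp
    · field_simp
    · field_simp
      linear_combination -h00
    · field_simp
      linear_combination -h01

theorem m06_cancel {A B : Matrix (Fin 2) (Fin 2) F} {g : GamL F} (h : A * mat g = B * mat g) :
    A = B := by
  have h1 : IsUnit (mat g) := (Matrix.isUnit_iff_isUnit_det (mat g)).2
    (isUnit_iff_ne_zero.2 (mat_det_ne_zero g))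
  exact h1.mul_right_cancel h

/-- (Field automorphisms commute, so commutators of elements of `normX X` are linear; commutators
of linear elements of `normX X` commute with `X` by `normX_linear`; the matrices commuting with the
nonscalar `X` commute with each other.) -/
theorem normX_solvable [Finite F] (X : Matrix (Fin 2) (Fin 2) F) (hX : disc X ≠ 0) :
    Group.IsSolvable (normX X) := by
  have hker : ∀ a b : GamL F, (⁅a, b⁆ : GamL F).right = 1 := by
    intro a b
    have h1 : SemidirectProduct.rightHom ⁅a, b⁆ = ⁅SemidirectProduct.rightHom a,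
        SemidirectProduct.rightHom b⁆ := map_commutatorElement _ _ _
    have h2 : (⁅a, b⁆ : GamL F).right = ⁅a.right, b.right⁆ := h1
    rw [h2, commutatorElement_eq_one_iff_mul_comm]
    exact aut_comm _ _
  refine m06_chain _ (normX X ⊓ (SemidirectProduct.rightHom (φ := galAct F)).ker) (m06_K2 X)
    ?_ ?_ ?_
  · intro a ha b hb
    refine ⟨?_, hker a b⟩
    exact Subgroup.mul_mem _ (Subgroup.mul_mem _ (Subgroup.mul_mem _ ha hb)
      (Subgroup.inv_mem _ ha)) (Subgroup.inv_mem _ hb)
  · rintro a ⟨ha, ha1⟩ b ⟨hb, hb1⟩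
    have ha1' : a.right = 1 := ha1
    have hb1' : b.right = 1 := hb1
    have hc : ⁅a, b⁆ * (b * a) = a * b := by
      rw [commutatorElement_def]
      group
    have hr := hker a b
    refine ⟨hr, ?_⟩
    obtain ⟨X', hX'⟩ : ∃ X' : Matrix (Fin 2) (Fin 2) F,
      X' = X.trace • (1 : Matrix (Fin 2) (Fin 2) F) - X := ⟨_, rfl⟩
    have hsw : ∀ g : GamL F, ∀ Y Z : Matrix (Fin 2) (Fin 2) F, mat g * Y = Z * mat g →
        mat g * (X.trace • (1 : Matrix (Fin 2) (Fin 2) F) - Y) =
          (X.trace • (1 : Matrix (Fin 2) (Fin 2) F) - Z) * mat g := by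
      intro g Y Z hgY
      rw [Matrix.mul_sub, Matrix.sub_mul, hgY, Matrix.mul_smul, Matrix.smul_mul, Matrix.mul_one,
        Matrix.one_mul]
    have hXX : X.trace • (1 : Matrix (Fin 2) (Fin 2) F) - X' = X := by
      rw [hX']
      abel
    have hal := normX_linear hX ha ha1'
    have hbl := normX_linear hX hb hb1'
    rw [← hX'] at hal hbl
    have hm : mat ⁅a, b⁆ * (mat b * mat a) = mat a * mat b := by
      have h1 := congrArg mat hc
      rw [mat_mul, m06_map_one _ _ hr, mat_mul b a, m06_map_one _ _ hb1', mat_mul a b,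
        m06_map_one _ _ ha1'] at h1
      exact h1
    -- common type of `a b` and `b a`
    have key : ∀ Y : Matrix (Fin 2) (Fin 2) F, mat a * mat b * X = Y * (mat a * mat b) →
        mat b * mat a * X = Y * (mat b * mat a) → mat ⁅a, b⁆ * Y = Y * mat ⁅a, b⁆ := by
      intro Y h1 h2
      refine m06_cancel (g := b) (m06_cancel (g := a) ?_)
      calc mat ⁅a, b⁆ * Y * mat b * mat a = mat ⁅a, b⁆ * (Y * (mat b * mat a)) := by
            simp only [Matrix.mul_assoc]
        _ = mat ⁅a, b⁆ * (mat b * mat a) * X := by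
            rw [← h2]
            simp only [Matrix.mul_assoc]
        _ = Y * (mat ⁅a, b⁆ * (mat b * mat a)) := by rw [hm, h1]
        _ = Y * mat ⁅a, b⁆ * mat b * mat a := by simp only [Matrix.mul_assoc]
    have hback : mat ⁅a, b⁆ * X' = X' * mat ⁅a, b⁆ → mat ⁅a, b⁆ * X = X * mat ⁅a, b⁆ := by
      intro h1
      have h2 := hsw _ _ _ h1
      rwa [hXX] at h2
    rcases hal with hal | hal <;> rcases hbl with hbl | hbl
    · refine key X ?_ ?_
      · rw [Matrix.mul_assoc, hbl, ← Matrix.mul_assoc, hal, Matrix.mul_assoc]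
      · rw [Matrix.mul_assoc, hal, ← Matrix.mul_assoc, hbl, Matrix.mul_assoc]
    · refine hback (key X' ?_ ?_)
      · have h1 := hsw _ _ _ hal
        rw [← hX'] at h1
        rw [Matrix.mul_assoc, hbl, ← Matrix.mul_assoc, h1, Matrix.mul_assoc]
      · rw [Matrix.mul_assoc, hal, ← Matrix.mul_assoc, hbl, Matrix.mul_assoc]
    · refine hback (key X' ?_ ?_)
      · rw [Matrix.mul_assoc, hbl, ← Matrix.mul_assoc, hal, Matrix.mul_assoc]
      · have h1 := hsw _ _ _ hbl
        rw [← hX'] at h1
        rw [Matrix.mul_assoc, hal, ← Matrix.mul_assoc, h1, Matrix.mul_assoc]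
    · refine key X ?_ ?_
      · have h1 := hsw _ _ _ hal
        rw [← hX', hXX] at h1
        rw [Matrix.mul_assoc, hbl, ← Matrix.mul_assoc, h1, Matrix.mul_assoc]
      · have h1 := hsw _ _ _ hbl
        rw [← hX', hXX] at h1
        rw [Matrix.mul_assoc, hal, ← Matrix.mul_assoc, h1, Matrix.mul_assoc]
  · intro a ha b hb
    obtain ⟨c, d, hc⟩ := m06_poly hX ha.2
    obtain ⟨c', d', hd⟩ := m06_poly hX hb.2
    refine gam_ext ?_ ?_
    · rw [mat_mul, mat_mul, m06_map_one _ _ ha.1, m06_map_one _ _ hb.1, hc, hd]
      have h1 : ∀ x : F, Commute (x • (1 : Matrix (Fin 2) (Fin 2) F)) X := fun x =>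
        (Commute.one_left _).smul_left x
      have h2 : ∀ x y : F, Commute (x • (1 : Matrix (Fin 2) (Fin 2) F))
          (y • (1 : Matrix (Fin 2) (Fin 2) F)) := fun x y =>
        ((Commute.one_left _).smul_left x).smul_right y
      exact (((h2 c c').add_right ((h1 c).smul_right d')).add_left
        (((h1 c').symm.smul_left d).add_right (((Commute.refl X).smul_left d).smul_right d'))).eq
    · rw [right_mul, right_mul, ha.1, hb.1]

end SGL
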