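import Pool.Agent.SGL.Defs
import Pool.Agent.SGL.M02
import Pool.Agent.SGL.M05
import Pool.Agent.SGL.M06

/-! Linked elements generate soluble groups on the projective line. -/

namespace SGL

open Matrix
open scoped MatrixGroups LinearAlgebra.Projectivization

variable {F : Type} [Field F]

theorem m07_sol_map {G G' : Type*} [Group G] [Group G'] (f : G →* G') (S : Subgroup G)
    (hS : Group.IsSolvable S) {x y : G} (hx : x ∈ S) (hy : y ∈ S) : Sol (f x) (f y) := by
  have h1 : Group.IsSolvable (S.map f) :=
    Group.isSolvable_of_surjective (f := f.subgroupMap S) (f.subgroupMap_surjective S)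
  exact Sol.of_mem (S.map f) (Subgroup.mem_map_of_mem f hx) (Subgroup.mem_map_of_mem f hy)

theorem Link.sol [Finite F] {x y : GamL F} (h : Link x y) : Sol (toPerm F x) (toPerm F y) := by
  rcases h with ⟨p, h1, h2⟩ | ⟨X, h0, h1, h2⟩
  · refine m07_sol_map (toPerm F) (MulAction.stabilizer (GamL F) p) (stab_solvable p) ?_ ?_
    · rw [MulAction.mem_stabilizer_iff]
      exact h1
    · rw [MulAction.mem_stabilizer_iff]
      exact h2
  · exact m07_sol_map (toPerm F) (normX X) (normX_solvable X h0) h1 h2

end SGL
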