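import Pool.Agent.SGL.Defs
import Pool.Agent.SGL.M02

/-! Classification of semilinear maps with a nonscalar linear power. -/

namespace SGL

open Matrix
open scoped MatrixGroups LinearAlgebra.Projectivization

variable {F : Type} [Field F]

/-- A double eigenvalue of a matrix with zero discriminant. -/
private theorem m08_eig [Finite F] (X : Matrix (Fin 2) (Fin 2) F) (hd : disc X = 0) :
    ∃ l : F, X.trace = 2 * l ∧ X.det = l ^ 2 := by
  unfold disc at hd
  by_cases h2 : (2 : F) = 0
  · have hch : CharP F 2 := by
      refine CharTwo.of_one_ne_zero_of_two_eq_zero one_ne_zero h2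
    obtain ⟨l, hl⟩ := (FiniteField.isSquare_of_char_two (ringChar.eq F 2) X.det)
    refine ⟨l, ?_, by rw [hl, sq]⟩
    have h4 : (4 : F) = 0 := by
      have : (4 : F) = 2 * 2 := by norm_num
      rw [this, h2, zero_mul]
    rw [h4, zero_mul, sub_zero] at hd
    rw [h2, zero_mul]
    exact pow_eq_zero_iff (two_ne_zero) |>.1 hd
  · refine ⟨X.trace / 2, by field_simp, ?_⟩
    have h4 : (4 : F) ≠ 0 := by
      have : (4 : F) = 2 * 2 := by norm_num
      rw [this]
      exact mul_ne_zero h2 h2
    have h5 : X.trace ^ 2 = 4 * X.det := by linear_combination hd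
    have h6 : (X.trace / 2) ^ 2 = X.trace ^ 2 / 4 := by
      rw [div_pow]
      norm_num
    rw [h6, h5]
    field_simp

/-- Let `g ^ n` be linear (matrix `X`) and not scalar. `g` commutes with `g ^ n`, i.e.
`mat g * X.map σ = X * mat g`. If `disc X ≠ 0` we are in the second case. If `disc X = 0` then
`X` has exactly one eigenline, which `g` fixes (eigenvalue `λ`: `tr X / 2` in odd characteristic,
a square root of `det X` in characteristic two). -/
theorem classify_nonscalar [Finite F] (g : GamL F) (n : ℕ) (hr : (g ^ n).right = 1)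
    (hns : toPerm F (g ^ n) ≠ 1) :
    (∃ p : ℙ F (Fin 2 → F), toPerm F g p = p) ∨
    (∃ X : Matrix (Fin 2) (Fin 2) F, X.det ≠ 0 ∧ disc X ≠ 0 ∧
      mat g * X.map g.right = X * mat g) := by
  have hcomm : mat g * (mat (g ^ n)).map g.right = mat (g ^ n) * mat g := by
    have h1 : g * g ^ n = g ^ n * g := by rw [← pow_succ, ← pow_succ']
    have h2 := congrArg mat h1
    rw [mat_mul, mat_mul, hr] at h2
    rw [h2]
    congr 1
  have hdet := mat_det_ne_zero (g ^ n)
  have hnsc : ¬ ∃ c : F, mat (g ^ n) = c • (1 : Matrix (Fin 2) (Fin 2) F) := fun hc =>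
    hns ((toPerm_eq_one_iff _).2 ⟨hr, hc⟩)
  by_cases hd : disc (mat (g ^ n)) = 0
  swap
  · exact Or.inr ⟨_, hdet, hd, hcomm⟩
  left
  generalize hX : mat (g ^ n) = X at *
  obtain ⟨l, hl1, hl2⟩ := m08_eig X hd
  rw [Matrix.trace_fin_two] at hl1
  rw [Matrix.det_fin_two] at hl2
  -- `X u = m u` with `u ≠ 0` forces `m = l`
  have huniq : ∀ (u : Fin 2 → F) (m : F), u ≠ 0 → X *ᵥ u = m • u → m = l := by
    intro u m hu hXu
    have e0 : X 0 0 * u 0 + X 0 1 * u 1 = m * u 0 := by
      have := congrFun hXu 0
      simpa [Matrix.mulVec, dotProduct, Fin.sum_univ_two] using this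
    have e1 : X 1 0 * u 0 + X 1 1 * u 1 = m * u 1 := by
      have := congrFun hXu 1
      simpa [Matrix.mulVec, dotProduct, Fin.sum_univ_two] using this
    have hq : ∀ i, (m - l) ^ 2 * u i = 0 := by
      intro i
      fin_cases i
      · simp only [Fin.zero_eta]
        linear_combination (X 1 1 - m) * e0 - X 0 1 * e1 + (m * u 0) * hl1 - u 0 * hl2
      · simp only [Fin.mk_one]
        linear_combination (X 0 0 - m) * e1 - X 1 0 * e0 + (m * u 1) * hl1 - u 1 * hl2
    have : ∃ i, u i ≠ 0 := by
      by_contra hh
      push Not at hh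
      exact hu (funext hh)
    obtain ⟨i, hi⟩ := this
    have h3 : (m - l) ^ 2 = 0 := (mul_eq_zero.1 (hq i)).resolve_right hi
    exact sub_eq_zero.1 (pow_eq_zero_iff two_ne_zero |>.1 h3)
  -- an eigenvector
  obtain ⟨w, hw0, hw⟩ : ∃ w : Fin 2 → F, w ≠ 0 ∧ X *ᵥ w = l • w := by
    by_cases hc : X 0 0 - l = 0 ∧ X 1 0 = 0
    · refine ⟨![1, 0], ?_, ?_⟩
      · intro h
        have := congrFun h 0
        simp at this
      · ext i
        fin_cases i
        · simp [Matrix.mulVec, dotProduct, Fin.sum_univ_two]
          linear_combination hc.1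
        · simp [Matrix.mulVec, dotProduct, Fin.sum_univ_two]
          exact hc.2
    · refine ⟨![X 0 0 - l, X 1 0], ?_, ?_⟩
      · intro h
        apply hc
        exact ⟨by simpa using congrFun h 0, by simpa using congrFun h 1⟩
      · ext i
        fin_cases i
        · simp [Matrix.mulVec, dotProduct, Fin.sum_univ_two]
          linear_combination X 0 0 * hl1 - hl2
        · simp [Matrix.mulVec, dotProduct, Fin.sum_univ_two]
          linear_combination X 1 0 * hl1
  -- the eigenline is unique
  have hline : ∀ u : Fin 2 → F, X *ᵥ u = l • u → ∃ c : F, c • w = u := by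
    intro u hu
    have hcross : u 0 * w 1 - u 1 * w 0 = 0 := by
      by_contra hne
      apply hnsc
      have e0 : X 0 0 * u 0 + X 0 1 * u 1 = l * u 0 := by
        have := congrFun hu 0
        simpa [Matrix.mulVec, dotProduct, Fin.sum_univ_two] using this
      have e1 : X 1 0 * u 0 + X 1 1 * u 1 = l * u 1 := by
        have := congrFun hu 1
        simpa [Matrix.mulVec, dotProduct, Fin.sum_univ_two] using this
      have f0 : X 0 0 * w 0 + X 0 1 * w 1 = l * w 0 := by
        have := congrFun hw 0
        simpa [Matrix.mulVec, dotProduct, Fin.sum_univ_two] using this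
      have f1 : X 1 0 * w 0 + X 1 1 * w 1 = l * w 1 := by
        have := congrFun hw 1
        simpa [Matrix.mulVec, dotProduct, Fin.sum_univ_two] using this
      refine ⟨l, ?_⟩
      ext i j
      have g00 : (X 0 0 - l) * (u 0 * w 1 - u 1 * w 0) = 0 := by
        linear_combination w 1 * e0 - u 1 * f0
      have g01 : X 0 1 * (u 0 * w 1 - u 1 * w 0) = 0 := by
        linear_combination u 0 * f0 - w 0 * e0
      have g10 : X 1 0 * (u 0 * w 1 - u 1 * w 0) = 0 := by
        linear_combination w 1 * e1 - u 1 * f1
      have g11 : (X 1 1 - l) * (u 0 * w 1 - u 1 * w 0) = 0 := by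
        linear_combination u 0 * f1 - w 0 * e1
      fin_cases i <;> fin_cases j
      · simpa using sub_eq_zero.1 ((mul_eq_zero.1 g00).resolve_right hne)
      · simpa using (mul_eq_zero.1 g01).resolve_right hne
      · simpa using (mul_eq_zero.1 g10).resolve_right hne
      · simpa using sub_eq_zero.1 ((mul_eq_zero.1 g11).resolve_right hne)
    have : ∃ i, w i ≠ 0 := by
      by_contra hh
      push Not at hh
      exact hw0 (funext hh)
    obtain ⟨i, hi⟩ := this
    refine ⟨u i / w i, ?_⟩
    fin_cases i
    · simp only [Fin.zero_eta] at hi ⊢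
      ext j
      fin_cases j
      · simp [hi]
      · simp only [Fin.mk_one, Pi.smul_apply, smul_eq_mul]
        field_simp
        linear_combination hcross
    · simp only [Fin.mk_one] at hi ⊢
      ext j
      fin_cases j
      · simp only [Fin.zero_eta, Pi.smul_apply, smul_eq_mul]
        field_simp
        linear_combination -hcross
      · simp [hi]
  refine ⟨Projectivization.mk F w hw0, ?_⟩
  rw [toPerm_mk_eq_iff]
  apply hline
  have hact : X *ᵥ act g w = g.right l • act g w := by
    rw [← act_smul, ← hw]
    unfold act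
    rw [map_mulVec', Matrix.mulVec_mulVec, Matrix.mulVec_mulVec, hcomm]
  have := huniq _ _ (act_ne_zero g hw0) hact
  rw [hact, this]

end SGL
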