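import Pool.Agent.SGL.Defs
import Pool.Agent.SGL.M01
import Pool.Agent.SGL.M02

/-! A semilinear map whose power is scalar fixes a point. -/

namespace SGL

open Matrix
open scoped MatrixGroups LinearAlgebra.Projectivization

variable {F : Type} [Field F]

/-- Norm surjectivity: if `σ` has order `m` and `σ c = c`, `c ≠ 0`, then `c` is the product of
`σ^i a` over `i < m` for some `a`. (Mathlib: `FiniteField.norm_surjective` for the extension of `F`
over the fixed field of `σ`, `Algebra.norm_eq_prod_automorphisms`.) -/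
theorem norm_surj [Finite F] (σ : F ≃+* F) (c : F) (hc : c ≠ 0) (hσ : σ c = c) :
    ∃ a : F, a ≠ 0 ∧ c = ∏ i ∈ Finset.range (orderOf σ), (σ ^ i) a := by
  classical
  let H : Subgroup (RingAut F) := Subgroup.zpowers σ
  have hfinA : Finite (RingAut F) := (aut_finite : Finite (F ≃+* F))
  have hfinH : Finite H := inferInstance
  have := Fintype.ofFinite H
  have hcK : c ∈ FixedPoints.subfield H F := by
    rintro ⟨τ, hτ⟩
    change τ c = c
    obtain ⟨k, rfl⟩ := Subgroup.mem_zpowers_iff.1 hτ
    have h1 : σ ∈ MulAction.stabilizer (RingAut F) c := hσ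
    exact Subgroup.zpow_mem _ h1 k
  obtain ⟨a, ha⟩ := FiniteField.norm_surjective (FixedPoints.subfield H F) F ⟨c, hcK⟩
  have hgal : IsGalois (FixedPoints.subfield H F) F := { }
  have h2 := Algebra.norm_eq_prod_automorphisms (K := FixedPoints.subfield H F) (L := F) a
  rw [ha] at h2
  have h3 : (∏ τ : (F ≃ₐ[FixedPoints.subfield H F] F), τ a) = ∏ τ : H, (τ : RingAut F) a :=
    (Fintype.prod_equiv (FixedPoints.toAlgAutMulEquiv H F).toEquiv _ _ (fun _ => rfl)).symm
  have h4 : (∏ τ : H, (τ : RingAut F) a) = ∏ i ∈ Finset.range (orderOf σ), (σ ^ i) a := by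
    rw [Finset.prod_range]
    exact (Fintype.prod_equiv (finEquivZPowers (isOfFinOrder_of_finite σ)) _ _
      (fun _ => rfl)).symm
  have h5 : c = ∏ i ∈ Finset.range (orderOf σ), (σ ^ i) a := by
    rw [← h4, ← h3]
    exact h2
  refine ⟨a, ?_, h5⟩
  rintro rfl
  apply hc
  rw [h5]
  have hpos : 0 < orderOf σ := (isOfFinOrder_of_finite σ).orderOf_pos
  exact Finset.prod_eq_zero (Finset.mem_range.2 hpos) (map_zero _)

/-- Dedekind independence of `1, σ, …, σ^(m-1)`. -/
theorem dedekind_indep [Finite F] (σ : F ≃+* F) (b : ℕ → F) (hb : b 0 ≠ 0) :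
    ∃ l : F, ∑ i ∈ Finset.range (orderOf σ), b i * (σ ^ i) l ≠ 0 := by
  by_contra hcon
  push Not at hcon
  have hfin : IsOfFinOrder σ := isOfFinOrder_of_finite σ
  have hpos : 0 < orderOf σ := hfin.orderOf_pos
  let e : Fin (orderOf σ) → (F →* F) := fun i => ((σ ^ (i : ℕ) : F ≃+* F) : F →* F)
  have hinj : Function.Injective e := by
    intro i j hij
    have h1 : σ ^ (i : ℕ) = σ ^ (j : ℕ) := by
      apply RingEquiv.ext
      intro x
      exact DFunLike.congr_fun hij x
    exact Fin.ext (pow_injOn_Iio_orderOf (Set.mem_Iio.2 i.2) (Set.mem_Iio.2 j.2) h1)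
  have hli := (linearIndependent_monoidHom F F).comp e hinj
  rw [Fintype.linearIndependent_iff] at hli
  have h2 := hli (fun i => b i) (by
    ext l
    have h3 := hcon l
    rw [Finset.sum_range] at h3
    rw [Finset.sum_apply]
    simpa [e] using h3) ⟨0, hpos⟩
  exact hb h2

/-- Hilbert 90 type statement: if `g ^ m` acts trivially on the projective line, `m` the order of
the field automorphism of `g`, then `g` fixes a point. Proof: `g ^ m` is the scalar `c`, `σ c = c`,
`c` is the norm of `a`; `f = a⁻¹ g` satisfies `f ^ m = 1`; the vector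
`∑ f^i (l u) = ∑ σ^i(l) f^i u` is nonzero for some `l` (apply `dedekind_indep` to a nonzero
coordinate of `u`) and is fixed by `f`, so its line is fixed by `g`. -/
theorem classify_scalar [Finite F] (g : GamL F)
    (h : toPerm F (g ^ orderOf g.right) = 1) :
    ∃ p : ℙ F (Fin 2 → F), toPerm F g p = p := by
  set σ : F ≃+* F := g.right with hσdef
  set m : ℕ := orderOf σ with hm
  obtain ⟨hr, c, hc⟩ := (toPerm_eq_one_iff _).1 h
  have hM := mat_det_ne_zero g
  have hc0 : c ≠ 0 := by
    intro h0
    have h1 := mat_det_ne_zero (g ^ m)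
    rw [hc, h0, zero_smul] at h1
    apply h1
    simp
  -- `σ c = c`
  have hσc : σ c = c := by
    have h1 : mat (g * g ^ m) = mat (g ^ m * g) := by rw [← pow_succ', pow_succ]
    rw [mat_mul, mat_mul, hr, hc] at h1
    have h2 : ((c • (1 : Matrix (Fin 2) (Fin 2) F)).map g.right) =
        σ c • (1 : Matrix (Fin 2) (Fin 2) F) := by
      ext i j
      simp only [Matrix.map_apply, Matrix.smul_apply, smul_eq_mul, map_mul, Matrix.one_apply]
      split_ifs <;> simp [hσdef]
    rw [h2, Matrix.mul_smul, Matrix.mul_one, Matrix.smul_mul, Matrix.one_mul] at h1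
    have h3 : (mat g).map (1 : F ≃+* F) = mat g := by
      ext i j; rfl
    rw [h3] at h1
    have h4 : (σ c - c) • mat g = 0 := by rw [sub_smul, h1, sub_self]
    rcases smul_eq_zero.1 h4 with h5 | h5
    · exact sub_eq_zero.1 h5
    · exfalso
      apply hM
      rw [h5]
      simp
  obtain ⟨a, ha0, ha⟩ := norm_surj σ c hc0 hσc
  -- `P i = ∏_{j<i} (σ^j a)⁻¹`
  set P : ℕ → F := fun i => ∏ j ∈ Finset.range i, ((σ ^ j) a)⁻¹ with hP
  set u : Fin 2 → F := ![1, 0] with hu
  have hPs : ∀ i, P (i + 1) = a⁻¹ * σ (P i) := by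
    intro i
    simp only [hP]
    rw [Finset.prod_range_succ', pow_zero, map_prod, mul_comm]
    congr 1
    refine Finset.prod_congr rfl (fun j _ => ?_)
    rw [map_inv₀, pow_succ']
    rfl
  obtain ⟨l, hl⟩ := dedekind_indep σ (fun i => P i * (act (g ^ i) u) 0) (by
    simp [hP, hu])
  set w : Fin 2 → F := ∑ i ∈ Finset.range m, ((σ ^ i) l * P i) • act (g ^ i) u with hw
  have hw0 : w ≠ 0 := by
    intro h0
    apply hl
    have h1 := congrFun h0 0
    rw [hw, Finset.sum_apply] at h1
    rw [← hm]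
    rw [← (show (0 : Fin 2 → F) 0 = 0 from rfl), ← h1]
    refine Finset.sum_congr rfl (fun i _ => ?_)
    simp only [Pi.smul_apply, smul_eq_mul]
    ring
  have hact_sum : ∀ (n : ℕ) (f : ℕ → Fin 2 → F),
      act g (∑ i ∈ Finset.range n, f i) = ∑ i ∈ Finset.range n, act g (f i) := by
    intro n f
    induction n with
    | zero => simp
    | succ n ih => rw [Finset.sum_range_succ, Finset.sum_range_succ, act_add, ih]
  -- `a⁻¹ • act g w = w`
  set t : ℕ → Fin 2 → F := fun i => ((σ ^ i) l * P i) • act (g ^ i) u with ht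
  have hstep : ∀ i, a⁻¹ • act g (t i) = t (i + 1) := by
    intro i
    simp only [ht]
    rw [act_smul, smul_smul, hPs, pow_succ' g, act_mul]
    congr 1
    rw [← hσdef, map_mul, pow_succ' σ]
    change _ = σ ((σ ^ i) l) * _
    ring
  have htm : t m = t 0 := by
    simp only [ht]
    have h1 : σ ^ m = 1 := pow_orderOf_eq_one σ
    have h2 : P m = c⁻¹ := by
      simp only [hP]
      rw [ha, Finset.prod_inv_distrib]
    have h3 : act (g ^ m) u = c • u := by
      rw [act_def, hr, hc, Matrix.smul_mulVec, Matrix.one_mulVec]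
      rfl
    rw [h1, h2, h3, pow_zero, pow_zero, act_one, smul_smul]
    congr 1
    have h4 : P 0 = 1 := by simp [hP]
    rw [h4]
    change l * c⁻¹ * c = l * 1
    field_simp
  have hfix : a⁻¹ • act g w = w := by
    have h1 : w = ∑ i ∈ Finset.range m, t i := rfl
    rw [h1, hact_sum, Finset.smul_sum, Finset.sum_congr rfl (fun i _ => hstep i)]
    have h2 := Finset.sum_range_succ t m
    have h3 := Finset.sum_range_succ' t m
    rw [h2, htm] at h3
    exact (add_right_cancel h3).symm
  refine ⟨Projectivization.mk F w hw0, ?_⟩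
  rw [toPerm_mk_eq_iff]
  refine ⟨a, ?_⟩
  rw [← hfix, smul_smul]
  rw [hfix]
  rw [mul_inv_cancel₀ ha0, one_smul]

end SGL
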