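import Pool.Agent.SGL.Defs
import Pool.Agent.SGL.M08
import Pool.Agent.SGL.M09

/-! Every semilinear map fixes a point or commutes with a regular semisimple matrix. -/

namespace SGL

open Matrix
open scoped MatrixGroups LinearAlgebra.Projectivization

variable {F : Type} [Field F]

theorem classify [Finite F] (g : GamL F) :
    (∃ p : ℙ F (Fin 2 → F), toPerm F g p = p) ∨
    (∃ X : Matrix (Fin 2) (Fin 2) F, X.det ≠ 0 ∧ disc X ≠ 0 ∧
      mat g * X.map g.right = X * mat g) := by
  have hr : (g ^ orderOf g.right).right = 1 := by
    have h1 := map_pow (SemidirectProduct.rightHom (φ := galAct F)) g (orderOf g.right)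
    rw [SemidirectProduct.rightHom_eq_right] at h1
    rw [h1, pow_orderOf_eq_one]
  by_cases h : toPerm F (g ^ orderOf g.right) = 1
  · exact Or.inl (classify_scalar g h)
  · exact classify_nonscalar g _ hr h

theorem mem_normX_of_comm {X : Matrix (Fin 2) (Fin 2) F} {g : GamL F}
    (h : mat g * X.map g.right = X * mat g) : g ∈ normX X :=
  ⟨0, 1, by simpa using h⟩

end SGL
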