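import Pool.Agent.SGL.Defs
import Pool.Agent.SGL.M02

/-! An element of `GL₂` normalising `F[X]` and fixing a given point. -/

namespace SGL

open Matrix
open scoped MatrixGroups LinearAlgebra.Projectivization

variable {F : Type} [Field F]

private theorem m11_CH (X : Matrix (Fin 2) (Fin 2) F) (v : Fin 2 → F) :
    X *ᵥ (X *ᵥ v) = X.trace • (X *ᵥ v) - X.det • v := by
  ext i
  fin_cases i <;>
  · simp [Matrix.mulVec, dotProduct, Fin.sum_univ_two, Matrix.trace, Matrix.det_fin_two]
    ring

/-- If `v` is not an eigenvector of `X` let `z v = v`, `z (X v) = (t - X) v`, `t = tr X`; if `v` is an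
eigenvector take `z = X`. -/
theorem exists_norm_fix (X : Matrix (Fin 2) (Fin 2) F) (hX : X.det ≠ 0) (hd : disc X ≠ 0)
    (p : ℙ F (Fin 2 → F)) :
    ∃ z : GL (Fin 2) F, toPerm F (ofGL z) ≠ 1 ∧ ofGL z ∈ normX X ∧ toPerm F (ofGL z) p = p := by
  have hns : ∀ c : F, X ≠ c • (1 : Matrix (Fin 2) (Fin 2) F) := by
    intro c hc
    apply hd
    rw [hc, disc]
    simp [Matrix.trace, Matrix.det_fin_two, Fin.sum_univ_two]
    ring
  induction p using Projectivization.ind with | _ v hv =>
  set u := X *ᵥ v with hu
  -- the determinant of (v, u)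
  by_cases he : v 0 * u 1 - v 1 * u 0 = 0
  · -- `v` is an eigenvector
    refine ⟨Matrix.GeneralLinearGroup.mkOfDetNeZero X hX, ?_, ?_, ?_⟩
    · intro h
      rw [toPerm_eq_one_iff] at h
      obtain ⟨_, c, hc⟩ := h
      exact hns c hc
    · rw [mem_normX]
      refine ⟨0, 1, ?_⟩
      rw [right_ofGL, mat_ofGL]
      simp only [zero_smul, one_smul, zero_add]
      rfl
    · rw [toPerm_mk_eq_iff]
      change ∃ c : F, c • v = X *ᵥ v
      rw [← hu]
      have hv' : v 0 ≠ 0 ∨ v 1 ≠ 0 := by
        by_contra hcon
        push Not at hcon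
        apply hv
        ext i
        fin_cases i
        · exact hcon.1
        · exact hcon.2
      rcases hv' with h0 | h1
      · refine ⟨u 0 / v 0, ?_⟩
        ext i
        fin_cases i
        · simp [h0]
        · simp
          field_simp
          linear_combination -he
      · refine ⟨u 1 / v 1, ?_⟩
        ext i
        fin_cases i
        · simp
          field_simp
          linear_combination he
        · simp [h1]
  · -- generic case
    set e : F := v 0 * u 1 - v 1 * u 0 with hedef
    set t : F := X.trace with ht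
    -- `z = (v, t v - u) (v, u)⁻¹`
    set z : Matrix (Fin 2) (Fin 2) F := e⁻¹ • (!![v 0, t * v 0 - u 0; v 1, t * v 1 - u 1] *
      !![u 1, -u 0; -v 1, v 0]) with hz
    have hzv : z *ᵥ v = v := by
      rw [hz]
      ext i
      fin_cases i <;>
      · simp [Matrix.mulVec, dotProduct, Fin.sum_univ_two, Matrix.mul_apply]
        field_simp
        rw [hedef]
        ring
    have hzu : z *ᵥ u = t • v - u := by
      rw [hz]
      ext i
      fin_cases i <;>
      · simp [Matrix.mulVec, dotProduct, Fin.sum_univ_two, Matrix.mul_apply]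
        field_simp
        rw [hedef]
        ring
    have hdet : z.det = -1 := by
      rw [hz, Matrix.det_smul, Matrix.det_mul, Matrix.det_fin_two_of, Matrix.det_fin_two_of]
      simp only [Fintype.card_fin]
      field_simp
      rw [hedef]
      ring
    have hzX : z * X = (t • (1 : Matrix (Fin 2) (Fin 2) F) - X) * z := by
      -- compare on the basis `v, u`
      have h1 : (z * X) *ᵥ v = ((t • (1 : Matrix (Fin 2) (Fin 2) F) - X) * z) *ᵥ v := by
        rw [← Matrix.mulVec_mulVec, ← Matrix.mulVec_mulVec, hzv, ← hu, hzu, Matrix.sub_mulVec,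
          Matrix.smul_mulVec, Matrix.one_mulVec]
      have h2 : (z * X) *ᵥ u = ((t • (1 : Matrix (Fin 2) (Fin 2) F) - X) * z) *ᵥ u := by
        rw [← Matrix.mulVec_mulVec, ← Matrix.mulVec_mulVec, hzu, hu, m11_CH, Matrix.mulVec_sub,
          Matrix.mulVec_smul, Matrix.mulVec_smul, hzv, ← hu, hzu, Matrix.sub_mulVec,
          Matrix.smul_mulVec, Matrix.one_mulVec, Matrix.mulVec_sub, Matrix.mulVec_smul, ← hu,
          hu, m11_CH, ← hu]
        ext i
        simp
        ring
      set A := z * X - (t • (1 : Matrix (Fin 2) (Fin 2) F) - X) * z with hA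
      have h1' : A *ᵥ v = 0 := by rw [hA, Matrix.sub_mulVec, h1, sub_self]
      have h2' : A *ᵥ u = 0 := by rw [hA, Matrix.sub_mulVec, h2, sub_self]
      have h3 : A * !![v 0, u 0; v 1, u 1] = 0 := by
        ext i j
        have e1 := congrFun h1' i
        have e2 := congrFun h2' i
        simp only [Matrix.mulVec, dotProduct, Fin.sum_univ_two, Pi.zero_apply] at e1 e2
        fin_cases j
        · simpa [Matrix.mul_apply, Fin.sum_univ_two] using e1
        · simpa [Matrix.mul_apply, Fin.sum_univ_two] using e2
      have h4 : IsUnit (!![v 0, u 0; v 1, u 1] : Matrix (Fin 2) (Fin 2) F) := by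
        rw [Matrix.isUnit_iff_isUnit_det, Matrix.det_fin_two_of]
        rw [isUnit_iff_ne_zero]
        intro h
        apply he
        rw [hedef]
        linear_combination h
      have h5 : A = 0 := by
        obtain ⟨w, hw⟩ := h4
        have : A * (w : Matrix (Fin 2) (Fin 2) F) * ((w⁻¹ : (Matrix (Fin 2) (Fin 2) F)ˣ) :
            Matrix (Fin 2) (Fin 2) F) = 0 := by
          rw [hw, h3, Matrix.zero_mul]
        rwa [Matrix.mul_assoc, Units.mul_inv, Matrix.mul_one] at this
      exact sub_eq_zero.1 h5
    refine ⟨Matrix.GeneralLinearGroup.mkOfDetNeZero z (by rw [hdet]; simp), ?_, ?_, ?_⟩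
    · intro h
      rw [toPerm_eq_one_iff] at h
      obtain ⟨_, c, hc⟩ := h
      have hc' : z = c • (1 : Matrix (Fin 2) (Fin 2) F) := hc
      -- then `c = 1` and `t v - u = u`, so `2 u = t v`, `det` ...
      have h6 : c • v = v := by
        rw [← hzv, hc', Matrix.smul_mulVec, Matrix.one_mulVec, smul_smul]
        have : c * c = c := by
          have h7 : c • v = v := by
            have := hzv
            rwa [hc', Matrix.smul_mulVec, Matrix.one_mulVec] at this
          have h8 : (c - 1) • v = 0 := by rw [sub_smul, h7, one_smul, sub_self]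
          rcases smul_eq_zero.1 h8 with h9 | h9
          · have : c = 1 := sub_eq_zero.1 h9
            rw [this, one_mul]
          · exact absurd h9 hv
        rw [this]
      have h7 : c = 1 := by
        have h8 : (c - 1) • v = 0 := by rw [sub_smul, h6, one_smul, sub_self]
        rcases smul_eq_zero.1 h8 with h9 | h9
        · exact sub_eq_zero.1 h9
        · exact absurd h9 hv
      rw [h7, one_smul] at hc'
      rw [hc', Matrix.one_mul, Matrix.mul_one] at hzX
      -- `2 X = t`
      apply hd
      have h8 : X + X = t • (1 : Matrix (Fin 2) (Fin 2) F) := by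
        nth_rewrite 1 [hzX]
        abel
      have a1 := congrFun (congrFun h8 0) 0
      have a2 := congrFun (congrFun h8 0) 1
      have a3 := congrFun (congrFun h8 1) 0
      have a4 := congrFun (congrFun h8 1) 1
      simp [ht, Matrix.trace, Fin.sum_univ_two] at a1 a2 a3 a4
      rw [disc]
      simp only [Matrix.trace, Fin.sum_univ_two, Matrix.det_fin_two, Matrix.diag_apply]
      linear_combination (X 0 0 - X 1 1) * a1 + (2 * X 1 0) * a2
    · rw [mem_normX]
      refine ⟨t, -1, ?_⟩
      rw [right_ofGL, mat_ofGL]
      change z * X = _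
      rw [hzX, neg_one_smul, sub_eq_add_neg]
      rfl
    · rw [toPerm_mk_eq_iff]
      refine ⟨1, ?_⟩
      rw [one_smul]
      exact hzv.symm

end SGL
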