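import Pool.Agent.SGL.Defs
import Pool.Agent.SGL.M02

/-! Two regular semisimple matrices: the commutator `W = XY - YX` normalises both algebras. -/

namespace SGL

open Matrix
open scoped MatrixGroups LinearAlgebra.Projectivization

variable {F : Type} [Field F]

/-- `W X = (tr X - X) W` and `W Y = (tr Y - Y) W` by Cayley-Hamilton. -/
theorem comm_twist (X Y : Matrix (Fin 2) (Fin 2) F) :
    (X * Y - Y * X) * X = (X.trace • (1 : Matrix (Fin 2) (Fin 2) F) - X) * (X * Y - Y * X) := by
  ext i j
  fin_cases i <;> fin_cases j <;>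
  · simp [Matrix.mul_apply, Fin.sum_univ_two, Matrix.trace]
    ring

/-- If `XY ≠ YX` and `det (XY - YX) ≠ 0` then `W` is a nontrivial element of both normalisers. -/
theorem exists_norm_norm (X Y : Matrix (Fin 2) (Fin 2) F) (hX : disc X ≠ 0) (hY : disc Y ≠ 0)
    (hW : (X * Y - Y * X).det ≠ 0) :
    ∃ z : GL (Fin 2) F, toPerm F (ofGL z) ≠ 1 ∧ ofGL z ∈ normX X ∧ ofGL z ∈ normX Y := by
  refine ⟨Matrix.GeneralLinearGroup.mkOfDetNeZero (X * Y - Y * X) hW, ?_, ?_, ?_⟩
  · intro h
    rw [toPerm_eq_one_iff] at h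
    obtain ⟨_, c, hc⟩ := h
    have hc' : X * Y - Y * X = c • (1 : Matrix (Fin 2) (Fin 2) F) := hc
    have hc0 : c ≠ 0 := by
      intro h0
      apply hW
      rw [hc', h0, zero_smul]
      simp
    have h1 := comm_twist X Y
    rw [hc', Matrix.smul_mul, Matrix.mul_smul, Matrix.one_mul, Matrix.mul_one] at h1
    have h2 : X = X.trace • (1 : Matrix (Fin 2) (Fin 2) F) - X := smul_right_injective _ hc0 h1
    apply hX
    have h8 : X + X = X.trace • (1 : Matrix (Fin 2) (Fin 2) F) := by
      nth_rewrite 1 [h2]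
      abel
    have a1 := congrFun (congrFun h8 0) 0
    have a2 := congrFun (congrFun h8 0) 1
    simp [Matrix.trace, Fin.sum_univ_two] at a1 a2
    rw [disc]
    simp only [Matrix.trace, Fin.sum_univ_two, Matrix.det_fin_two, Matrix.diag_apply]
    linear_combination (X 0 0 - X 1 1) * a1 + (2 * X 1 0) * a2
  · rw [mem_normX]
    refine ⟨X.trace, -1, ?_⟩
    rw [right_ofGL, mat_ofGL]
    change (X * Y - Y * X) * X = _
    rw [comm_twist, neg_one_smul, ← sub_eq_add_neg]
    rfl
  · rw [mem_normX]
    refine ⟨Y.trace, -1, ?_⟩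
    rw [right_ofGL, mat_ofGL]
    change (X * Y - Y * X) * Y = _
    have h1 := comm_twist Y X
    have h2 : X * Y - Y * X = -(Y * X - X * Y) := by abel
    rw [neg_one_smul, ← sub_eq_add_neg]
    change _ = _ * (X * Y - Y * X)
    rw [h2, Matrix.neg_mul, h1, Matrix.mul_neg]

/-- A matrix commuting with a nonscalar `2 × 2` matrix `X` is in `F[X]`. -/
theorem exists_lin_of_comm {X Y : Matrix (Fin 2) (Fin 2) F} (hX : disc X ≠ 0)
    (h : X * Y = Y * X) : ∃ a b : F, Y = a • (1 : Matrix (Fin 2) (Fin 2) F) + b • X := by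
  have h00 := congrFun (congrFun h 0) 0
  have h01 := congrFun (congrFun h 0) 1
  have h10 := congrFun (congrFun h 1) 0
  simp only [Matrix.mul_apply, Fin.sum_univ_two] at h00 h01 h10
  by_cases h1 : X 0 1 = 0
  · by_cases h2 : X 1 0 = 0
    · have h3 : X 0 0 - X 1 1 ≠ 0 := by
        intro h4
        apply hX
        rw [disc]
        simp only [Matrix.trace, Fin.sum_univ_two, Matrix.det_fin_two, Matrix.diag_apply]
        rw [h1]
        linear_combination (X 0 0 - X 1 1) * h4
      rw [h1] at h01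
      rw [h2] at h10
      have hy01 : Y 0 1 = 0 := by
        have : (X 0 0 - X 1 1) * Y 0 1 = 0 := by linear_combination h01
        exact (mul_eq_zero.1 this).resolve_left h3
      have hy10 : Y 1 0 = 0 := by
        have : (X 0 0 - X 1 1) * Y 1 0 = 0 := by linear_combination -h10
        exact (mul_eq_zero.1 this).resolve_left h3
      refine ⟨Y 0 0 - (Y 0 0 - Y 1 1) / (X 0 0 - X 1 1) * X 0 0,
        (Y 0 0 - Y 1 1) / (X 0 0 - X 1 1), ?_⟩
      ext i j
      fin_cases i <;> fin_cases j
      · simp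
      · simp [h1, hy01]
      · simp [h2, hy10]
      · simp
        field_simp
        ring
    · refine ⟨Y 0 0 - Y 1 0 / X 1 0 * X 0 0, Y 1 0 / X 1 0, ?_⟩
      ext i j
      fin_cases i <;> fin_cases j
      · simp
      · simp
        field_simp
        linear_combination -h00
      · simp [h2]
      · simp
        field_simp
        linear_combination -h10
  · refine ⟨Y 0 0 - Y 0 1 / X 0 1 * X 0 0, Y 0 1 / X 0 1, ?_⟩
    ext i j
    fin_cases i <;> fin_cases j
    · simp
    · simp [h1]
    · simp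
      field_simp
      linear_combination h00
    · simp
      field_simp
      linear_combination h01

private theorem m12_le {X Y : Matrix (Fin 2) (Fin 2) F} (hX : disc X ≠ 0) (hY : disc Y ≠ 0)
    (h : X * Y = Y * X) : normX X ≤ normX Y := by
  obtain ⟨a, b, hYX⟩ := exists_lin_of_comm hX h
  obtain ⟨a', b', hXY⟩ := exists_lin_of_comm hY h.symm
  intro g hg
  rw [mem_normX] at hg ⊢
  obtain ⟨r, s, hrs⟩ := hg
  have h1 : Y.map g.right = g.right a • (1 : Matrix (Fin 2) (Fin 2) F) +
      g.right b • X.map g.right := by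
    rw [hYX]
    ext i j
    simp only [Matrix.map_apply, Matrix.add_apply, Matrix.smul_apply, smul_eq_mul, map_add,
      map_mul, Matrix.one_apply]
    split_ifs <;> simp
  refine ⟨g.right a + g.right b * r + g.right b * s * a', g.right b * s * b', ?_⟩
  rw [h1, Matrix.mul_add, Matrix.mul_smul, Matrix.mul_smul, hrs, Matrix.mul_one]
  have h2 : (r • (1 : Matrix (Fin 2) (Fin 2) F) + s • X) =
      r • (1 : Matrix (Fin 2) (Fin 2) F) + s • (a' • (1 : Matrix (Fin 2) (Fin 2) F) + b' • Y) := by
    rw [← hXY]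
  rw [h2]
  simp only [Matrix.add_mul, Matrix.smul_mul, Matrix.one_mul, smul_add, smul_smul, add_smul]
  rw [mul_assoc (g.right b) s a', mul_assoc (g.right b) s b']
  abel

/-- If `XY = YX`, both regular semisimple, the normalisers agree. -/
theorem normX_eq_of_comm (X Y : Matrix (Fin 2) (Fin 2) F) (hX : disc X ≠ 0) (hY : disc Y ≠ 0)
    (h : X * Y = Y * X) : normX X = normX Y :=
  le_antisymm (m12_le hX hY h) (m12_le hY hX h.symm)

end SGL
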