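import Pool.Agent.SGL.Defs
import Pool.Agent.SGL.M02
import Pool.Agent.SGL.M12

/-! The degenerate case `det (XY - YX) = 0`, `XY ≠ YX`. -/

namespace SGL

open Matrix
open scoped MatrixGroups LinearAlgebra.Projectivization

variable {F : Type} [Field F]

private theorem m13_par (v u : Fin 2 → F) (hv : v ≠ 0) (h : v 0 * u 1 = v 1 * u 0) :
    ∃ t : F, u = t • v := by
  by_cases h0 : v 0 = 0
  · have h1 : v 1 ≠ 0 := by
      intro h1
      apply hv
      ext i
      fin_cases i
      · exact h0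
      · exact h1
    refine ⟨u 1 / v 1, ?_⟩
    rw [h0, zero_mul] at h
    have h2 : u 0 = 0 := by
      rcases mul_eq_zero.1 h.symm with h3 | h3
      · exact absurd h3 h1
      · exact h3
    ext i
    fin_cases i
    · show u 0 = u 1 / v 1 * v 0
      rw [h0, h2, mul_zero]
    · show u 1 = u 1 / v 1 * v 1
      field_simp
  · refine ⟨u 0 / v 0, ?_⟩
    ext i
    fin_cases i
    · show u 0 = u 0 / v 0 * v 0
      field_simp
    · show u 1 = u 0 / v 0 * v 1
      field_simp
      linear_combination h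

private theorem m13_mulVec (W : Matrix (Fin 2) (Fin 2) F) (v : Fin 2 → F) (i : Fin 2) :
    (W *ᵥ v) i = W i 0 * v 0 + W i 1 * v 1 := by
  simp [Matrix.mulVec, dotProduct, Fin.sum_univ_two]

private theorem m13_ker (W : Matrix (Fin 2) (Fin 2) F) (hW : W ≠ 0) (v u : Fin 2 → F)
    (hv : v ≠ 0) (h1 : W *ᵥ v = 0) (h2 : W *ᵥ u = 0) : ∃ t : F, u = t • v := by
  apply m13_par v u hv
  by_contra hne
  apply hW
  have hd : v 0 * u 1 - v 1 * u 0 ≠ 0 := sub_ne_zero.2 hne
  have e1 : ∀ i, W i 0 * v 0 + W i 1 * v 1 = 0 := fun i => by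
    rw [← m13_mulVec, h1]; rfl
  have e2 : ∀ i, W i 0 * u 0 + W i 1 * u 1 = 0 := fun i => by
    rw [← m13_mulVec, h2]; rfl
  have f0 : ∀ i, W i 0 = 0 := by
    intro i
    have : (v 0 * u 1 - v 1 * u 0) * W i 0 = 0 := by
      linear_combination u 1 * e1 i - v 1 * e2 i
    exact (mul_eq_zero.1 this).resolve_left hd
  have f1 : ∀ i, W i 1 = 0 := by
    intro i
    have : (v 0 * u 1 - v 1 * u 0) * W i 1 = 0 := by
      linear_combination v 0 * e2 i - u 0 * e1 i
    exact (mul_eq_zero.1 this).resolve_left hd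
  ext i j
  fin_cases j
  · exact f0 i
  · exact f1 i

/-- A regular semisimple matrix with an eigenvector `v` has a second eigenvector. -/
private theorem m13_second (X : Matrix (Fin 2) (Fin 2) F) (hX : disc X ≠ 0) (v : Fin 2 → F)
    (hv : v ≠ 0) (a : F) (h : X *ᵥ v = a • v) :
    ∃ (b : F) (u : Fin 2 → F), a ≠ b ∧ X *ᵥ u = b • u ∧ v 0 * u 1 - v 1 * u 0 ≠ 0 := by
  have hdet : (X - a • (1 : Matrix (Fin 2) (Fin 2) F)).det = 0 := by
    rw [← Matrix.exists_mulVec_eq_zero_iff]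
    refine ⟨v, hv, ?_⟩
    rw [Matrix.sub_mulVec, h, Matrix.smul_mulVec, Matrix.one_mulVec, sub_self]
  have hdet' : (X 0 0 - a) * (X 1 1 - a) - X 0 1 * X 1 0 = 0 := by
    rw [Matrix.det_fin_two] at hdet
    simpa using hdet
  have hdb : (X - (X.trace - a) • (1 : Matrix (Fin 2) (Fin 2) F)).det = 0 := by
    rw [Matrix.det_fin_two, Matrix.trace_fin_two]
    simp only [Matrix.sub_apply, Matrix.smul_apply, Matrix.one_apply, smul_eq_mul]
    simp
    linear_combination hdet'
  obtain ⟨u, hu, hu'⟩ := Matrix.exists_mulVec_eq_zero_iff.2 hdb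
  have hab : a ≠ X.trace - a := by
    intro hab
    apply hX
    unfold disc
    rw [Matrix.trace_fin_two] at hab ⊢
    rw [Matrix.det_fin_two]
    have h2 : X 0 0 + X 1 1 = a + a := by linear_combination -hab
    linear_combination (X 0 0 + X 1 1 + (a + a)) * h2 - 4 * hdet' - 4 * a * h2
  have hXu : X *ᵥ u = (X.trace - a) • u := by
    rw [Matrix.sub_mulVec, Matrix.smul_mulVec, Matrix.one_mulVec, sub_eq_zero] at hu'
    exact hu'
  refine ⟨X.trace - a, u, hab, hXu, ?_⟩
  intro hd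
  obtain ⟨t, ht⟩ := m13_par v u hv (by linear_combination hd)
  apply hab
  have h3 : a • u = (X.trace - a) • u := by
    rw [← hXu, ht, Matrix.mulVec_smul, h, smul_comm]
  have h4 : (a - (X.trace - a)) • u = 0 := by rw [sub_smul, h3, sub_self]
  rcases smul_eq_zero.1 h4 with h5 | h5
  · exact sub_eq_zero.1 h5
  · exact absurd h5 hu

/-- If `XY ≠ YX` and `det (XY - YX) = 0`, there is a basis (the columns of `P`) such that the first
basis vector is an eigenvector of both `X` and `Y`, the second one an eigenvector of `X` and the sum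
of the two an eigenvector of `Y`. (`W = XY - YX` has trace and determinant zero, so `W² = 0`; its
kernel is a common eigenline by `comm_twist`; as the eigenvalue of `X` on it is in `F` and
`disc X ≠ 0`, `X` has another eigenline; same for `Y`; the two other eigenlines differ since
`XY ≠ YX`.) -/
theorem degenerate_frame (X Y : Matrix (Fin 2) (Fin 2) F) (hX : disc X ≠ 0) (hY : disc Y ≠ 0)
    (hne : X * Y ≠ Y * X) (hW : (X * Y - Y * X).det = 0) :
    ∃ (P : GL (Fin 2) F) (a b c d : F), a ≠ b ∧ c ≠ d ∧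
      X * (P : Matrix (Fin 2) (Fin 2) F) = P * !![a, 0; 0, b] ∧
      Y * (P : Matrix (Fin 2) (Fin 2) F) = P * !![c, d - c; 0, d] := by
  obtain ⟨v, hv, hWv⟩ := Matrix.exists_mulVec_eq_zero_iff.2 hW
  have hW0 : X * Y - Y * X ≠ 0 := sub_ne_zero.2 hne
  have hWX : (X * Y - Y * X) *ᵥ (X *ᵥ v) = 0 := by
    rw [Matrix.mulVec_mulVec, comm_twist, ← Matrix.mulVec_mulVec, hWv, Matrix.mulVec_zero]
  have hWY : (X * Y - Y * X) *ᵥ (Y *ᵥ v) = 0 := by
    have h1 := comm_twist Y X
    have h2 : (X * Y - Y * X) * Y =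
        (Y.trace • (1 : Matrix (Fin 2) (Fin 2) F) - Y) * (X * Y - Y * X) := by
      have h3 : X * Y - Y * X = -(Y * X - X * Y) := by abel
      rw [h3, Matrix.neg_mul, h1, Matrix.mul_neg]
    rw [Matrix.mulVec_mulVec, h2, ← Matrix.mulVec_mulVec, hWv, Matrix.mulVec_zero]
  obtain ⟨a, ha⟩ := m13_ker _ hW0 v _ hv hWv hWX
  obtain ⟨c, hc⟩ := m13_ker _ hW0 v _ hv hWv hWY
  obtain ⟨b, u, hab, hu, hvu⟩ := m13_second X hX v hv a ha
  obtain ⟨d, w, hcd, hw, hvw⟩ := m13_second Y hY v hv c hc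
  have hmulu : v 0 * u 1 - v 1 * u 0 ≠ 0 := hvu
  have hwα : w 0 * u 1 - w 1 * u 0 ≠ 0 := by
    intro h0
    have hu0 : u ≠ 0 := by
      intro h
      apply hvu
      rw [h]
      simp
    obtain ⟨t, ht⟩ := m13_par u w hu0 (by linear_combination -h0)
    have ht0 : t ≠ 0 := by
      intro h
      apply hvw
      rw [ht, h]
      simp
    have hYu : Y *ᵥ u = d • u := by
      have h1 : t • (Y *ᵥ u) = t • (d • u) := by
        rw [← Matrix.mulVec_smul, ← ht, hw, ht, smul_comm]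
      exact smul_right_injective _ ht0 h1
    have hWu : (X * Y - Y * X) *ᵥ u = 0 := by
      rw [Matrix.sub_mulVec, ← Matrix.mulVec_mulVec, ← Matrix.mulVec_mulVec, hYu, hu,
        Matrix.mulVec_smul, Matrix.mulVec_smul, hu, hYu, smul_comm, sub_self]
    obtain ⟨s, hs⟩ := m13_ker _ hW0 v u hv hWv hWu
    apply hvu
    rw [hs]
    simp only [Pi.smul_apply, smul_eq_mul]
    ring
  set Δ := v 0 * u 1 - v 1 * u 0 with hΔ
  set α := (w 0 * u 1 - w 1 * u 0) / Δ with hα
  set β := (v 0 * w 1 - v 1 * w 0) / Δ with hβ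
  have hα0 : α ≠ 0 := div_ne_zero hwα hvu
  have hβ0 : β ≠ 0 := div_ne_zero hvw hvu
  have hw0 : w 0 = α * v 0 + β * u 0 := by
    rw [hα, hβ]
    field_simp
    rw [hΔ]
    ring
  have hw1 : w 1 = α * v 1 + β * u 1 := by
    rw [hα, hβ]
    field_simp
    rw [hΔ]
    ring
  have hdet : (!![α * v 0, β * u 0; α * v 1, β * u 1] : Matrix (Fin 2) (Fin 2) F).det ≠ 0 := by
    rw [Matrix.det_fin_two_of]
    have : α * v 0 * (β * u 1) - β * u 0 * (α * v 1) = α * β * Δ := by
      rw [hΔ]; ring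
    rw [this]
    exact mul_ne_zero (mul_ne_zero hα0 hβ0) hvu
  have xv : ∀ i, X i 0 * v 0 + X i 1 * v 1 = a * v i := fun i => by
    rw [← m13_mulVec, ha]; rfl
  have xu : ∀ i, X i 0 * u 0 + X i 1 * u 1 = b * u i := fun i => by
    rw [← m13_mulVec, hu]; rfl
  have yv : ∀ i, Y i 0 * v 0 + Y i 1 * v 1 = c * v i := fun i => by
    rw [← m13_mulVec, hc]; rfl
  have yw : ∀ i, Y i 0 * w 0 + Y i 1 * w 1 = d * w i := fun i => by
    rw [← m13_mulVec, hw]; rfl
  have hwi : ∀ i, w i = α * v i + β * u i := by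
    intro i
    fin_cases i
    · exact hw0
    · exact hw1
  refine ⟨Matrix.GeneralLinearGroup.mkOfDetNeZero _ hdet, a, b, c, d, hab, hcd, ?_, ?_⟩
  · have hP : ((Matrix.GeneralLinearGroup.mkOfDetNeZero _ hdet : GL (Fin 2) F) :
        Matrix (Fin 2) (Fin 2) F) = !![α * v 0, β * u 0; α * v 1, β * u 1] := rfl
    rw [hP]
    ext i j
    fin_cases i <;> fin_cases j <;>
      simp only [Matrix.mul_apply, Fin.sum_univ_two, Matrix.of_apply, Matrix.cons_val',
        Matrix.cons_val_zero, Matrix.cons_val_one, Matrix.cons_val_fin_one, Fin.zero_eta,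
        Fin.mk_one, Fin.isValue]
    · linear_combination α * xv 0
    · linear_combination β * xu 0
    · linear_combination α * xv 1
    · linear_combination β * xu 1
  · have hP : ((Matrix.GeneralLinearGroup.mkOfDetNeZero _ hdet : GL (Fin 2) F) :
        Matrix (Fin 2) (Fin 2) F) = !![α * v 0, β * u 0; α * v 1, β * u 1] := rfl
    rw [hP]
    have yu : ∀ i, β * (Y i 0 * u 0 + Y i 1 * u 1) = d * (α * v i + β * u i) - α * (c * v i) := by
      intro i
      have h1 := yw i
      rw [hw0, hw1, hwi i] at h1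
      linear_combination h1 - α * yv i
    ext i j
    fin_cases i <;> fin_cases j <;>
      simp only [Matrix.mul_apply, Fin.sum_univ_two, Matrix.of_apply, Matrix.cons_val',
        Matrix.cons_val_zero, Matrix.cons_val_one, Matrix.cons_val_fin_one, Fin.zero_eta,
        Fin.mk_one, Fin.isValue]
    · linear_combination α * yv 0
    · linear_combination yu 0
    · linear_combination α * yv 1
    · linear_combination yu 1

private theorem m13_norm (X D : Matrix (Fin 2) (Fin 2) F) (P : GL (Fin 2) F) (σ : F ≃+* F)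
    (hP : X * (P : Matrix (Fin 2) (Fin 2) F) = P * D) (s t : F)
    (hD : D.map σ = s • (1 : Matrix (Fin 2) (Fin 2) F) + t • D) (z : GamL F)
    (hz : z.right = σ) (hm : mat z = (P : Matrix (Fin 2) (Fin 2) F) *
      ((P⁻¹ : GL (Fin 2) F) : Matrix (Fin 2) (Fin 2) F).map σ) : z ∈ normX X := by
  rw [mem_normX]
  refine ⟨s, t, ?_⟩
  rw [hz, hm]
  have h1 : ((P⁻¹ : GL (Fin 2) F) : Matrix (Fin 2) (Fin 2) F) * P = 1 := by
    rw [← Matrix.GeneralLinearGroup.coe_mul, inv_mul_cancel, Matrix.GeneralLinearGroup.coe_one]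
  have h2 : (P : Matrix (Fin 2) (Fin 2) F) * ((P⁻¹ : GL (Fin 2) F) : Matrix (Fin 2) (Fin 2) F) = 1 := by
    rw [← Matrix.GeneralLinearGroup.coe_mul, mul_inv_cancel, Matrix.GeneralLinearGroup.coe_one]
  set Q := ((P⁻¹ : GL (Fin 2) F) : Matrix (Fin 2) (Fin 2) F) with hQ
  have h3 : Q * X = D * Q := by
    calc Q * X = Q * X * (P * Q) := by rw [h2, Matrix.mul_one]
      _ = Q * (X * P) * Q := by simp only [Matrix.mul_assoc]
      _ = Q * P * D * Q := by rw [hP]; simp only [Matrix.mul_assoc]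
      _ = D * Q := by rw [h1, Matrix.one_mul]
  have h4 : Q.map σ * X.map σ = D.map σ * Q.map σ := by
    have := congrArg (fun M : Matrix (Fin 2) (Fin 2) F => M.map σ) h3
    simpa only [Matrix.map_mul] using this
  rw [Matrix.mul_assoc, h4, hD]
  simp only [Matrix.add_mul, Matrix.mul_add, Matrix.smul_mul, Matrix.mul_smul, Matrix.one_mul]
  rw [← Matrix.mul_assoc, ← Matrix.mul_assoc, hP]

/-- In the situation of `degenerate_frame`, let `x` be semilinear with `mat x * σ(X) = X * mat x`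
or `x ∈ normX X`, and `σ = x.right ≠ 1`. Then `z = P (1, σ) P⁻¹` is in `GL₂ · x`, is nontrivial on the
projective line, and normalises both algebras. -/
theorem exists_frame_galois (X Y : Matrix (Fin 2) (Fin 2) F) (hX : disc X ≠ 0) (hY : disc Y ≠ 0)
    (hne : X * Y ≠ Y * X) (hW : (X * Y - Y * X).det = 0) (σ : F ≃+* F) (hσ : σ ≠ 1) :
    ∃ z : GamL F, z.right = σ ∧ toPerm F z ≠ 1 ∧ z ∈ normX X ∧ z ∈ normX Y := by
  obtain ⟨P, a, b, c, d, hab, hcd, h1, h2⟩ := degenerate_frame X Y hX hY hne hW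
  let z : GamL F := ofGL P * SemidirectProduct.inr σ * ofGL P⁻¹
  have hz : z.right = σ := by
    show (ofGL P * SemidirectProduct.inr σ * ofGL P⁻¹).right = σ
    rw [right_mul, right_mul, right_ofGL, right_ofGL, mul_one, one_mul]
    rfl
  have hm : mat z = (P : Matrix (Fin 2) (Fin 2) F) *
      ((P⁻¹ : GL (Fin 2) F) : Matrix (Fin 2) (Fin 2) F).map σ := by
    show mat (ofGL P * SemidirectProduct.inr σ * ofGL P⁻¹) = _
    rw [mat_mul, mat_mul, right_mul, right_ofGL, one_mul]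
    have h3 : mat (SemidirectProduct.inr σ : GamL F) = 1 := rfl
    rw [h3]
    have h4 : ((1 : Matrix (Fin 2) (Fin 2) F).map (1 : F ≃+* F)) = 1 := by
      ext i j
      rfl
    rw [h4, Matrix.mul_one]
    rfl
  refine ⟨z, hz, ?_, ?_, ?_⟩
  · intro h
    rw [toPerm_eq_one_iff, hz] at h
    exact hσ h.1
  · have hab' : a - b ≠ 0 := sub_ne_zero.2 hab
    refine m13_norm X _ P σ h1 (σ a - (σ a - σ b) / (a - b) * a) ((σ a - σ b) / (a - b)) ?_ z hz hm
    ext i j
    fin_cases i <;> fin_cases j <;> simp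
    field_simp
    ring
  · have hcd' : d - c ≠ 0 := sub_ne_zero.2 hcd.symm
    refine m13_norm Y _ P σ h2 (σ c - (σ d - σ c) / (d - c) * c) ((σ d - σ c) / (d - c)) ?_ z hz hm
    ext i j
    fin_cases i <;> fin_cases j <;> simp
    · field_simp
    · field_simp
      ring

/-- The common eigenline of `X` and `Y`: a point fixed by every linear element commuting with `X`, and
by every linear element commuting with `Y`. -/
theorem degenerate_point (X Y : Matrix (Fin 2) (Fin 2) F) (hX : disc X ≠ 0) (hY : disc Y ≠ 0)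
    (hne : X * Y ≠ Y * X) (hW : (X * Y - Y * X).det = 0) :
    ∃ p : ℙ F (Fin 2 → F), ∀ g : GamL F, g.right = 1 →
      (mat g * X = X * mat g ∨ mat g * Y = Y * mat g) → toPerm F g p = p := by
  obtain ⟨P, a, b, c, d, hab, hcd, h1, h2⟩ := degenerate_frame X Y hX hY hne hW
  have h3 : ((P⁻¹ : GL (Fin 2) F) : Matrix (Fin 2) (Fin 2) F) * P = 1 := by
    rw [← Matrix.GeneralLinearGroup.coe_mul, inv_mul_cancel, Matrix.GeneralLinearGroup.coe_one]
  let v : Fin 2 → F := (P : Matrix (Fin 2) (Fin 2) F) *ᵥ ![1, 0]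
  have hv : v ≠ 0 := by
    intro hv
    have h4 : ((P⁻¹ : GL (Fin 2) F) : Matrix (Fin 2) (Fin 2) F) *ᵥ v = 0 := by
      rw [hv, Matrix.mulVec_zero]
    rw [Matrix.mulVec_mulVec, h3, Matrix.one_mulVec] at h4
    have h5 := congrFun h4 0
    simp at h5
  have hXv : X *ᵥ v = a • v := by
    show X *ᵥ ((P : Matrix (Fin 2) (Fin 2) F) *ᵥ ![1, 0]) = _
    rw [Matrix.mulVec_mulVec, h1, ← Matrix.mulVec_mulVec]
    have : (!![a, 0; 0, b] : Matrix (Fin 2) (Fin 2) F) *ᵥ ![1, 0] = a • ![1, 0] := by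
      ext i
      fin_cases i <;> simp [Matrix.mulVec, dotProduct, Fin.sum_univ_two]
    rw [this, Matrix.mulVec_smul]
  have hYv : Y *ᵥ v = c • v := by
    show Y *ᵥ ((P : Matrix (Fin 2) (Fin 2) F) *ᵥ ![1, 0]) = _
    rw [Matrix.mulVec_mulVec, h2, ← Matrix.mulVec_mulVec]
    have : (!![c, d - c; 0, d] : Matrix (Fin 2) (Fin 2) F) *ᵥ ![1, 0] = c • ![1, 0] := by
      ext i
      fin_cases i <;> simp [Matrix.mulVec, dotProduct, Fin.sum_univ_two]
    rw [this, Matrix.mulVec_smul]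
  have key : ∀ (Z : Matrix (Fin 2) (Fin 2) F) (r : F), disc Z ≠ 0 → Z *ᵥ v = r • v →
      ∀ g : GamL F, g.right = 1 → mat g * Z = Z * mat g → ∃ t : F, t • v = act g v := by
    intro Z r hZ hZv g hg hgZ
    have hact : act g v = mat g *ᵥ v := by
      unfold act
      rw [hg]
      rfl
    have hne0 : Z - r • (1 : Matrix (Fin 2) (Fin 2) F) ≠ 0 := by
      intro h0
      apply hZ
      rw [sub_eq_zero.1 h0]
      unfold disc
      rw [Matrix.trace_fin_two, Matrix.det_fin_two]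
      simp
      ring
    have e1 : (Z - r • (1 : Matrix (Fin 2) (Fin 2) F)) *ᵥ v = 0 := by
      rw [Matrix.sub_mulVec, Matrix.smul_mulVec, Matrix.one_mulVec, hZv, sub_self]
    have e2 : (Z - r • (1 : Matrix (Fin 2) (Fin 2) F)) *ᵥ (act g v) = 0 := by
      rw [hact, Matrix.sub_mulVec, Matrix.smul_mulVec, Matrix.one_mulVec, Matrix.mulVec_mulVec,
        ← hgZ, ← Matrix.mulVec_mulVec, hZv, Matrix.mulVec_smul, sub_self]
    obtain ⟨t, ht⟩ := m13_ker _ hne0 v _ hv e1 e2
    exact ⟨t, ht.symm⟩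
  refine ⟨Projectivization.mk F v hv, fun g hg hor => ?_⟩
  rw [toPerm_mk_eq_iff]
  rcases hor with h | h
  · exact key X a hX hXv g hg h
  · exact key Y c hY hYv g hg h

end SGL
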