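import Pool.Agent.SGL.Defs
import Pool.Agent.SGL.M02

/-! Torus elements of `SL₂` fixing two given points. -/

namespace SGL

open Matrix
open scoped MatrixGroups LinearAlgebra.Projectivization

variable {F : Type} [Field F]

private theorem m14_exists_l [Finite F] (hF : 4 ≤ Nat.card F) : ∃ l : F, l ≠ 0 ∧ l * l ≠ 1 := by
  classical
  have : Fintype F := Fintype.ofFinite F
  by_contra hc
  push Not at hc
  have h1 : (Finset.univ : Finset F) ⊆ {0, 1, -1} := by
    intro l _
    by_cases h0 : l = 0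
    · simp [h0]
    · have h2 := hc l h0
      rcases mul_self_eq_one_iff.1 h2 with h | h <;> simp [h]
  have h2 : Fintype.card F ≤ 3 := by
    rw [← Finset.card_univ]
    exact (Finset.card_le_card h1).trans Finset.card_le_three
  rw [Nat.card_eq_fintype_card] at hF
  omega

private theorem m14_det {v w : Fin 2 → F} (hv : v ≠ 0) (hw : w ≠ 0)
    (h : Projectivization.mk F v hv ≠ Projectivization.mk F w hw) :
    (!![v 0, w 0; v 1, w 1] : Matrix (Fin 2) (Fin 2) F).det ≠ 0 := by
  intro hd
  apply h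
  rw [Matrix.det_fin_two_of] at hd
  rw [Projectivization.mk_eq_mk_iff']
  by_cases h0 : w 0 = 0
  · have hw1 : w 1 ≠ 0 := by
      intro h1
      apply hw
      ext i; fin_cases i <;> simp [h0, h1]
    refine ⟨v 1 / w 1, ?_⟩
    ext i
    fin_cases i
    · simp only [Fin.zero_eta, Pi.smul_apply, smul_eq_mul, h0, mul_zero]
      have : v 0 * w 1 = 0 := by rw [h0] at hd; linear_combination hd
      rcases mul_eq_zero.1 this with h2 | h2
      · exact h2.symm
      · exact absurd h2 hw1
    · simp only [Fin.mk_one, Pi.smul_apply, smul_eq_mul]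
      field_simp
  · refine ⟨v 0 / w 0, ?_⟩
    ext i
    fin_cases i
    · simp only [Fin.zero_eta, Pi.smul_apply, smul_eq_mul]
      field_simp
    · simp only [Fin.mk_one, Pi.smul_apply, smul_eq_mul]
      field_simp
      linear_combination hd

private theorem m14_torus (l : F) (hl0 : l ≠ 0) (hl1 : l * l ≠ 1) (v w : Fin 2 → F) (hv : v ≠ 0)
    (hw : w ≠ 0) (hd : (!![v 0, w 0; v 1, w 1] : Matrix (Fin 2) (Fin 2) F).det ≠ 0) :
    ∃ z : SL(2, F), pn z ≠ 1 ∧ pn z (Projectivization.mk F v hv) = Projectivization.mk F v hv ∧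
      pn z (Projectivization.mk F w hw) = Projectivization.mk F w hw := by
  rw [Matrix.det_fin_two_of] at hd
  set d : F := v 0 * w 1 - w 0 * v 1 with hdd
  have hm : (!![(l * v 0 * w 1 - l⁻¹ * w 0 * v 1) / d, (l⁻¹ - l) * v 0 * w 0 / d;
      (l - l⁻¹) * v 1 * w 1 / d, (l⁻¹ * v 0 * w 1 - l * w 0 * v 1) / d] :
      Matrix (Fin 2) (Fin 2) F).det = 1 := by
    rw [Matrix.det_fin_two_of]
    have hd2 : d ^ 2 = (v 0 * w 1 - w 0 * v 1) ^ 2 := by rw [hdd]
    field_simp
    rw [hd2]
    ring
  have hzv : !![(l * v 0 * w 1 - l⁻¹ * w 0 * v 1) / d, (l⁻¹ - l) * v 0 * w 0 / d;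
      (l - l⁻¹) * v 1 * w 1 / d, (l⁻¹ * v 0 * w 1 - l * w 0 * v 1) / d] *ᵥ v = l • v := by
    ext i
    fin_cases i
    · simp only [Matrix.mulVec, dotProduct, Fin.sum_univ_two, Fin.zero_eta, Pi.smul_apply,
        smul_eq_mul, Matrix.of_apply, Matrix.cons_val_zero, Matrix.cons_val_one,
        Matrix.cons_val', Matrix.cons_val_fin_one]
      field_simp
      rw [hdd]
      ring
    · simp only [Matrix.mulVec, dotProduct, Fin.sum_univ_two, Fin.mk_one, Pi.smul_apply,
        smul_eq_mul, Matrix.of_apply, Matrix.cons_val_zero, Matrix.cons_val_one,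
        Matrix.cons_val', Matrix.cons_val_fin_one]
      field_simp
      rw [hdd]
      ring
  have hzw : !![(l * v 0 * w 1 - l⁻¹ * w 0 * v 1) / d, (l⁻¹ - l) * v 0 * w 0 / d;
      (l - l⁻¹) * v 1 * w 1 / d, (l⁻¹ * v 0 * w 1 - l * w 0 * v 1) / d] *ᵥ w = l⁻¹ • w := by
    ext i
    fin_cases i
    · simp only [Matrix.mulVec, dotProduct, Fin.sum_univ_two, Fin.zero_eta, Pi.smul_apply,
        smul_eq_mul, Matrix.of_apply, Matrix.cons_val_zero, Matrix.cons_val_one,
        Matrix.cons_val', Matrix.cons_val_fin_one]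
      field_simp
      rw [hdd]
      ring
    · simp only [Matrix.mulVec, dotProduct, Fin.sum_univ_two, Fin.mk_one, Pi.smul_apply,
        smul_eq_mul, Matrix.of_apply, Matrix.cons_val_zero, Matrix.cons_val_one,
        Matrix.cons_val', Matrix.cons_val_fin_one]
      field_simp
      rw [hdd]
      ring
  let z : SL(2, F) := ⟨_, hm⟩
  refine ⟨z, ?_, (toPerm_mk_eq_iff (ofSL z) v v hv hv).2 ⟨l, hzv.symm⟩,
    (toPerm_mk_eq_iff (ofSL z) w w hw hw).2 ⟨l⁻¹, hzw.symm⟩⟩
  · intro h
    obtain ⟨c, hc⟩ := (pn_eq_one_iff _).1 h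
    have e0 : !![(l * v 0 * w 1 - l⁻¹ * w 0 * v 1) / d, (l⁻¹ - l) * v 0 * w 0 / d;
      (l - l⁻¹) * v 1 * w 1 / d, (l⁻¹ * v 0 * w 1 - l * w 0 * v 1) / d] =
        c • (1 : Matrix (Fin 2) (Fin 2) F) := hc
    rw [e0, Matrix.smul_mulVec, Matrix.one_mulVec] at hzv hzw
    have e1 : c = l := by
      by_contra hne
      have : (c - l) • v = 0 := by rw [sub_smul, hzv, sub_self]
      rcases smul_eq_zero.1 this with h3 | h3
      · exact hne (sub_eq_zero.1 h3)
      · exact hv h3
    have e2 : c = l⁻¹ := by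
      by_contra hne
      have : (c - l⁻¹) • w = 0 := by rw [sub_smul, hzw, sub_self]
      rcases smul_eq_zero.1 this with h3 | h3
      · exact hne (sub_eq_zero.1 h3)
      · exact hw h3
    apply hl1
    have e3 : l = l⁻¹ := e1.symm.trans e2
    nth_rewrite 2 [e3]
    exact mul_inv_cancel₀ hl0

/-- For `q ≥ 4` there is `l` with `l ≠ 0`, `l² ≠ 1`; take the element with eigenvalues `l`, `l⁻¹` on
the lines `p`, `p'` (if `p = p'` choose any other second line). -/
theorem exists_torus [Finite F] (hF : 4 ≤ Nat.card F) (p p' : ℙ F (Fin 2 → F)) :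
    ∃ z : SL(2, F), pn z ≠ 1 ∧ pn z p = p ∧ pn z p' = p' := by
  obtain ⟨l, hl0, hl1⟩ := m14_exists_l hF
  by_cases h : p = p'
  · subst h
    induction p using Projectivization.ind with | _ v hv =>
    by_cases h0 : v 0 = 0
    · have h1 : v 1 ≠ 0 := by
        intro h1
        apply hv
        ext i; fin_cases i <;> simp [h0, h1]
      have hw : (![1, 0] : Fin 2 → F) ≠ 0 := by
        intro hw
        have := congrFun hw 0
        simp at this
      obtain ⟨z, a, b, -⟩ := m14_torus l hl0 hl1 v ![1, 0] hv hw (by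
        rw [Matrix.det_fin_two_of]
        simp [h1])
      exact ⟨z, a, b, b⟩
    · have hw : (![0, 1] : Fin 2 → F) ≠ 0 := by
        intro hw
        have := congrFun hw 1
        simp at this
      obtain ⟨z, a, b, -⟩ := m14_torus l hl0 hl1 v ![0, 1] hv hw (by
        rw [Matrix.det_fin_two_of]
        simp [h0])
      exact ⟨z, a, b, b⟩
  · induction p using Projectivization.ind with | _ v hv =>
    induction p' using Projectivization.ind with | _ w hw =>
    exact m14_torus l hl0 hl1 v w hv hw (m14_det hv hw h)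

end SGL
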