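import Pool.Agent.SGL.Defs
import Pool.Agent.SGL.M02

/-! Two distinct points: the algebra of matrices diagonal in that frame. -/

namespace SGL

open Matrix
open scoped MatrixGroups LinearAlgebra.Projectivization

variable {F : Type} [Field F]

private theorem m15_det {v w : Fin 2 → F} (hv : v ≠ 0) (hw : w ≠ 0)
    (h : Projectivization.mk F v hv ≠ Projectivization.mk F w hw) :
    (!![v 0, w 0; v 1, w 1] : Matrix (Fin 2) (Fin 2) F).det ≠ 0 := by
  intro hd
  apply h
  rw [Matrix.det_fin_two_of] at hd
  rw [Projectivization.mk_eq_mk_iff']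
  by_cases h0 : w 0 = 0
  · have hw1 : w 1 ≠ 0 := by
      intro h1
      apply hw
      ext i; fin_cases i <;> simp [h0, h1]
    refine ⟨v 1 / w 1, ?_⟩
    ext i
    fin_cases i
    · simp only [Fin.zero_eta, Pi.smul_apply, smul_eq_mul, h0, mul_zero]
      have : v 0 * w 1 = 0 := by rw [h0] at hd; linear_combination hd
      rcases mul_eq_zero.1 this with h2 | h2
      · exact h2.symm
      · exact absurd h2 hw1
    · simp only [Fin.mk_one, Pi.smul_apply, smul_eq_mul]
      field_simp
  · refine ⟨v 0 / w 0, ?_⟩
    ext i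
    fin_cases i
    · simp only [Fin.zero_eta, Pi.smul_apply, smul_eq_mul]
      field_simp
    · simp only [Fin.mk_one, Pi.smul_apply, smul_eq_mul]
      field_simp
      linear_combination hd

/-- `X` = the matrix with eigenvalue `0` on `p` and `1` on `p'`. -/
theorem exists_frame_algebra (p p' : ℙ F (Fin 2 → F)) (h : p ≠ p') :
    ∃ X : Matrix (Fin 2) (Fin 2) F, disc X ≠ 0 ∧ ∀ g : GamL F,
      ((toPerm F g p = p ∧ toPerm F g p' = p') ∨ (toPerm F g p = p' ∧ toPerm F g p' = p)) →
      g ∈ normX X := by
  induction p using Projectivization.ind with | _ v hv =>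
  induction p' using Projectivization.ind with | _ w hw =>
  set P : Matrix (Fin 2) (Fin 2) F := !![v 0, w 0; v 1, w 1] with hP
  have hdet : P.det ≠ 0 := m15_det hv hw h
  set D : Matrix (Fin 2) (Fin 2) F := !![0, 0; 0, 1] with hD
  set X : Matrix (Fin 2) (Fin 2) F := P * D * P⁻¹ with hX
  have hu : IsUnit P.det := isUnit_iff_ne_zero.2 hdet
  have hPP : P⁻¹ * P = 1 := Matrix.nonsing_inv_mul P hu
  have hPP' : P * P⁻¹ = 1 := Matrix.mul_nonsing_inv P hu
  have hXP : X * P = P * D := by
    rw [hX, Matrix.mul_assoc, hPP, Matrix.mul_one]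
  refine ⟨X, ?_, ?_⟩
  · have h1 : X.trace = 1 := by
      rw [hX, Matrix.trace_mul_comm, ← Matrix.mul_assoc, hPP, Matrix.one_mul, hD,
        Matrix.trace_fin_two]
      simp
    have h2 : X.det = 0 := by
      rw [hX, Matrix.det_mul, Matrix.det_mul]
      have : D.det = 0 := by rw [hD, Matrix.det_fin_two_of]; ring
      rw [this]
      ring
    unfold disc
    rw [h1, h2]
    norm_num
  · intro g hg
    have key : ∀ (K : Matrix (Fin 2) (Fin 2) F) (a b : F), mat g * P.map g.right = P * K →
        K * D = (a • (1 : Matrix (Fin 2) (Fin 2) F) + b • D) * K → g ∈ normX X := by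
      intro K a b h1 h2
      refine ⟨a, b, ?_⟩
      have hσ : (P.map g.right).det ≠ 0 := by
        have e1 : (P.map g.right).det = g.right P.det :=
          (RingEquiv.map_det g.right P).symm
        rw [e1]
        simpa using hdet
      have hσu : IsUnit (P.map g.right).det := isUnit_iff_ne_zero.2 hσ
      have hXσ : X.map g.right * P.map g.right = P.map g.right * D := by
        have e1 : X.map g.right * P.map g.right = P.map g.right * D.map g.right := by
          rw [← Matrix.map_mul, ← Matrix.map_mul, hXP]
        rw [e1]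
        congr 1
        ext i j
        fin_cases i <;> fin_cases j <;> simp [hD]
      have e2 : mat g * X.map g.right * P.map g.right =
          ((a • (1 : Matrix (Fin 2) (Fin 2) F) + b • X) * mat g) * P.map g.right := by
        rw [Matrix.mul_assoc, hXσ, ← Matrix.mul_assoc, h1, Matrix.mul_assoc, h2, Matrix.mul_assoc,
          h1, ← Matrix.mul_assoc, ← Matrix.mul_assoc]
        congr 1
        rw [Matrix.mul_add, Matrix.add_mul, Matrix.mul_smul, Matrix.mul_smul, Matrix.smul_mul,
          Matrix.smul_mul, hXP, Matrix.mul_one, Matrix.one_mul]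
      have e3 := congrArg (fun M => M * (P.map g.right)⁻¹) e2
      simp only [Matrix.mul_assoc, Matrix.mul_nonsing_inv _ hσu, Matrix.mul_one] at e3
      exact e3
    rcases hg with ⟨h1, h2⟩ | ⟨h1, h2⟩
    · obtain ⟨c, hc⟩ := (toPerm_mk_eq_iff g v v hv hv).1 h1
      obtain ⟨d, hd⟩ := (toPerm_mk_eq_iff g w w hw hw).1 h2
      apply key !![c, 0; 0, d] 0 1
      · ext i j
        have e1 := congrFun hc i
        have e2 := congrFun hd i
        simp only [act, Matrix.mulVec, dotProduct, Fin.sum_univ_two, Pi.smul_apply,
          smul_eq_mul] at e1 e2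
        fin_cases i <;> fin_cases j <;>
          simp [Matrix.mul_apply, hP, Fin.sum_univ_two] at e1 e2 ⊢ <;>
          first | linear_combination -e1 | linear_combination -e2
      · rw [hD]
        ext i j
        fin_cases i <;> fin_cases j <;> simp [Matrix.mul_apply, Fin.sum_univ_two]
    · obtain ⟨c, hc⟩ := (toPerm_mk_eq_iff g v w hv hw).1 h1
      obtain ⟨d, hd⟩ := (toPerm_mk_eq_iff g w v hw hv).1 h2
      apply key !![0, d; c, 0] 1 (-1)
      · ext i j
        have e1 := congrFun hc i
        have e2 := congrFun hd i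
        simp only [act, Matrix.mulVec, dotProduct, Fin.sum_univ_two, Pi.smul_apply,
          smul_eq_mul] at e1 e2
        fin_cases i <;> fin_cases j <;>
          simp [Matrix.mul_apply, hP, Fin.sum_univ_two] at e1 e2 ⊢ <;>
          first | linear_combination -e1 | linear_combination -e2
      · rw [hD]
        ext i j
        fin_cases i <;> fin_cases j <;> simp [Matrix.mul_apply, Fin.sum_univ_two]

end SGL
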