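import Pool.Agent.SGL.Defs
import Pool.Agent.SGL.M02
import Pool.Agent.SGL.M06
import Pool.Agent.SGL.M10
import Pool.Agent.SGL.M11
import Pool.Agent.SGL.M12
import Pool.Agent.SGL.M13
import Pool.Agent.SGL.M14

/-! Distance at most two when the group contains `PGL₂`. -/

namespace SGL

open Matrix
open scoped MatrixGroups LinearAlgebra.Projectivization

variable {F : Type} [Field F]

private theorem m16_scalar_disc {X : Matrix (Fin 2) (Fin 2) F} (hX : disc X ≠ 0) (c : F)
    (h : X = c • (1 : Matrix (Fin 2) (Fin 2) F)) : False := by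
  apply hX
  rw [h]
  unfold disc
  rw [Matrix.trace_fin_two, Matrix.det_fin_two]
  simp
  ring

private theorem m16_gl_ne_one {X : Matrix (Fin 2) (Fin 2) F} (hX : disc X ≠ 0) (hd : X.det ≠ 0) :
    toPerm F (ofGL (Matrix.GeneralLinearGroup.mkOfDetNeZero X hd)) ≠ 1 := by
  intro h
  obtain ⟨-, c, hc⟩ := (toPerm_eq_one_iff _).1 h
  exact m16_scalar_disc hX c hc

private theorem m16_gl_norm {X : Matrix (Fin 2) (Fin 2) F} (hd : X.det ≠ 0) :
    ofGL (Matrix.GeneralLinearGroup.mkOfDetNeZero X hd) ∈ normX X := by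
  refine ⟨0, 1, ?_⟩
  have h1 : X.map (ofGL (Matrix.GeneralLinearGroup.mkOfDetNeZero X hd)).right = X := by
    ext i j; rfl
  have h2 : mat (ofGL (Matrix.GeneralLinearGroup.mkOfDetNeZero X hd)) = X := rfl
  rw [h1, h2]
  simp

private theorem m16_linear_mem (G : Subgroup (GamL F)) (hG : (ofGL (F := F)).range ≤ G)
    {g : GamL F} (hg : g.right = 1) : g ∈ G := by
  apply hG
  refine ⟨g.left, ?_⟩
  apply gam_ext
  · rfl
  · rw [hg]; rfl

private theorem m16_map_one {X : Matrix (Fin 2) (Fin 2) F} {g : GamL F} (hg : g.right = 1) :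
    X.map g.right = X := by
  rw [hg]
  ext i j; rfl

/-- Cases from `classify`: both fix a point -> `exists_torus`; one fixes a point `p` and the other
commutes with `X` -> `exists_norm_fix`; both commute with `X`, `Y`: if `XY = YX` take `z = X`
(`normX_eq_of_comm`), if `det (XY - YX) ≠ 0` use `exists_norm_norm`, else, if `x.right = 1` then `x`
fixes the point `p` of `degenerate_point` and so does `Y`: `z = Y` (and symmetrically if
`y.right = 1`); if `x.right ≠ 1` use `exists_frame_galois`, with `z = (z x⁻¹) x ∈ G` because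
`z x⁻¹` is linear. -/
theorem dist_two [Finite F] (hF : 4 ≤ Nat.card F) (G : Subgroup (GamL F))
    (hG : (ofGL (F := F)).range ≤ G) {x y : GamL F} (hx : x ∈ G) (hy : y ∈ G) :
    ∃ z ∈ G, toPerm F z ≠ 1 ∧ Link x z ∧ Link z y := by
  rcases classify x with ⟨p, hp⟩ | ⟨X, hXd, hXc, hxX⟩
  · rcases classify y with ⟨p', hp'⟩ | ⟨Y, hYd, hYc, hyY⟩
    · obtain ⟨z, hz, hzp, hzp'⟩ := exists_torus hF p p'
      refine ⟨ofSL z, hG ⟨_, rfl⟩, hz, Or.inl ⟨p, hp, hzp⟩, Or.inl ⟨p', hzp', hp'⟩⟩
    · obtain ⟨z, hz, hzn, hzp⟩ := exists_norm_fix Y hYd hYc p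
      exact ⟨ofGL z, hG ⟨_, rfl⟩, hz, Or.inl ⟨p, hp, hzp⟩,
        Or.inr ⟨Y, hYc, hzn, mem_normX_of_comm hyY⟩⟩
  · have hxn := mem_normX_of_comm hxX
    rcases classify y with ⟨p', hp'⟩ | ⟨Y, hYd, hYc, hyY⟩
    · obtain ⟨z, hz, hzn, hzp⟩ := exists_norm_fix X hXd hXc p'
      exact ⟨ofGL z, hG ⟨_, rfl⟩, hz, Or.inr ⟨X, hXc, hxn, hzn⟩, Or.inl ⟨p', hzp, hp'⟩⟩
    · have hyn := mem_normX_of_comm hyY
      by_cases hc : X * Y = Y * X
      · have hN := normX_eq_of_comm X Y hXc hYc hc
        refine ⟨ofGL (Matrix.GeneralLinearGroup.mkOfDetNeZero X hXd), hG ⟨_, rfl⟩,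
          m16_gl_ne_one hXc hXd, Or.inr ⟨X, hXc, hxn, m16_gl_norm hXd⟩,
          Or.inr ⟨X, hXc, m16_gl_norm hXd, ?_⟩⟩
        rw [hN]
        exact hyn
      · by_cases hW : (X * Y - Y * X).det = 0
        · by_cases hxr : x.right = 1
          · obtain ⟨p, hp⟩ := degenerate_point X Y hXc hYc hc hW
            have h1 : toPerm F x p = p := by
              apply hp x hxr
              left
              rw [m16_map_one hxr] at hxX
              exact hxX
            have h2 : toPerm F (ofGL (Matrix.GeneralLinearGroup.mkOfDetNeZero Y hYd)) p = p := by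
              apply hp _ rfl
              right
              rfl
            exact ⟨ofGL (Matrix.GeneralLinearGroup.mkOfDetNeZero Y hYd), hG ⟨_, rfl⟩,
              m16_gl_ne_one hYc hYd, Or.inl ⟨p, h1, h2⟩,
              Or.inr ⟨Y, hYc, m16_gl_norm hYd, hyn⟩⟩
          · obtain ⟨z, hzr, hz1, hzX, hzY⟩ := exists_frame_galois X Y hXc hYc hc hW x.right hxr
            have hzG : z ∈ G := by
              have h1 : (z * x⁻¹).right = 1 := by
                rw [right_mul, hzr, SemidirectProduct.inv_right, mul_inv_cancel]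
              have h2 := m16_linear_mem G hG h1
              have h3 := G.mul_mem h2 hx
              simpa using h3
            exact ⟨z, hzG, hz1, Or.inr ⟨X, hXc, hxn, hzX⟩, Or.inr ⟨Y, hYc, hzY, hyn⟩⟩
        · obtain ⟨z, hz, hzX, hzY⟩ := exists_norm_norm X Y hXc hYc hW
          exact ⟨ofGL z, hG ⟨_, rfl⟩, hz, Or.inr ⟨X, hXc, hxn, hzX⟩,
            Or.inr ⟨Y, hYc, hzY, hyn⟩⟩

end SGL
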