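import Pool.Agent.SGL.Defs
import Pool.Agent.SGL.M02

/-! Involutions of `PSL₂` normalising a given algebra, odd `q`. -/

namespace SGL

open Matrix
open scoped MatrixGroups LinearAlgebra.Projectivization

variable {F : Type} [Field F]

private theorem m17_z (X : Matrix (Fin 2) (Fin 2) F) (hX : disc X ≠ 0) :
    ∃ z : Matrix (Fin 2) (Fin 2) F, z.det ≠ 0 ∧
      z * z = -(z.det • (1 : Matrix (Fin 2) (Fin 2) F)) ∧
      z * X = (X.trace • (1 : Matrix (Fin 2) (Fin 2) F) - X) * z := by
  by_cases h1 : X 1 0 = 0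
  · by_cases h2 : X 0 1 = 0
    · refine ⟨!![0, 1; 1, 0], ?_, ?_, ?_⟩
      · rw [Matrix.det_fin_two_of]
        simp
      · ext i j
        fin_cases i <;> fin_cases j <;> simp [Matrix.mul_apply, Fin.sum_univ_two, Matrix.det_fin_two]
      · ext i j
        fin_cases i <;> fin_cases j <;>
          simp [Matrix.mul_apply, Fin.sum_univ_two, Matrix.trace, h1, h2]
    · refine ⟨!![X 0 1, 0; X 1 1 - X 0 0, -X 0 1], ?_, ?_, ?_⟩
      · rw [Matrix.det_fin_two_of]
        intro h
        apply h2
        have : X 0 1 * X 0 1 = 0 := by linear_combination -h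
        exact mul_self_eq_zero.1 this
      · ext i j
        fin_cases i <;> fin_cases j <;>
        · simp [Matrix.mul_apply, Fin.sum_univ_two, Matrix.det_fin_two]
          try ring
      · ext i j
        fin_cases i <;> fin_cases j <;>
        · simp [Matrix.mul_apply, Fin.sum_univ_two, Matrix.trace]
          try ring
  · refine ⟨!![X 1 0, X 1 1 - X 0 0; 0, -X 1 0], ?_, ?_, ?_⟩
    · rw [Matrix.det_fin_two_of]
      intro h
      apply h1
      have : X 1 0 * X 1 0 = 0 := by linear_combination -h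
      exact mul_self_eq_zero.1 this
    · ext i j
      fin_cases i <;> fin_cases j <;>
      · simp [Matrix.mul_apply, Fin.sum_univ_two, Matrix.det_fin_two]
        try ring
    · ext i j
      fin_cases i <;> fin_cases j <;>
      · simp [Matrix.mul_apply, Fin.sum_univ_two, Matrix.trace]
        try ring

private theorem m17_solve [Finite F] (h2 : (2 : F) ≠ 0) (D e : F) (hD : D ≠ 0) :
    ∃ a b : F, a ^ 2 - b ^ 2 * D = e := by
  classical
  have := Fintype.ofFinite F
  have hchar : ringChar F ≠ 2 := by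
    intro h
    apply h2
    have h3 := ringChar.spec F 2
    rw [h] at h3
    exact_mod_cast h3.2 (dvd_refl 2)
  have hodd : Fintype.card F % 2 = 1 := FiniteField.odd_card_of_char_ne_two hchar
  obtain ⟨a, b, hab⟩ := FiniteField.exists_root_sum_quadratic
    (f := (Polynomial.X ^ 2 - Polynomial.C e : Polynomial F))
    (g := (-(Polynomial.C D * Polynomial.X ^ 2) : Polynomial F))
    (Polynomial.degree_X_pow_sub_C (by norm_num) e)
    (by rw [Polynomial.degree_neg, Polynomial.degree_C_mul_X_pow 2 hD]; rfl) hodd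
  refine ⟨a, b, ?_⟩
  simp only [Polynomial.eval_sub, Polynomial.eval_pow, Polynomial.eval_X, Polynomial.eval_C,
    Polynomial.eval_neg, Polynomial.eval_mul] at hab
  linear_combination hab

/-- Odd characteristic. Take `v` with `v, Xv` independent, `z` with `z v = v`, `z X v = (t - X) v`
(so `z² = 1`, `tr z = 0`, `det z = -1`, `z X = (t - X) z`) and `w = (a + b (2X - t)) z`, with
`a² - b² disc X = -1` (`FiniteField.exists_root_sum_quadratic`). -/
theorem exists_norm_invol [Finite F] (h2 : (2 : F) ≠ 0) (X : Matrix (Fin 2) (Fin 2) F)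
    (hX : disc X ≠ 0) :
    ∃ w : SL(2, F), pn w ≠ 1 ∧ pn w * pn w = 1 ∧ ofSL w ∈ normX X := by
  obtain ⟨z, hz0, hzz, hzX⟩ := m17_z X hX
  obtain ⟨a, b, hab⟩ := m17_solve h2 (disc X) (z.det)⁻¹ hX
  set E : Matrix (Fin 2) (Fin 2) F := X + X - X.trace • (1 : Matrix (Fin 2) (Fin 2) F) with hE
  set w0 : Matrix (Fin 2) (Fin 2) F := (a • (1 : Matrix (Fin 2) (Fin 2) F) + b • E) * z with hw0
  have hdet1 : (a • (1 : Matrix (Fin 2) (Fin 2) F) + b • E).det = a ^ 2 - b ^ 2 * disc X := by
    rw [hE, disc]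
    simp [Matrix.det_fin_two, Matrix.trace, Fin.sum_univ_two]
    ring
  have hdet : w0.det = 1 := by
    rw [hw0, Matrix.det_mul, hdet1, hab]
    exact inv_mul_cancel₀ hz0
  have hEE : E * E = disc X • (1 : Matrix (Fin 2) (Fin 2) F) := by
    rw [hE, disc]
    ext i j
    fin_cases i <;> fin_cases j <;>
    · simp [Matrix.mul_apply, Fin.sum_univ_two, Matrix.trace, Matrix.det_fin_two]
      ring
  have hzE : z * E = -(E * z) := by
    rw [hE, Matrix.mul_sub, Matrix.mul_add, hzX, Matrix.mul_smul, Matrix.mul_one]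
    simp only [Matrix.sub_mul, Matrix.add_mul, Matrix.smul_mul, Matrix.one_mul]
    abel
  have hww : w0 * w0 = (-1 : F) • (1 : Matrix (Fin 2) (Fin 2) F) := by
    have e1 : z * (a • (1 : Matrix (Fin 2) (Fin 2) F) + b • E) =
        (a • (1 : Matrix (Fin 2) (Fin 2) F) - b • E) * z := by
      rw [Matrix.mul_add, Matrix.mul_smul, Matrix.mul_smul, hzE,
        Matrix.sub_mul (a • (1 : Matrix (Fin 2) (Fin 2) F)) (b • E) z, Matrix.smul_mul a 1 z,
        Matrix.smul_mul b E z, Matrix.mul_one, Matrix.one_mul, smul_neg, sub_eq_add_neg]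
    have e2 : (a • (1 : Matrix (Fin 2) (Fin 2) F) + b • E) *
        (a • (1 : Matrix (Fin 2) (Fin 2) F) - b • E) =
        (a ^ 2 - b ^ 2 * disc X) • (1 : Matrix (Fin 2) (Fin 2) F) := by
      rw [Matrix.mul_sub, Matrix.add_mul, Matrix.add_mul]
      simp only [Matrix.smul_mul, Matrix.mul_smul, Matrix.one_mul, Matrix.mul_one, hEE, smul_smul]
      rw [sub_smul]
      have : b * a = a * b := mul_comm _ _
      rw [this]
      have e3 : b * (b * disc X) = b ^ 2 * disc X := by ring
      have e4 : a * a = a ^ 2 := by ring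
      rw [e3, e4]
      abel
    calc w0 * w0 = (a • (1 : Matrix (Fin 2) (Fin 2) F) + b • E) *
          (z * (a • (1 : Matrix (Fin 2) (Fin 2) F) + b • E)) * z := by
            rw [hw0]; simp only [Matrix.mul_assoc]
      _ = ((a • (1 : Matrix (Fin 2) (Fin 2) F) + b • E) *
          (a • (1 : Matrix (Fin 2) (Fin 2) F) - b • E)) * (z * z) := by
            rw [e1]; simp only [Matrix.mul_assoc]
      _ = _ := by
            rw [e2, hzz, hab, Matrix.smul_mul, Matrix.one_mul, smul_neg, smul_smul,
              inv_mul_cancel₀ hz0, one_smul, neg_one_smul]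
  have hwX : w0 * X = (X.trace • (1 : Matrix (Fin 2) (Fin 2) F) - X) * w0 := by
    have e5 : (a • (1 : Matrix (Fin 2) (Fin 2) F) + b • E) *
        (X.trace • (1 : Matrix (Fin 2) (Fin 2) F) - X) =
        (X.trace • (1 : Matrix (Fin 2) (Fin 2) F) - X) *
        (a • (1 : Matrix (Fin 2) (Fin 2) F) + b • E) := by
      rw [hE]
      ext i j
      fin_cases i <;> fin_cases j <;>
      · simp [Matrix.mul_apply, Fin.sum_univ_two, Matrix.trace]
        ring
    rw [hw0, Matrix.mul_assoc, hzX, ← Matrix.mul_assoc, e5, Matrix.mul_assoc]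
  refine ⟨⟨w0, hdet⟩, ?_, ?_, ?_⟩
  · intro h
    rw [pn_eq_one_iff] at h
    obtain ⟨c, hc⟩ := h
    have hc' : w0 = c • (1 : Matrix (Fin 2) (Fin 2) F) := hc
    have hc0 : c ≠ 0 := by
      intro h0
      rw [hc', h0, zero_smul] at hdet
      simp at hdet
    rw [hc', Matrix.smul_mul, Matrix.mul_smul, Matrix.one_mul, Matrix.mul_one] at hwX
    have h3 : X = X.trace • (1 : Matrix (Fin 2) (Fin 2) F) - X := smul_right_injective _ hc0 hwX
    apply hX
    have h8 : X + X = X.trace • (1 : Matrix (Fin 2) (Fin 2) F) := by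
      nth_rewrite 1 [h3]
      abel
    have a1 := congrFun (congrFun h8 0) 0
    have a2 := congrFun (congrFun h8 0) 1
    simp [Matrix.trace, Fin.sum_univ_two] at a1 a2
    rw [disc]
    simp only [Matrix.trace, Fin.sum_univ_two, Matrix.det_fin_two, Matrix.diag_apply]
    linear_combination (X 0 0 - X 1 1) * a1 + (2 * X 1 0) * a2
  · rw [← map_mul, pn_eq_one_iff]
    refine ⟨-1, ?_⟩
    exact hww
  · rw [mem_normX]
    refine ⟨X.trace, -1, ?_⟩
    rw [right_ofSL, mat_ofSL]
    change w0 * X = _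
    rw [hwX, neg_one_smul, ← sub_eq_add_neg]

end SGL
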