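import Pool.Agent.SGL.Defs
import Pool.Agent.SGL.M02
import Pool.Agent.SGL.M03
import Pool.Agent.SGL.M06
import Pool.Agent.SGL.M07
import Pool.Agent.SGL.M10
import Pool.Agent.SGL.M14
import Pool.Agent.SGL.M15
import Pool.Agent.SGL.M17

/-! Distance at most three when the group contains `PSL₂`, odd `q ≥ 5`. -/

namespace SGL

open Matrix
open scoped MatrixGroups LinearAlgebra.Projectivization

variable {F : Type} [Field F]

private theorem dist_three_mixed [Finite F] (hF : 4 ≤ Nat.card F) (h2 : (2 : F) ≠ 0)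
    {x y : GamL F} (p : ℙ F (Fin 2 → F)) (hp : toPerm F x p = p)
    (Y : Matrix (Fin 2) (Fin 2) F) (hYd : disc Y ≠ 0) (hY : y ∈ normX Y) :
    ∃ z₁ z₂ : SL(2, F), pn z₁ ≠ 1 ∧ pn z₂ ≠ 1 ∧ Sol (toPerm F x) (pn z₁) ∧ Sol (pn z₁) (pn z₂) ∧
      Sol (pn z₂) (toPerm F y) := by
  obtain ⟨w, hw1, hw2, hwY⟩ := exists_norm_invol h2 Y hYd
  have hwy : Sol (pn w) (toPerm F y) := Link.sol (Or.inr ⟨Y, hYd, hwY, hY⟩)
  by_cases hwp : pn w p = p
  · refine ⟨w, w, hw1, hw1, ?_, sol_self _, hwy⟩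
    exact Link.sol (Or.inl ⟨p, hp, hwp⟩)
  · obtain ⟨z, hz1, hzp, hzp'⟩ := exists_torus hF p (pn w p)
    refine ⟨z, w, hz1, hw1, ?_, ?_, hwy⟩
    · exact Link.sol (Or.inl ⟨p, hp, hzp⟩)
    · obtain ⟨X, hX, hXn⟩ := exists_frame_algebra p (pn w p) (fun h => hwp h.symm)
      refine Link.sol (Or.inr ⟨X, hX, hXn (ofSL z) (Or.inl ⟨hzp, hzp'⟩),
        hXn (ofSL w) (Or.inr ⟨rfl, ?_⟩)⟩)
      change (pn w * pn w) p = p
      rw [hw2]; rfl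

/-- Cases from `classify`: both fix a point -> `exists_torus` (take `z₁ = z₂`); `x` fixes `p`, `y` commutes
with `Y` -> `w` from `exists_norm_invol` for `Y`; if `w` fixes `p` take `z₁ = z₂ = w`, else `w` swaps
`p` and `p' = w p`, `z₁` = torus element fixing `p, p'` (`exists_torus`), `z₂ = w` and `z₁, z₂` are
both in `normX` of the frame algebra (`exists_frame_algebra`); both commute with `X`, `Y`: the two
involutions (`sol_of_involutions`). -/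
theorem dist_three [Finite F] (hF : 4 ≤ Nat.card F) (h2 : (2 : F) ≠ 0) (G : Subgroup (GamL F))
    (hG : (ofSL (F := F)).range ≤ G) {x y : GamL F} (hx : x ∈ G) (hy : y ∈ G) :
    ∃ z₁ ∈ G, ∃ z₂ ∈ G, toPerm F z₁ ≠ 1 ∧ toPerm F z₂ ≠ 1 ∧
      Sol (toPerm F x) (toPerm F z₁) ∧ Sol (toPerm F z₁) (toPerm F z₂) ∧
      Sol (toPerm F z₂) (toPerm F y) := by
  have hmem : ∀ z : SL(2, F), ofSL z ∈ G := fun z => hG ⟨z, rfl⟩
  suffices h : ∃ z₁ z₂ : SL(2, F), pn z₁ ≠ 1 ∧ pn z₂ ≠ 1 ∧ Sol (toPerm F x) (pn z₁) ∧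
      Sol (pn z₁) (pn z₂) ∧ Sol (pn z₂) (toPerm F y) by
    obtain ⟨z₁, z₂, h1, h2, h3, h4, h5⟩ := h
    exact ⟨ofSL z₁, hmem z₁, ofSL z₂, hmem z₂, h1, h2, h3, h4, h5⟩
  rcases classify x with ⟨p, hp⟩ | ⟨X, _, hXd, hX⟩
  · rcases classify y with ⟨p', hp'⟩ | ⟨Y, _, hYd, hY⟩
    · obtain ⟨z, hz1, hzp, hzp'⟩ := exists_torus hF p p'
      exact ⟨z, z, hz1, hz1, Link.sol (Or.inl ⟨p, hp, hzp⟩), sol_self _,
        Link.sol (Or.inl ⟨p', hzp', hp'⟩)⟩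
    · exact dist_three_mixed hF h2 p hp Y hYd (mem_normX_of_comm hY)
  · rcases classify y with ⟨p', hp'⟩ | ⟨Y, _, hYd, hY⟩
    · obtain ⟨z₁, z₂, h1, h2, h3, h4, h5⟩ :=
        dist_three_mixed hF h2 p' hp' X hXd (mem_normX_of_comm hX)
      exact ⟨z₂, z₁, h2, h1, h5.symm, h4.symm, h3.symm⟩
    · obtain ⟨w, hw1, hw2, hwX⟩ := exists_norm_invol h2 X hXd
      obtain ⟨w', hw1', hw2', hwY⟩ := exists_norm_invol h2 Y hYd
      exact ⟨w, w', hw1, hw1', Link.sol (Or.inr ⟨X, hXd, mem_normX_of_comm hX, hwX⟩),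
        sol_of_involutions hw2 hw2', Link.sol (Or.inr ⟨Y, hYd, hwY, mem_normX_of_comm hY⟩)⟩

end SGL
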