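import Pool.Agent.SGL.Defs
import Pool.Agent.SGL.M02

/-! Fixed points of unipotent elements. -/

namespace SGL

open Matrix
open scoped MatrixGroups LinearAlgebra.Projectivization

variable {F : Type} [Field F]

/-- A nonscalar matrix with `disc = 0` has exactly one eigenline. -/
theorem unique_fix_of_disc_zero [Finite F] (n : SL(2, F))
    (hn : disc (n : Matrix (Fin 2) (Fin 2) F) = 0) (h1 : pn n ≠ 1) :
    ∃! p : ℙ F (Fin 2 → F), pn n p = p := by
  set A : Matrix (Fin 2) (Fin 2) F := (n : Matrix (Fin 2) (Fin 2) F) with hA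
  have hdet : A 0 0 * A 1 1 - A 0 1 * A 1 0 = 1 := by
    have := n.det_coe
    rwa [Matrix.det_fin_two] at this
  have hns : ∀ c : F, A ≠ c • (1 : Matrix (Fin 2) (Fin 2) F) := by
    intro c hc
    exact h1 ((pn_eq_one_iff n).2 ⟨c, hc⟩)
  have hn' : (A 0 0 + A 1 1) ^ 2 - 4 * (A 0 0 * A 1 1 - A 0 1 * A 1 0) = 0 := by
    have h2 := hn
    rw [disc] at h2
    simpa only [Matrix.trace, Fin.sum_univ_two, Matrix.det_fin_two, Matrix.diag_apply] using h2
  -- the eigenvalue
  obtain ⟨l, hl1, hl2⟩ : ∃ l : F, l * l = 1 ∧ 2 * l = A 0 0 + A 1 1 := by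
    by_cases h2 : (2 : F) = 0
    · refine ⟨1, one_mul 1, ?_⟩
      rw [hdet] at hn'
      have h3 : (A 0 0 + A 1 1) ^ 2 = 0 := by linear_combination hn' + 2 * h2
      rw [h2, zero_mul]
      exact (pow_eq_zero_iff (two_ne_zero)).1 h3 |>.symm
    · refine ⟨(A 0 0 + A 1 1) / 2, ?_, by field_simp⟩
      rw [hdet] at hn'
      have h4 : (4 : F) ≠ 0 := by
        have : (4 : F) = 2 * 2 := by norm_num
        rw [this]
        exact mul_ne_zero h2 h2
      field_simp
      linear_combination hn'
  -- `(A - l)² = 0`, i.e. the entries of `N = A - l`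
  have hN1 : (A 0 0 - l) * (A 1 1 - l) - A 0 1 * A 1 0 = 0 := by
    linear_combination hdet + l * hl2 - hl1
  have hN2 : (A 0 0 - l) + (A 1 1 - l) = 0 := by linear_combination -hl2
  -- the eigenvector
  obtain ⟨v, hv, hv1, hv2⟩ : ∃ v : Fin 2 → F, v ≠ 0 ∧ (A 0 0 - l) * v 0 + A 0 1 * v 1 = 0 ∧
      A 1 0 * v 0 + (A 1 1 - l) * v 1 = 0 := by
    by_cases h3 : A 0 0 - l = 0 ∧ A 1 0 = 0
    · refine ⟨![1, 0], ?_, ?_, ?_⟩
      · intro h
        have := congrFun h 0
        simp at this
      · simp [h3.1]
      · simp [h3.2]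
    · refine ⟨![A 0 0 - l, A 1 0], ?_, ?_, ?_⟩
      · intro h
        apply h3
        exact ⟨by simpa using congrFun h 0, by simpa using congrFun h 1⟩
      · simp
        linear_combination (A 0 0 - l) * hN2 - hN1
      · simp
        linear_combination A 1 0 * hN2
  have hAv : ∀ w : Fin 2 → F, (A 0 0 - l) * w 0 + A 0 1 * w 1 = 0 →
      A 1 0 * w 0 + (A 1 1 - l) * w 1 = 0 → A *ᵥ w = l • w := by
    intro w e1 e2
    ext i
    fin_cases i
    · simp [Matrix.mulVec, dotProduct, Fin.sum_univ_two]
      linear_combination e1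
    · simp [Matrix.mulVec, dotProduct, Fin.sum_univ_two]
      linear_combination e2
  refine ⟨Projectivization.mk F v hv, ?_, ?_⟩
  · change pn n (Projectivization.mk F v hv) = Projectivization.mk F v hv
    rw [pn_def, toPerm_mk_eq_iff]
    refine ⟨l, ?_⟩
    rw [act_ofSL]
    exact (hAv v hv1 hv2).symm
  · intro q hq
    change pn n q = q at hq
    induction q using Projectivization.ind with | _ w hw =>
    rw [pn_def, toPerm_mk_eq_iff] at hq
    obtain ⟨m, hm⟩ := hq
    rw [act_ofSL] at hm
    have e1 : m * w 0 = A 0 0 * w 0 + A 0 1 * w 1 := by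
      have := congrFun hm 0
      simpa [Matrix.mulVec, dotProduct, Fin.sum_univ_two] using this
    have e2 : m * w 1 = A 1 0 * w 0 + A 1 1 * w 1 := by
      have := congrFun hm 1
      simpa [Matrix.mulVec, dotProduct, Fin.sum_univ_two] using this
    -- `(m - l)² w = 0`
    have hml : m = l := by
      have f1 : (m - l) ^ 2 * w 0 = 0 := by
        linear_combination (m - l) * e1 + (A 0 0 - l) * e1 + A 0 1 * e2 -
          w 0 * hN1 + (w 0 * (A 0 0 - l) + A 0 1 * w 1) * hN2
      have f2 : (m - l) ^ 2 * w 1 = 0 := by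
        linear_combination (m - l) * e2 + (A 1 1 - l) * e2 + A 1 0 * e1 -
          w 1 * hN1 + (w 1 * (A 1 1 - l) + A 1 0 * w 0) * hN2
      by_contra hne
      have h5 : (m - l) ^ 2 ≠ 0 := pow_ne_zero 2 (sub_ne_zero.2 hne)
      apply hw
      ext i
      fin_cases i
      · exact (mul_eq_zero.1 f1).resolve_left h5
      · exact (mul_eq_zero.1 f2).resolve_left h5
    have g1 : (A 0 0 - l) * w 0 + A 0 1 * w 1 = 0 := by rw [hml] at e1; linear_combination -e1
    have g2 : A 1 0 * w 0 + (A 1 1 - l) * w 1 = 0 := by rw [hml] at e2; linear_combination -e2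
    -- `v` and `w` are proportional
    have hprop : v 0 * w 1 - v 1 * w 0 = 0 := by
      by_contra hne
      have k1 : A 0 0 - l = 0 := by
        have : (A 0 0 - l) * (v 0 * w 1 - v 1 * w 0) = 0 := by
          linear_combination w 1 * hv1 - v 1 * g1
        exact (mul_eq_zero.1 this).resolve_right hne
      have k2 : A 0 1 = 0 := by
        have : A 0 1 * (v 0 * w 1 - v 1 * w 0) = 0 := by
          linear_combination v 0 * g1 - w 0 * hv1
        exact (mul_eq_zero.1 this).resolve_right hne
      have k3 : A 1 0 = 0 := by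
        have : A 1 0 * (v 0 * w 1 - v 1 * w 0) = 0 := by
          linear_combination w 1 * hv2 - v 1 * g2
        exact (mul_eq_zero.1 this).resolve_right hne
      have k4 : A 1 1 - l = 0 := by
        have : (A 1 1 - l) * (v 0 * w 1 - v 1 * w 0) = 0 := by
          linear_combination v 0 * g2 - w 0 * hv2
        exact (mul_eq_zero.1 this).resolve_right hne
      apply hns l
      ext i j
      fin_cases i <;> fin_cases j
      · simpa using sub_eq_zero.1 k1
      · simpa using k2
      · simpa using k3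
      · simpa using sub_eq_zero.1 k4
    rw [Projectivization.mk_eq_mk_iff']
    have hv' : v 0 ≠ 0 ∨ v 1 ≠ 0 := by
      by_contra hcon
      push Not at hcon
      apply hv
      ext i
      fin_cases i
      · exact hcon.1
      · exact hcon.2
    rcases hv' with h0 | h0
    · refine ⟨w 0 / v 0, ?_⟩
      ext i
      fin_cases i
      · simp [h0]
      · simp
        field_simp
        linear_combination -hprop
    · refine ⟨w 1 / v 1, ?_⟩
      ext i
      fin_cases i
      · simp
        field_simp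
        linear_combination hprop
      · simp [h0]

/-- `x` commuting (on the projective line) with `n`'s conjugate `x n x⁻¹`: then `x` fixes the fixed
point of `n`. -/
theorem fix_of_conj_commute (n x : SL(2, F)) (p : ℙ F (Fin 2 → F)) (hp : pn n p = p)
    (huniq : ∀ p', pn n p' = p' → p' = p)
    (hc : pn (x * n * x⁻¹) * pn n = pn n * pn (x * n * x⁻¹)) : pn x p = p := by
  have h1 : pn (x * n * x⁻¹) p = p := by
    apply huniq
    have h2 := congrArg (fun f : Equiv.Perm (ℙ F (Fin 2 → F)) => f p) hc
    simp only [Equiv.Perm.mul_apply] at h2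
    rw [hp] at h2
    exact h2.symm
  rw [map_mul, map_mul, map_inv, Equiv.Perm.mul_apply, Equiv.Perm.mul_apply] at h1
  have h3 : pn n ((pn x)⁻¹ p) = (pn x)⁻¹ p := by
    rw [Equiv.Perm.eq_inv_iff_eq]
    exact h1
  have h4 := huniq _ h3
  rw [Equiv.Perm.inv_eq_iff_eq] at h4
  exact h4.symm

end SGL
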