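import Pool.Agent.SGL.Defs

/-! A small lemma on four-groups. -/

namespace SGL

open Matrix
open scoped MatrixGroups LinearAlgebra.Projectivization

variable {F : Type} [Field F]

/-- If conjugation by `X` permutes `{a, b, ab}` (`{1,a,b,ab}` a four-group which is its own
centraliser as far as the powers `X, X², X³` are concerned) then `X³ = 1` or `X⁴ = 1`. -/
theorem v4_lemma {G : Type*} [Group G] (a b X : G) (ha : a * a = 1) (hb : b * b = 1)
    (hab : a * b = b * a) (ha1 : a ≠ 1) (hb1 : b ≠ 1) (hne : a ≠ b)
    (hcent : ∀ k : ℕ, X ^ k * a = a * X ^ k → X ^ k * b = b * X ^ k →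
      X ^ k = 1 ∨ X ^ k = a ∨ X ^ k = b ∨ X ^ k = a * b)
    (hXa : X * a * X⁻¹ = a ∨ X * a * X⁻¹ = b ∨ X * a * X⁻¹ = a * b)
    (hXb : X * b * X⁻¹ = a ∨ X * b * X⁻¹ = b ∨ X * b * X⁻¹ = a * b) :
    X ^ 3 = 1 ∨ X ^ 4 = 1 := by
  have conv : ∀ u v : G, X * u * X⁻¹ = v → X * u = v * X := by
    intro u v h
    rw [← h]; group
  have ha' : ∀ z, a * (a * z) = z := fun z => by rw [← mul_assoc, ha, one_mul]
  have hb' : ∀ z, b * (b * z) = z := fun z => by rw [← mul_assoc, hb, one_mul]
  have ba : b * a = a * b := hab.symm
  have ba' : ∀ z, b * (a * z) = a * (b * z) := fun z => by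
    rw [← mul_assoc, ← mul_assoc, ba]
  have sq : ∀ z : G, (z = 1 ∨ z = a ∨ z = b ∨ z = a * b) → z * z = 1 := by
    rintro z (rfl | rfl | rfl | rfl)
    · simp
    · exact ha
    · exact hb
    · simp only [mul_assoc, ba', ha', hb]
  have h4 : (X ^ 2 * a = a * X ^ 2) → (X ^ 2 * b = b * X ^ 2) → X ^ 4 = 1 := by
    intro h1 h2
    have := sq _ (hcent 2 h1 h2)
    rw [← this, ← pow_add]
  have nab_a : a * b ≠ a := by
    intro h; exact hb1 (by simpa using h)
  have nab_b : a * b ≠ b := by
    intro h; exact ha1 (by simpa using h)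
  have com3 : X * X ^ 3 = X ^ 3 * X := by rw [← pow_succ', ← pow_succ]
  have lft : ∀ u v : G, X * u = v * X → ∀ z, X * (u * z) = v * (X * z) := by
    intro u v h z
    rw [← mul_assoc, h, mul_assoc]
  rcases hXa with h | h | h <;> rcases hXb with k | k | k
  · exfalso
    have := h.trans k.symm
    exact hne (by simpa using this)
  · -- u = a, v = b
    right
    have h1 := conv _ _ h
    have k1 := conv _ _ k
    have := sq _ (hcent 1 (by simpa using h1) (by simpa using k1))
    simp only [pow_one] at this
    have e : X ^ 4 = (X * X) * (X * X) := by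
      simp only [pow_succ, pow_zero, one_mul, mul_assoc]
    rw [e, this, mul_one]
  · -- u = a, v = ab
    right
    have h1 := conv _ _ h
    have k1 := conv _ _ k
    have h1' := lft _ _ h1
    have k1' := lft _ _ k1
    refine h4 ?_ ?_
    · simp only [pow_succ, pow_zero, one_mul, mul_assoc, h1, h1', k1, k1', ha, ha', hb, hb',
        ba, ba', mul_one]
    · simp only [pow_succ, pow_zero, one_mul, mul_assoc, h1, h1', k1, k1', ha, ha', hb, hb',
        ba, ba', mul_one]
  · -- u = b, v = a
    right
    have h1 := conv _ _ h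
    have k1 := conv _ _ k
    have h1' := lft _ _ h1
    have k1' := lft _ _ k1
    refine h4 ?_ ?_
    · simp only [pow_succ, pow_zero, one_mul, mul_assoc, h1, h1', k1, k1', ha, ha', hb, hb',
        ba, ba', mul_one]
    · simp only [pow_succ, pow_zero, one_mul, mul_assoc, h1, h1', k1, k1', ha, ha', hb, hb',
        ba, ba', mul_one]
  · exfalso
    have := h.trans k.symm
    exact hne (by simpa using this)
  · -- u = b, v = ab : order three
    left
    have h1 := conv _ _ h
    have k1 := conv _ _ k
    have h1' := lft _ _ h1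
    have k1' := lft _ _ k1
    have m1 : X * (a * b) = a * X := by
      simp only [mul_assoc, h1, h1', k1, k1', ha, ha', hb, hb', ba, ba', mul_one]
    have c1 : X ^ 3 * a = a * X ^ 3 := by
      simp only [pow_succ, pow_zero, one_mul, mul_assoc, h1, h1', k1, k1', ha, ha', hb, hb',
        ba, ba', mul_one]
    have c2 : X ^ 3 * b = b * X ^ 3 := by
      simp only [pow_succ, pow_zero, one_mul, mul_assoc, h1, h1', k1, k1', ha, ha', hb, hb',
        ba, ba', mul_one]
    rcases hcent 3 c1 c2 with e | e | e | e
    · exact e
    · exfalso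
      rw [e] at com3
      rw [h1] at com3
      exact hne (mul_right_cancel com3).symm
    · exfalso
      rw [e] at com3
      rw [k1] at com3
      exact nab_b (mul_right_cancel com3)
    · exfalso
      rw [e] at com3
      rw [m1] at com3
      exact nab_a (mul_right_cancel com3).symm
  · -- u = ab, v = a : order three
    left
    have h1 := conv _ _ h
    have k1 := conv _ _ k
    have h1' := lft _ _ h1
    have k1' := lft _ _ k1
    have m1 : X * (a * b) = b * X := by
      simp only [mul_assoc, h1, h1', k1, k1', ha, ha', hb, hb', ba, ba', mul_one]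
    have c1 : X ^ 3 * a = a * X ^ 3 := by
      simp only [pow_succ, pow_zero, one_mul, mul_assoc, h1, h1', k1, k1', ha, ha', hb, hb',
        ba, ba', mul_one]
    have c2 : X ^ 3 * b = b * X ^ 3 := by
      simp only [pow_succ, pow_zero, one_mul, mul_assoc, h1, h1', k1, k1', ha, ha', hb, hb',
        ba, ba', mul_one]
    rcases hcent 3 c1 c2 with e | e | e | e
    · exact e
    · exfalso
      rw [e] at com3
      rw [h1] at com3
      exact nab_a (mul_right_cancel com3)
    · exfalso
      rw [e] at com3
      rw [k1] at com3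
      exact hne (mul_right_cancel com3)
    · exfalso
      rw [e] at com3
      rw [m1] at com3
      exact nab_b (mul_right_cancel com3).symm
  · -- u = ab, v = b
    right
    have h1 := conv _ _ h
    have k1 := conv _ _ k
    have h1' := lft _ _ h1
    have k1' := lft _ _ k1
    refine h4 ?_ ?_
    · simp only [pow_succ, pow_zero, one_mul, mul_assoc, h1, h1', k1, k1', ha, ha', hb, hb',
        ba, ba', mul_one]
    · simp only [pow_succ, pow_zero, one_mul, mul_assoc, h1, h1', k1, k1', ha, ha', hb, hb',
        ba, ba', mul_one]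
  · exfalso
    have := h.trans k.symm
    exact hne (by simpa using this)

end SGL
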