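import Pool.Agent.SGL.Defs
import Pool.Agent.SGL.M02
import Pool.Agent.SGL.M20

/-! Trace-zero elements of `SL₂` and four-groups in `PSL₂`. -/

namespace SGL

open Matrix
open scoped MatrixGroups LinearAlgebra.Projectivization

variable {F : Type} [Field F]

/-- If `pn a` and `pn b` commute then `ab = ba` or `ab = -ba`. -/
theorem comm_or_anti (a b : SL(2, F)) (h : pn a * pn b = pn b * pn a) :
    (a : Matrix (Fin 2) (Fin 2) F) * b = b * a ∨
      (a : Matrix (Fin 2) (Fin 2) F) * b = -((b : Matrix (Fin 2) (Fin 2) F) * a) := by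
  rw [← map_mul, ← map_mul, pn_eq_iff] at h
  simpa only [Matrix.SpecialLinearGroup.coe_mul] using h

/-- Two commuting elements of trace zero and nonzero discriminant agree up to sign. -/
theorem eq_of_comm_trace_zero (a b : SL(2, F)) (ha : (a : Matrix (Fin 2) (Fin 2) F).trace = 0)
    (hb : (b : Matrix (Fin 2) (Fin 2) F).trace = 0)
    (had : disc (a : Matrix (Fin 2) (Fin 2) F) ≠ 0)
    (hc : (a : Matrix (Fin 2) (Fin 2) F) * b = b * a) : pn a = pn b := by
  have hda : (a : Matrix (Fin 2) (Fin 2) F).det = 1 := a.2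
  have hdb : (b : Matrix (Fin 2) (Fin 2) F).det = 1 := b.2
  rw [pn_eq_iff]
  generalize (a : Matrix (Fin 2) (Fin 2) F) = A at *
  generalize (b : Matrix (Fin 2) (Fin 2) F) = B at *
  have h2 : (2 : F) ≠ 0 := by
    intro h2
    apply had
    unfold disc
    rw [ha]
    linear_combination (-2 * A.det) * h2
  rw [Matrix.trace_fin_two] at ha hb
  rw [Matrix.det_fin_two] at hda hdb
  have e00 := congrFun (congrFun hc 0) 0
  have e01 := congrFun (congrFun hc 0) 1
  have e10 := congrFun (congrFun hc 1) 0
  simp only [Matrix.mul_apply, Fin.sum_univ_two] at e00 e01 e10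
  set p := A 0 0
  set q := A 0 1
  set r := A 1 0
  set s := B 0 0
  set t := B 0 1
  set u := B 1 0
  have hA : A 1 1 = -p := by linear_combination ha
  have hB : B 1 1 = -s := by linear_combination hb
  rw [hA] at hda e01 e10
  rw [hB] at hdb e01 e10
  have k1 : q * u = r * t := by linear_combination e00
  have k2 : p * t = q * s := by
    have : 2 * (p * t - q * s) = 0 := by linear_combination e01
    rcases mul_eq_zero.1 this with h | h
    · exact absurd h h2
    · linear_combination h
  have k3 : p * u = r * s := by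
    have : 2 * (r * s - p * u) = 0 := by linear_combination e10
    rcases mul_eq_zero.1 this with h | h
    · exact absurd h h2
    · linear_combination -h
  -- the squares agree
  have m1 : (s - p) * (s + p) = 0 := by
    linear_combination (-s ^ 2) * hda + p ^ 2 * hdb + (s * r) * k2 + (p * t) * k3
  have hpm : ∀ ε : F, ε * ε = 1 → s = ε * p → t = ε * q → u = ε * r →
      B = ε • A := by
    intro ε _ h1 h2 h3
    ext i j
    fin_cases i <;> fin_cases j <;> simp only [Fin.zero_eta, Fin.mk_one, Fin.isValue, Matrix.smul_apply, smul_eq_mul]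
    · exact h1
    · exact h2
    · exact h3
    · rw [hA, hB, h1]; ring
  have hfin : ∀ ε : F, (ε = 1 ∨ ε = -1) → s = ε * p → t = ε * q → u = ε * r →
      (A = B ∨ A = -B) := by
    intro ε hε h1 h2 h3
    rcases hε with h | h
    · left
      rw [hpm ε (by rw [h]; ring) h1 h2 h3, h, one_smul]
    · right
      rw [hpm ε (by rw [h]; ring) h1 h2 h3, h, neg_smul, one_smul, neg_neg]
  by_cases hp : p = 0
  · -- then `q r = -1`
    have hq : q ≠ 0 := by
      intro hq
      rw [hp, hq] at hda
      simp at hda
    have hr : r ≠ 0 := by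
      intro hr
      rw [hp, hr] at hda
      simp at hda
    have hs : s = 0 := by
      rw [hp] at k2
      have : q * s = 0 := by linear_combination -k2
      rcases mul_eq_zero.1 this with h | h
      · exact absurd h hq
      · exact h
    have m2 : (t - q) * (t + q) = 0 := by
      rw [hp] at hda
      rw [hs] at hdb
      linear_combination (-t ^ 2) * hda + q ^ 2 * hdb + (q * t) * k1
    rcases mul_eq_zero.1 m2 with h | h
    · have ht : t = q := by linear_combination h
      refine hfin 1 (Or.inl rfl) (by rw [hs, hp]; ring) (by rw [ht]; ring) ?_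
      rw [ht] at k1
      have : q * (u - r) = 0 := by linear_combination k1
      rcases mul_eq_zero.1 this with h | h
      · exact absurd h hq
      · linear_combination h
    · have ht : t = -q := by linear_combination h
      refine hfin (-1) (Or.inr rfl) (by rw [hs, hp]; ring) (by rw [ht]; ring) ?_
      rw [ht] at k1
      have : q * (u + r) = 0 := by linear_combination k1
      rcases mul_eq_zero.1 this with h | h
      · exact absurd h hq
      · linear_combination h
  · rcases mul_eq_zero.1 m1 with h | h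
    · have hs : s = p := by linear_combination h
      refine hfin 1 (Or.inl rfl) (by rw [hs]; ring) ?_ ?_
      · have : p * (t - q) = 0 := by rw [hs] at k2; linear_combination k2
        rcases mul_eq_zero.1 this with h | h
        · exact absurd h hp
        · linear_combination h
      · have : p * (u - r) = 0 := by rw [hs] at k3; linear_combination k3
        rcases mul_eq_zero.1 this with h | h
        · exact absurd h hp
        · linear_combination h
    · have hs : s = -p := by linear_combination h
      refine hfin (-1) (Or.inr rfl) (by rw [hs]; ring) ?_ ?_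
      · have : p * (t + q) = 0 := by rw [hs] at k2; linear_combination k2
        rcases mul_eq_zero.1 this with h | h
        · exact absurd h hp
        · linear_combination h
      · have : p * (u + r) = 0 := by rw [hs] at k3; linear_combination k3
        rcases mul_eq_zero.1 this with h | h
        · exact absurd h hp
        · linear_combination h

/-- A matrix commuting with two anticommuting trace-zero matrices of determinant one is scalar. -/
private theorem scalar_of_comm (h2 : (2 : F) ≠ 0) (A B C : Matrix (Fin 2) (Fin 2) F)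
    (ha : A.trace = 0) (hb : B.trace = 0) (hda : A.det = 1) (hdb : B.det = 1)
    (hab : A * B = -(B * A)) (hca : C * A = A * C) (hcb : C * B = B * C) :
    ∃ c : F, C = c • (1 : Matrix (Fin 2) (Fin 2) F) := by
  rw [Matrix.trace_fin_two] at ha hb
  rw [Matrix.det_fin_two] at hda hdb
  have e := congrFun (congrFun hab 0) 0
  have f00 := congrFun (congrFun hca 0) 0
  have f01 := congrFun (congrFun hca 0) 1
  have f10 := congrFun (congrFun hca 1) 0
  have g00 := congrFun (congrFun hcb 0) 0
  have g01 := congrFun (congrFun hcb 0) 1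
  have g10 := congrFun (congrFun hcb 1) 0
  simp only [Matrix.mul_apply, Matrix.neg_apply, Fin.sum_univ_two] at e f00 f01 f10 g00 g01 g10
  set p := A 0 0
  set q := A 0 1
  set r := A 1 0
  set s := B 0 0
  set t := B 0 1
  set u := B 1 0
  set x := C 0 0
  set y := C 0 1
  set z := C 1 0
  set w := C 1 1
  have hA : A 1 1 = -p := by linear_combination ha
  have hB : B 1 1 = -s := by linear_combination hb
  rw [hA] at hda f01 f10
  rw [hB] at hdb g01 g10
  have hβ : 2 * p * s + q * u + r * t = 0 := by linear_combination e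
  obtain ⟨D1, hD1⟩ : ∃ D1, D1 = x - w := ⟨_, rfl⟩
  obtain ⟨D2, hD2⟩ : ∃ D2, D2 = 2 * y := ⟨_, rfl⟩
  obtain ⟨D3, hD3⟩ : ∃ D3, D3 = 2 * z := ⟨_, rfl⟩
  have a1 : q * D1 = p * D2 := by rw [hD1, hD2]; linear_combination f01
  have a2 : r * D1 = p * D3 := by rw [hD1, hD3]; linear_combination -f10
  have a3 : q * D3 = r * D2 := by rw [hD2, hD3]; linear_combination -2 * f00
  have b1 : t * D1 = s * D2 := by rw [hD1, hD2]; linear_combination g01
  have b2 : u * D1 = s * D3 := by rw [hD1, hD3]; linear_combination -g10
  have b3 : t * D3 = u * D2 := by rw [hD2, hD3]; linear_combination -2 * g00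
  have half : ∀ X : F, 2 * X = 0 → X = 0 := by
    intro X hX
    rcases mul_eq_zero.1 hX with h | h
    · exact absurd h h2
    · exact h
  have hΔ1 : p * s * (D1 ^ 2 + D2 * D3) = 0 := by
    apply half
    linear_combination D1 ^ 2 * hβ - (u * D1) * a1 - (p * D2) * b2 - (t * D1) * a2 - (p * D3) * b1
  have hp1 : p ^ 2 * (D1 ^ 2 + D2 * D3) = -D1 ^ 2 := by
    linear_combination (-D1 ^ 2) * hda - (r * D1) * a1 - (p * D2) * a2
  have hs1 : s ^ 2 * (D1 ^ 2 + D2 * D3) = -D1 ^ 2 := by
    linear_combination (-D1 ^ 2) * hdb - (u * D1) * b1 - (s * D2) * b2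
  have hD10 : D1 = 0 := by
    have : D1 ^ 4 = 0 := by
      have e1 : D1 ^ 4 = (p ^ 2 * (D1 ^ 2 + D2 * D3)) * (s ^ 2 * (D1 ^ 2 + D2 * D3)) := by
        rw [hp1, hs1]; ring
      have e2 : (p ^ 2 * (D1 ^ 2 + D2 * D3)) * (s ^ 2 * (D1 ^ 2 + D2 * D3)) =
          (p * s * (D1 ^ 2 + D2 * D3)) ^ 2 := by ring
      rw [e1, e2, hΔ1]; ring
    exact pow_eq_zero_iff (by norm_num) |>.1 this
  rw [hD10] at a1 a2 b1 b2
  have hq2 : q * t * (D2 * D3) = 0 := by
    apply half
    linear_combination D2 ^ 2 * hβ + (2 * s * D2) * a1 + (t * D2) * a3 + (q * D2) * b3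
  have hq1 : q ^ 2 * (D2 * D3) = -D2 ^ 2 := by
    linear_combination (-D2 ^ 2) * hda + (p * D2) * a1 + (q * D2) * a3
  have ht1 : t ^ 2 * (D2 * D3) = -D2 ^ 2 := by
    linear_combination (-D2 ^ 2) * hdb + (s * D2) * b1 + (t * D2) * b3
  have hD20 : D2 = 0 := by
    have : D2 ^ 4 = 0 := by
      have e1 : D2 ^ 4 = (q ^ 2 * (D2 * D3)) * (t ^ 2 * (D2 * D3)) := by
        rw [hq1, ht1]; ring
      have e2 : (q ^ 2 * (D2 * D3)) * (t ^ 2 * (D2 * D3)) =
          (q * t * (D2 * D3)) ^ 2 := by ring
      rw [e1, e2, hq2]; ring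
    exact pow_eq_zero_iff (by norm_num) |>.1 this
  rw [hD20] at a3 b3
  have hD30 : D3 = 0 := by
    have : D3 ^ 2 = 0 := by
      linear_combination (-D3 ^ 2) * hda + (p * D3) * a2 - (r * D3) * a3
    exact pow_eq_zero_iff (by norm_num) |>.1 this
  have hy : y = 0 := half y (by rw [← hD2]; exact hD20)
  have hz : z = 0 := half z (by rw [← hD3]; exact hD30)
  have hw : w = x := by rw [hD1] at hD10; linear_combination -hD10
  refine ⟨x, ?_⟩
  ext i j
  fin_cases i <;> fin_cases j
  · show x = _; simp
  · show y = _; simp [hy]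
  · show z = _; simp [hz]
  · show w = _; simp [hw]

/-- `a, b ∈ SL₂` of trace zero, anticommuting (odd characteristic). An element `c` of `SL₂` whose
image commutes with `pn a` and `pn b` has image in `{1, pn a, pn b, pn (ab)}`. -/
theorem cent_v4 (h2 : (2 : F) ≠ 0) (a b c : SL(2, F))
    (ha : (a : Matrix (Fin 2) (Fin 2) F).trace = 0)
    (hb : (b : Matrix (Fin 2) (Fin 2) F).trace = 0)
    (hab : (a : Matrix (Fin 2) (Fin 2) F) * b = -((b : Matrix (Fin 2) (Fin 2) F) * a))
    (hca : pn c * pn a = pn a * pn c) (hcb : pn c * pn b = pn b * pn c) :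
    pn c = 1 ∨ pn c = pn a ∨ pn c = pn b ∨ pn c = pn a * pn b := by
  have hda : (a : Matrix (Fin 2) (Fin 2) F).det = 1 := a.2
  have hdb : (b : Matrix (Fin 2) (Fin 2) F).det = 1 := b.2
  have haa : (a : Matrix (Fin 2) (Fin 2) F) * a = -1 := by
    rw [Matrix.trace_fin_two] at ha
    rw [Matrix.det_fin_two] at hda
    ext i j
    fin_cases i <;> fin_cases j <;>
      simp only [Matrix.mul_apply, Fin.sum_univ_two, Fin.zero_eta, Fin.mk_one, Fin.isValue,
        Matrix.neg_apply, Matrix.one_apply_eq, Matrix.one_apply_ne, ne_eq, zero_ne_one, one_ne_zero,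
        not_false_eq_true, neg_zero]
    · linear_combination (a 0 0) * ha - hda
    · linear_combination (a 0 1) * ha
    · linear_combination (a 1 0) * ha
    · linear_combination (a 1 1) * ha - hda
  have hbb : (b : Matrix (Fin 2) (Fin 2) F) * b = -1 := by
    rw [Matrix.trace_fin_two] at hb
    rw [Matrix.det_fin_two] at hdb
    ext i j
    fin_cases i <;> fin_cases j <;>
      simp only [Matrix.mul_apply, Fin.sum_univ_two, Fin.zero_eta, Fin.mk_one, Fin.isValue,
        Matrix.neg_apply, Matrix.one_apply_eq, Matrix.one_apply_ne, ne_eq, zero_ne_one, one_ne_zero,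
        not_false_eq_true, neg_zero]
    · linear_combination (b 0 0) * hb - hdb
    · linear_combination (b 0 1) * hb
    · linear_combination (b 1 0) * hb
    · linear_combination (b 1 1) * hb - hdb
  have sq1 : ∀ g : SL(2, F), (g : Matrix (Fin 2) (Fin 2) F) * g = -1 → pn g * pn g = 1 := by
    intro g hg
    rw [← map_mul, pn_eq_one_iff]
    refine ⟨-1, ?_⟩
    rw [Matrix.SpecialLinearGroup.coe_mul, hg, neg_smul, one_smul]
  have hpa := sq1 a haa
  have hpb := sq1 b hbb
  have hbab : (b : Matrix (Fin 2) (Fin 2) F) * a = -((a : Matrix (Fin 2) (Fin 2) F) * b) := by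
    rw [hab, neg_neg]
  have habab : ((a * b : SL(2, F)) : Matrix (Fin 2) (Fin 2) F) * (a * b : SL(2, F)) = -1 := by
    rw [Matrix.SpecialLinearGroup.coe_mul]
    calc (a : Matrix (Fin 2) (Fin 2) F) * b * (a * b) = a * (b * a) * b := by
          simp only [Matrix.mul_assoc]
      _ = -(((a : Matrix (Fin 2) (Fin 2) F) * a) * (b * b)) := by
          rw [hbab]; simp only [Matrix.mul_assoc, Matrix.mul_neg, Matrix.neg_mul]
      _ = -1 := by rw [haa, hbb]; simp
  have hpab := sq1 (a * b) habab
  have inv_of_sq : ∀ P Q : Equiv.Perm (ℙ F (Fin 2 → F)), Q * Q = 1 → P * Q = 1 → P = Q := by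
    intro P Q hQ hPQ
    calc P = P * (Q * Q) := by rw [hQ, mul_one]
      _ = (P * Q) * Q := by rw [mul_assoc]
      _ = Q := by rw [hPQ, one_mul]
  rcases comm_or_anti c a hca with h1 | h1 <;> rcases comm_or_anti c b hcb with h3 | h3
  · left
    rw [pn_eq_one_iff]
    exact scalar_of_comm h2 _ _ _ ha hb hda hdb hab h1 h3
  · right; left
    apply inv_of_sq _ _ hpa
    rw [← map_mul, pn_eq_one_iff]
    refine scalar_of_comm h2 _ _ _ ha hb hda hdb hab ?_ ?_
    · rw [Matrix.SpecialLinearGroup.coe_mul]
      rw [Matrix.mul_assoc, haa]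
      rw [h1, ← Matrix.mul_assoc, haa]
      simp
    · rw [Matrix.SpecialLinearGroup.coe_mul]
      rw [Matrix.mul_assoc, hab, Matrix.mul_neg, ← Matrix.mul_assoc, h3, Matrix.neg_mul, neg_neg,
        Matrix.mul_assoc]
  · right; right; left
    apply inv_of_sq _ _ hpb
    rw [← map_mul, pn_eq_one_iff]
    refine scalar_of_comm h2 _ _ _ ha hb hda hdb hab ?_ ?_
    · rw [Matrix.SpecialLinearGroup.coe_mul]
      rw [Matrix.mul_assoc, hbab, Matrix.mul_neg, ← Matrix.mul_assoc, h1, Matrix.neg_mul, neg_neg,
        Matrix.mul_assoc]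
    · rw [Matrix.SpecialLinearGroup.coe_mul]
      rw [Matrix.mul_assoc, hbb]
      rw [h3, ← Matrix.mul_assoc, hbb]
      simp
  · right; right; right
    rw [← map_mul]
    apply inv_of_sq _ _ hpab
    rw [← map_mul, pn_eq_one_iff]
    refine scalar_of_comm h2 _ _ _ ha hb hda hdb hab ?_ ?_
    · rw [Matrix.SpecialLinearGroup.coe_mul, Matrix.SpecialLinearGroup.coe_mul]
      have e1 : (c : Matrix (Fin 2) (Fin 2) F) * (a * b) * a = c * b := by
        calc (c : Matrix (Fin 2) (Fin 2) F) * (a * b) * a = c * (a * (b * a)) := by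
              simp only [Matrix.mul_assoc]
          _ = -(c * ((a * a) * b)) := by
              rw [hbab]; simp only [Matrix.mul_assoc, Matrix.mul_neg]
          _ = c * b := by rw [haa]; simp
      have e2 : (a : Matrix (Fin 2) (Fin 2) F) * (c * (a * b)) = c * b := by
        calc (a : Matrix (Fin 2) (Fin 2) F) * (c * (a * b)) = (a * c) * (a * b) := by
              simp only [Matrix.mul_assoc]
          _ = -((c * a) * (a * b)) := by
              rw [h1]; simp
          _ = -(c * ((a * a) * b)) := by simp only [Matrix.mul_assoc]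
          _ = c * b := by rw [haa]; simp
      rw [e1, e2]
    · rw [Matrix.SpecialLinearGroup.coe_mul, Matrix.SpecialLinearGroup.coe_mul]
      have e1 : (c : Matrix (Fin 2) (Fin 2) F) * (a * b) * b = -(c * a) := by
        calc (c : Matrix (Fin 2) (Fin 2) F) * (a * b) * b = c * a * (b * b) := by
              simp only [Matrix.mul_assoc]
          _ = -(c * a) := by rw [hbb]; simp
      have e2 : (b : Matrix (Fin 2) (Fin 2) F) * (c * (a * b)) = -(c * a) := by
        calc (b : Matrix (Fin 2) (Fin 2) F) * (c * (a * b)) = (b * c) * (a * b) := by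
              simp only [Matrix.mul_assoc]
          _ = -((c * b) * (a * b)) := by
              rw [h3]; simp
          _ = -(c * ((b * a) * b)) := by simp only [Matrix.mul_assoc]
          _ = c * (a * (b * b)) := by
              rw [hbab]; simp only [Matrix.mul_assoc, Matrix.neg_mul, Matrix.mul_neg, neg_neg]
          _ = -(c * a) := by rw [hbb]; simp
      rw [e1, e2]

end SGL
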