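import Pool.Agent.SGL.Defs
import Pool.Agent.SGL.M02
import Pool.Agent.SGL.M03
import Pool.Agent.SGL.M06
import Pool.Agent.SGL.M12
import Pool.Agent.SGL.M19
import Pool.Agent.SGL.M20
import Pool.Agent.SGL.M21

/-! Soluble subgroups containing a good elliptic element. -/

namespace SGL

open Matrix
open scoped MatrixGroups LinearAlgebra.Projectivization

variable {F : Type} [Field F]

/-- An element of `SL₂` without fixed points on the projective line whose image has order ≥ 5. -/
def Good (x : SL(2, F)) : Prop :=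
  (∀ p : ℙ F (Fin 2 → F), pn x p ≠ p) ∧ pn x ^ 3 ≠ 1 ∧ pn x ^ 4 ≠ 1

private theorem map_one_right (X : Matrix (Fin 2) (Fin 2) F) : X.map (1 : F ≃+* F) = X := by
  ext i j
  rfl

private theorem sq_of_trace_zero (n : SL(2, F))
    (h : (n : Matrix (Fin 2) (Fin 2) F).trace = 0) : pn n * pn n = 1 := by
  rw [← map_mul, pn_eq_one_iff]
  refine ⟨-1, ?_⟩
  have hd := n.det_coe
  rw [Matrix.det_fin_two] at hd
  rw [Matrix.trace_fin_two] at h
  rw [Matrix.SpecialLinearGroup.coe_mul]
  have h1 : (n : Matrix (Fin 2) (Fin 2) F) 1 1 = -(n : Matrix (Fin 2) (Fin 2) F) 0 0 := by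
    linear_combination h
  ext i j
  fin_cases i <;> fin_cases j <;> simp [Matrix.mul_apply, Fin.sum_univ_two, h1] <;>
    rw [h1] at hd <;> first | linear_combination -hd | ring

/-- A linear element of `normX n` whose image is not an involution commutes with `n`. -/
theorem comm_of_mem_normX (n x : SL(2, F)) (hn : disc (n : Matrix (Fin 2) (Fin 2) F) ≠ 0)
    (hx : ofSL x ∈ normX (n : Matrix (Fin 2) (Fin 2) F)) (h2 : pn x ^ 2 ≠ 1) :
    (x : Matrix (Fin 2) (Fin 2) F) * n = n * x := by
  have h := normX_linear hn hx (right_ofSL x)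
  rw [mat_ofSL] at h
  rcases h with h | h
  · exact h
  · exfalso
    have e00 := congrFun (congrFun h 0) 0
    have e01 := congrFun (congrFun h 0) 1
    have e10 := congrFun (congrFun h 1) 0
    have e11 := congrFun (congrFun h 1) 1
    simp only [Matrix.mul_apply, Fin.sum_univ_two, Matrix.sub_apply, Matrix.smul_apply,
      Matrix.one_apply_eq, smul_eq_mul, mul_one, Matrix.trace_fin_two, ne_eq, zero_ne_one,
      not_false_eq_true, Matrix.one_apply_ne, mul_zero, one_ne_zero] at e00 e01 e10 e11
    have htr : (x : Matrix (Fin 2) (Fin 2) F).trace = 0 := by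
      rw [Matrix.trace_fin_two]
      by_contra ht
      have h01 : (n : Matrix (Fin 2) (Fin 2) F) 0 1 = 0 := by
        have : ((x : Matrix (Fin 2) (Fin 2) F) 0 0 + (x : Matrix (Fin 2) (Fin 2) F) 1 1) *
            (n : Matrix (Fin 2) (Fin 2) F) 0 1 = 0 := by linear_combination e01
        exact (mul_eq_zero.1 this).resolve_left ht
      have h10 : (n : Matrix (Fin 2) (Fin 2) F) 1 0 = 0 := by
        have : ((x : Matrix (Fin 2) (Fin 2) F) 0 0 + (x : Matrix (Fin 2) (Fin 2) F) 1 1) *
            (n : Matrix (Fin 2) (Fin 2) F) 1 0 = 0 := by linear_combination e10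
        exact (mul_eq_zero.1 this).resolve_left ht
      have h00 : (n : Matrix (Fin 2) (Fin 2) F) 0 0 - (n : Matrix (Fin 2) (Fin 2) F) 1 1 = 0 := by
        have : ((x : Matrix (Fin 2) (Fin 2) F) 0 0 + (x : Matrix (Fin 2) (Fin 2) F) 1 1) *
            ((n : Matrix (Fin 2) (Fin 2) F) 0 0 - (n : Matrix (Fin 2) (Fin 2) F) 1 1) = 0 := by
          linear_combination e00 - e11
        exact (mul_eq_zero.1 this).resolve_left ht
      apply hn
      unfold disc
      rw [Matrix.trace_fin_two, Matrix.det_fin_two, h01]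
      linear_combination ((n : Matrix (Fin 2) (Fin 2) F) 0 0 -
        (n : Matrix (Fin 2) (Fin 2) F) 1 1) * h00
    apply h2
    rw [pow_two]
    exact sq_of_trace_zero x htr

theorem disc_ne_zero_of_no_fix [Finite F] (x : SL(2, F)) (hx : ∀ p, pn x p ≠ p) :
    disc (x : Matrix (Fin 2) (Fin 2) F) ≠ 0 := by
  intro h0
  by_cases h1 : pn x = 1
  · have hv : (fun _ : Fin 2 => (1 : F)) ≠ 0 := by
      intro h
      exact one_ne_zero (congrFun h 0)
    apply hx (Projectivization.mk F _ hv)
    rw [h1]
    rfl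
  · obtain ⟨p, hp, -⟩ := unique_fix_of_disc_zero x h0 h1
    exact hx p hp

private theorem lin_of_comm (A n : Matrix (Fin 2) (Fin 2) F) (hn : disc n ≠ 0)
    (h : A * n = n * A) : ∃ a b : F, A = a • (1 : Matrix (Fin 2) (Fin 2) F) + b • n := by
  have e00 := congrFun (congrFun h 0) 0
  have e01 := congrFun (congrFun h 0) 1
  have e10 := congrFun (congrFun h 1) 0
  simp only [Matrix.mul_apply, Fin.sum_univ_two] at e00 e01 e10
  by_cases h01 : n 0 1 = 0
  · by_cases h10 : n 1 0 = 0
    · have hd : n 0 0 - n 1 1 ≠ 0 := by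
        intro h0
        apply hn
        unfold disc
        rw [Matrix.trace_fin_two, Matrix.det_fin_two, h01]
        linear_combination (n 0 0 - n 1 1) * h0
      have hA01 : A 0 1 = 0 := by
        have : A 0 1 * (n 0 0 - n 1 1) = 0 := by
          rw [h01] at e01
          linear_combination -e01
        exact (mul_eq_zero.1 this).resolve_right hd
      have hA10 : A 1 0 = 0 := by
        have : A 1 0 * (n 0 0 - n 1 1) = 0 := by
          rw [h10] at e10
          linear_combination e10
        exact (mul_eq_zero.1 this).resolve_right hd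
      refine ⟨A 0 0 - (A 0 0 - A 1 1) / (n 0 0 - n 1 1) * n 0 0,
        (A 0 0 - A 1 1) / (n 0 0 - n 1 1), ?_⟩
      ext i j
      fin_cases i <;> fin_cases j
      · simp
      · simp [hA01, h01]
      · simp [hA10, h10]
      · simp
        field_simp
        ring
    · refine ⟨A 0 0 - A 1 0 / n 1 0 * n 0 0, A 1 0 / n 1 0, ?_⟩
      ext i j
      fin_cases i <;> fin_cases j
      · simp
      · simp
        field_simp
        linear_combination e00
      · simp
        field_simp
      · simp
        field_simp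
        linear_combination e10
  · refine ⟨A 0 0 - A 0 1 / n 0 1 * n 0 0, A 0 1 / n 0 1, ?_⟩
    ext i j
    fin_cases i <;> fin_cases j
    · simp
    · simp
      field_simp
    · simp
      field_simp
      linear_combination -e00
    · simp
      field_simp
      linear_combination -e01

private theorem mem_of_conj (n h : SL(2, F)) (a b : F)
    (hA : ((h * n * h⁻¹ : SL(2, F)) : Matrix (Fin 2) (Fin 2) F) =
      a • (1 : Matrix (Fin 2) (Fin 2) F) + b • (n : Matrix (Fin 2) (Fin 2) F)) :
    ofSL h ∈ normX (n : Matrix (Fin 2) (Fin 2) F) := by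
  refine ⟨a, b, ?_⟩
  rw [mat_ofSL, right_ofSL, map_one_right, ← hA, ← Matrix.SpecialLinearGroup.coe_mul,
    ← Matrix.SpecialLinearGroup.coe_mul, inv_mul_cancel_right]

private theorem trace_conj (n h : SL(2, F)) :
    ((h * n * h⁻¹ : SL(2, F)) : Matrix (Fin 2) (Fin 2) F).trace =
      (n : Matrix (Fin 2) (Fin 2) F).trace := by
  rw [Matrix.SpecialLinearGroup.coe_mul, Matrix.trace_mul_comm,
    ← Matrix.SpecialLinearGroup.coe_mul, ← mul_assoc, inv_mul_cancel, one_mul]

private theorem conj_ne_one {G : Type*} [Group G] {a : G} (ha : a ≠ 1) (x : G) :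
    x * a * x⁻¹ ≠ 1 := by
  intro h
  apply ha
  have := congrArg (fun y => x⁻¹ * y * x) h
  simpa [mul_assoc] using this

/-- Main lemma. Let `N` be as in `exists_abelian_normal` (for `f = pn`), `n ∈ N` with `pn n ≠ 1`.
If `disc n = 0`: `x` fixes the fixed point of `n` (`fix_of_conj_commute`), contradiction.
If `disc n ≠ 0`, `tr n ≠ 0`: for `h ∈ H` the conjugate `h n h⁻¹` commutes with `n` up to sign
(`comm_or_anti`) and the trace excludes the sign -1 (in characteristic two there is no sign), so
`h n h⁻¹ ∈ F[n]`, `H ≤ normX n`; by `comm_of_mem_normX` `x` commutes with `n` and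
`normX n = normX x` (`normX_eq_of_comm`).
If all such `n` have trace zero (then `(2:F) ≠ 0`): if all of them have the same image then again
`H ≤ normX n`; otherwise two of them anticommute and `v4_lemma` with `cent_v4` gives
`pn x ^ 3 = 1 ∨ pn x ^ 4 = 1`, contradiction. -/
theorem good_sol [Finite F] (x : SL(2, F)) (hx : Good x) (H : Subgroup SL(2, F))
    [Group.IsSolvable H] (hxH : x ∈ H) :
    ∀ h ∈ H, ofSL h ∈ normX (x : Matrix (Fin 2) (Fin 2) F) := by
  obtain ⟨hfix, h3, h4⟩ := hx
  have hx1 : pn x ≠ 1 := by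
    intro h
    apply h3
    rw [h, one_pow]
  have hx2 : pn x ^ 2 ≠ 1 := by
    intro h
    apply h4
    rw [show 4 = 2 * 2 from rfl, pow_mul, h, one_pow]
  have hdx := disc_ne_zero_of_no_fix x hfix
  obtain ⟨N, hNH, hNn, hN1, hNc⟩ := exists_abelian_normal pn H ⟨x, hxH, hx1⟩
  have hdisc : ∀ n ∈ N, pn n ≠ 1 → disc (n : Matrix (Fin 2) (Fin 2) F) ≠ 0 := by
    intro n hn hn1 h0
    obtain ⟨p, hp, hu⟩ := unique_fix_of_disc_zero n h0 hn1
    exact hfix p (fix_of_conj_commute n x p hp hu (hNc _ (hNn x hxH n hn) _ hn))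
  -- it is enough that `H` normalises one algebra
  have hend : ∀ n : SL(2, F), disc (n : Matrix (Fin 2) (Fin 2) F) ≠ 0 →
      (∀ h ∈ H, ofSL h ∈ normX (n : Matrix (Fin 2) (Fin 2) F)) →
      ∀ h ∈ H, ofSL h ∈ normX (x : Matrix (Fin 2) (Fin 2) F) := by
    intro n hn hall h hh
    have hc := comm_of_mem_normX n x hn (hall x hxH) hx2
    rw [normX_eq_of_comm _ _ hdx hn hc]
    exact hall h hh
  by_cases htr : ∃ n ∈ N, pn n ≠ 1 ∧ (n : Matrix (Fin 2) (Fin 2) F).trace ≠ 0
  · obtain ⟨n, hn, hn1, ht⟩ := htr
    refine hend n (hdisc n hn hn1) fun h hh => ?_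
    have hA := hNn h hh n hn
    have hcom : ((h * n * h⁻¹ : SL(2, F)) : Matrix (Fin 2) (Fin 2) F) * n =
        n * ((h * n * h⁻¹ : SL(2, F)) : Matrix (Fin 2) (Fin 2) F) := by
      rcases comm_or_anti _ _ (hNc _ hA _ hn) with h5 | h5
      · exact h5
      · have h6 : ((h * n * h⁻¹ : SL(2, F)) * n * (h * n * h⁻¹ : SL(2, F))⁻¹ : SL(2, F)).1 =
            -(n : Matrix (Fin 2) (Fin 2) F) := by
          rw [Matrix.SpecialLinearGroup.coe_mul, Matrix.SpecialLinearGroup.coe_mul, h5,
            Matrix.neg_mul, ← Matrix.SpecialLinearGroup.coe_mul, ← Matrix.SpecialLinearGroup.coe_mul,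
            mul_inv_cancel_right]
        have h7 := trace_conj n (h * n * h⁻¹)
        rw [h6, Matrix.trace_neg] at h7
        have h8 : (2 : F) * (n : Matrix (Fin 2) (Fin 2) F).trace = 0 := by
          linear_combination -h7
        have h9 : (2 : F) = 0 := (mul_eq_zero.1 h8).resolve_right ht
        rw [h5]
        ext i j
        rw [Matrix.neg_apply]
        generalize ((n : Matrix (Fin 2) (Fin 2) F) *
          ((h * n * h⁻¹ : SL(2, F)) : Matrix (Fin 2) (Fin 2) F)) i j = t
        linear_combination -t * h9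
    obtain ⟨a, b, hab⟩ := lin_of_comm _ _ (hdisc n hn hn1) hcom
    exact mem_of_conj n h a b hab
  · push Not at htr
    obtain ⟨n, hn, hn1⟩ := hN1
    have htn := htr n hn hn1
    have hdn := hdisc n hn hn1
    by_cases hsame : ∀ m ∈ N, pn m ≠ 1 → pn m = pn n
    · refine hend n hdn fun h hh => ?_
      have h5 : pn (h * n * h⁻¹) ≠ 1 := by
        rw [map_mul, map_mul, map_inv]
        exact conj_ne_one hn1 _
      have h6 := hsame _ (hNn h hh n hn) h5
      rcases (pn_eq_iff _ _).1 h6 with h7 | h7
      · exact mem_of_conj n h 0 1 (by rw [h7, zero_smul, one_smul, zero_add])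
      · exact mem_of_conj n h 0 (-1) (by rw [h7, zero_smul, neg_smul, one_smul, zero_add])
    · push Not at hsame
      obtain ⟨m, hm, hm1, hmn⟩ := hsame
      have htm := htr m hm hm1
      have h2 : (2 : F) ≠ 0 := by
        intro h0
        apply hdn
        unfold disc
        rw [htn, n.det_coe]
        linear_combination (-2 : F) * h0
      have hcomm := hNc n hn m hm
      have hanti : (n : Matrix (Fin 2) (Fin 2) F) * m = -((m : Matrix (Fin 2) (Fin 2) F) * n) := by
        rcases comm_or_anti n m hcomm with h5 | h5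
        · exact absurd (eq_of_comm_trace_zero n m htn htm hdn h5).symm hmn
        · exact h5
      have hv4 : ∀ c : SL(2, F), c ∈ N → pn c ≠ 1 →
          pn c = pn n ∨ pn c = pn m ∨ pn c = pn n * pn m := by
        intro c hc hc1
        rcases cent_v4 h2 n m c htn htm hanti (hNc c hc n hn) (hNc c hc m hm) with h5 | h5
        · exact absurd h5 hc1
        · exact h5
      have hconj : ∀ y ∈ N, pn y ≠ 1 → pn x * pn y * (pn x)⁻¹ = pn n ∨
          pn x * pn y * (pn x)⁻¹ = pn m ∨ pn x * pn y * (pn x)⁻¹ = pn n * pn m := by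
        intro y hy hy1
        have h5 : pn (x * y * x⁻¹) = pn x * pn y * (pn x)⁻¹ := by
          rw [map_mul, map_mul, map_inv]
        have h6 := hv4 _ (hNn x hxH y hy) (by rw [h5]; exact conj_ne_one hy1 _)
        rw [h5] at h6
        exact h6
      have hfin := v4_lemma (pn n) (pn m) (pn x) (sq_of_trace_zero n htn) (sq_of_trace_zero m htm)
        hcomm hn1 hm1 (fun h => hmn h.symm) (by
          intro k hk1 hk2
          have h5 : pn (x ^ k) = pn x ^ k := map_pow _ _ _
          rw [← h5] at hk1 hk2 ⊢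
          exact cent_v4 h2 n m (x ^ k) htn htm hanti hk1 hk2) (hconj n hn hn1) (hconj m hm hm1)
      rcases hfin with h5 | h5
      · exact absurd h5 h3
      · exact absurd h5 h4

/-- If `Sol (pn x) (pn z)` and `x` is good then `z` normalises `F[x]`. (Apply `good_sol` to the
preimage of the closure of `{pn x, pn z}` under `pn`, soluble since the kernel of `pn` is central.) -/
theorem neighbour [Finite F] (x z : SL(2, F)) (hx : Good x) (h : Sol (pn x) (pn z)) :
    ofSL z ∈ normX (x : Matrix (Fin 2) (Fin 2) F) := by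
  let K : Subgroup (Equiv.Perm (ℙ F (Fin 2 → F))) := Subgroup.closure {pn x, pn z}
  have hK : Group.IsSolvable K := h
  let H : Subgroup SL(2, F) := K.comap pn
  have hH : Group.IsSolvable H := by
    let g : H →* K := pn.subgroupComap K
    have hker : Group.IsSolvable g.ker := by
      refine Group.isSolvable_of_comm fun a b => ?_
      apply Subtype.ext
      apply Subtype.ext
      apply Subtype.ext
      have h1 : pn (a : H).1 = 1 := congrArg Subtype.val (MonoidHom.mem_ker.1 a.2)
      obtain ⟨c, hc⟩ := (pn_eq_one_iff _).1 h1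
      change ((a : H).1 : Matrix (Fin 2) (Fin 2) F) * ((b : H).1 : Matrix (Fin 2) (Fin 2) F) =
        ((b : H).1 : Matrix (Fin 2) (Fin 2) F) * ((a : H).1 : Matrix (Fin 2) (Fin 2) F)
      rw [hc, Matrix.smul_mul, Matrix.mul_smul, Matrix.one_mul, Matrix.mul_one]
    refine Group.isSolvable_of_ker_le_range g.ker.subtype g ?_
    rw [Subgroup.range_subtype]
  have hxH : x ∈ H := Subgroup.subset_closure (Set.mem_insert _ _)
  have hzH : z ∈ H := Subgroup.subset_closure (Set.mem_insert_of_mem _ rfl)
  exact good_sol x hx H hxH z hzH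

end SGL
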