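import Pool.Agent.SGL.Defs
import Pool.Agent.SGL.M02
import Pool.Agent.SGL.M22

/-! Existence of good elliptic elements. -/

namespace SGL

open Matrix
open scoped MatrixGroups LinearAlgebra.Projectivization

variable {F : Type} [Field F]

/-- Let `K` be the quadratic extension of `F`, `γ` a generator of `Kˣ`, `ξ = γ^(q-1)` of order `q+1`
and norm `1`; `x` = matrix of multiplication by `ξ` in an `F`-basis of `K`. `pn x ^ k = 1` iff
`ξ ^ k ∈ F` iff `ξ^(2k) = 1` (an element of `F` of norm one squares to one), iff `q + 1 ∣ 2k`. -/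
theorem exists_good [Finite F] (h4 : 4 ≤ Nat.card F) (h5 : Nat.card F ≠ 5)
    (h7 : Nat.card F ≠ 7) : ∃ x : SL(2, F), Good x := by
  classical
  obtain ⟨p, hp⟩ := CharP.exists F
  have : Fact p.Prime := ⟨CharP.char_is_prime F p⟩
  let K := FiniteField.Extension F p 2
  let : Field K := inferInstanceAs (Field (FiniteField.Extension F p 2))
  let : Algebra F K := inferInstanceAs (Algebra F (FiniteField.Extension F p 2))
  have : Finite K := inferInstanceAs (Finite (FiniteField.Extension F p 2))
  have : Module.Finite F K := inferInstanceAs (Module.Finite F (FiniteField.Extension F p 2))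
  have hcard : Nat.card K = Nat.card F ^ 2 := FiniteField.natCard_extension F p 2
  have hrank : Module.finrank F K = 2 := FiniteField.finrank_extension F p 2
  set q := Nat.card F with hq
  have hdiv : (q ^ 2 - 1) / (q - 1) = q + 1 := by
    have : q ^ 2 - 1 = (q - 1) * (q + 1) := by
      obtain ⟨r, hr⟩ : ∃ r, q = r + 1 := ⟨q - 1, by omega⟩
      rw [hr]
      have : (r + 1) ^ 2 - 1 = r ^ 2 + 2 * r := by ring_nf; omega
      rw [this]
      simp only [Nat.add_sub_cancel]
      ring
    rw [this]
    exact Nat.mul_div_cancel_left _ (by omega)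
  have hnorm : ∀ y : K, algebraMap F K (Algebra.norm F y) = y ^ (q + 1) := by
    intro y
    rw [FiniteField.algebraMap_norm_eq_pow, hcard, ← hq, hdiv]
  -- generator
  have : Fintype Kˣ := Fintype.ofFinite _
  obtain ⟨γ, hγ⟩ := IsCyclic.exists_generator (α := Kˣ)
  have hoγ : orderOf γ = q ^ 2 - 1 := by
    rw [orderOf_eq_card_of_forall_mem_zpowers hγ, Nat.card_units, hcard]
  have hfac : q ^ 2 - 1 = (q - 1) * (q + 1) := by
    obtain ⟨r, hr⟩ : ∃ r, q = r + 1 := ⟨q - 1, by omega⟩
    rw [hr]
    have : (r + 1) ^ 2 - 1 = r ^ 2 + 2 * r := by ring_nf; omega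
    rw [this]
    simp only [Nat.add_sub_cancel]
    ring
  let ξ : Kˣ := γ ^ (q - 1)
  have hoξ : orderOf ξ = q + 1 := by
    change orderOf (γ ^ (q - 1)) = q + 1
    rw [orderOf_pow_of_dvd (by omega) (by rw [hoγ, hfac]; exact dvd_mul_right _ _), hoγ, hfac]
    exact Nat.mul_div_cancel_left _ (by omega)
  let b : Module.Basis (Fin 2) F K := Module.finBasisOfFinrankEq F K hrank
  have hN : Algebra.norm F (ξ : K) = 1 := by
    apply (algebraMap F K).injective
    rw [hnorm, map_one]
    have : ξ ^ (q + 1) = 1 := by rw [← hoξ]; exact pow_orderOf_eq_one ξ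
    rw [← Units.val_pow_eq_pow_val, this, Units.val_one]
  let x : SL(2, F) := ⟨Algebra.leftMulMatrix b (ξ : K), by
    rw [← Algebra.norm_eq_matrix_det b, hN]⟩
  -- if `ξ ^ k` is in `F` then `q + 1 ∣ 2 k`
  have hF : ∀ (k : ℕ) (c : F), (ξ : K) ^ k = algebraMap F K c → q + 1 ∣ 2 * k := by
    intro k c hc
    have h1 : c ^ 2 = 1 := by
      have h2 : Algebra.norm F ((ξ : K) ^ k) = 1 := by rw [map_pow, hN, one_pow]
      rw [hc, Algebra.norm_algebraMap, hrank] at h2
      exact h2
    have h3 : ξ ^ (2 * k) = 1 := by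
      apply Units.ext
      rw [Units.val_pow_eq_pow_val, mul_comm 2 k, pow_mul, hc, ← map_pow, h1, map_one,
        Units.val_one]
    rw [← hoξ]
    exact orderOf_dvd_of_pow_eq_one h3
  have hpow : ∀ k : ℕ, pn x ^ k = 1 → q + 1 ∣ 2 * k := by
    intro k hk
    rw [← map_pow, pn_eq_one_iff] at hk
    obtain ⟨c, hc⟩ := hk
    apply hF k c
    apply Algebra.leftMulMatrix_injective b
    have h1 : ((x ^ k : SL(2, F)) : Matrix (Fin 2) (Fin 2) F)
        = Algebra.leftMulMatrix b ((ξ : K) ^ k) := by
      rw [Matrix.SpecialLinearGroup.coe_pow, map_pow]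
    rw [← h1, hc, AlgHom.commutes, Algebra.algebraMap_eq_smul_one]
  have hpow3 : pn x ^ 3 ≠ 1 := by
    intro h
    have h1 := Nat.le_of_dvd (by norm_num) (hpow 3 h)
    have h2 := hpow 3 h
    have h3 : q = 4 := by omega
    rw [h3] at h2
    omega
  have hpow4 : pn x ^ 4 ≠ 1 := by
    intro h
    have h1 := Nat.le_of_dvd (by norm_num) (hpow 4 h)
    have h2 := hpow 4 h
    have h3 : q = 4 ∨ q = 6 := by omega
    rcases h3 with h3 | h3
    · rw [h3] at h2
      omega
    · rw [h3] at h2
      omega
  refine ⟨x, ?_, hpow3, hpow4⟩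
  intro P hP
  induction P using Projectivization.ind with | _ v hv =>
  rw [pn_def, toPerm_mk_eq_iff, act_ofSL] at hP
  obtain ⟨c, hc⟩ := hP
  let u : K := b.equivFun.symm v
  have hu : b.repr u = v := by
    ext i
    have := congrFun (b.equivFun.apply_symm_apply v) i
    simpa [u] using this
  have hu0 : u ≠ 0 := by
    intro h
    apply hv
    have := b.equivFun.symm.map_eq_zero_iff.1 h
    exact this
  have h1 : (ξ : K) * u = algebraMap F K c * u := by
    apply b.repr.injective
    apply DFunLike.coe_injective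
    rw [← Algebra.leftMulMatrix_mulVec_repr, hu, ← Algebra.smul_def, map_smul, Finsupp.coe_smul, hu]
    exact hc.symm
  have h2 : (ξ : K) = algebraMap F K c := mul_right_cancel₀ hu0 h1
  have h3 := hF 1 c (by rw [pow_one]; exact h2)
  have h4 := Nat.le_of_dvd (by norm_num) h3
  omega

end SGL
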