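import Pool.Agent.SGL.Defs
import Pool.Agent.SGL.M02
import Pool.Agent.SGL.M22

/-! Good elements depend only on the trace. -/

namespace SGL

open Matrix
open scoped MatrixGroups LinearAlgebra.Projectivization

variable {F : Type} [Field F]

private theorem M24_det (x : SL(2, F)) :
    (x : Matrix (Fin 2) (Fin 2) F) 0 0 * (x : Matrix (Fin 2) (Fin 2) F) 1 1 -
      (x : Matrix (Fin 2) (Fin 2) F) 0 1 * (x : Matrix (Fin 2) (Fin 2) F) 1 0 = 1 := by
  have h := x.det_coe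
  rwa [Matrix.det_fin_two] at h

private theorem M24_det_sub (x : SL(2, F)) (c : F) :
    ((x : Matrix (Fin 2) (Fin 2) F) - c • (1 : Matrix (Fin 2) (Fin 2) F)).det =
      c ^ 2 - (x : Matrix (Fin 2) (Fin 2) F).trace * c + 1 := by
  have h := M24_det x
  rw [Matrix.det_fin_two, Matrix.trace_fin_two]
  simp only [Matrix.sub_apply, Matrix.smul_apply, Matrix.one_apply_eq, smul_eq_mul, mul_one, ne_eq,
    zero_ne_one, not_false_eq_true, Matrix.one_apply_ne, mul_zero, sub_zero, one_ne_zero]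
  linear_combination h

private theorem M24_fix_iff (x : SL(2, F)) :
    (∃ p, pn x p = p) ↔ ∃ c : F, c ^ 2 - (x : Matrix (Fin 2) (Fin 2) F).trace * c + 1 = 0 := by
  constructor
  · rintro ⟨p, hp⟩
    induction p using Projectivization.ind with | _ v hv =>
    rw [pn_def, toPerm_mk_eq_iff, act_ofSL] at hp
    obtain ⟨c, hc⟩ := hp
    refine ⟨c, ?_⟩
    rw [← M24_det_sub, ← Matrix.exists_mulVec_eq_zero_iff]
    refine ⟨v, hv, ?_⟩
    rw [Matrix.sub_mulVec, Matrix.smul_mulVec, Matrix.one_mulVec, ← hc, sub_self]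
  · rintro ⟨c, hc⟩
    rw [← M24_det_sub, ← Matrix.exists_mulVec_eq_zero_iff] at hc
    obtain ⟨v, hv, h⟩ := hc
    rw [Matrix.sub_mulVec, Matrix.smul_mulVec, Matrix.one_mulVec, sub_eq_zero] at h
    refine ⟨Projectivization.mk F v hv, ?_⟩
    rw [pn_def, toPerm_mk_eq_iff, act_ofSL]
    exact ⟨c, h.symm⟩

private theorem M24_ch (x : SL(2, F)) :
    (x : Matrix (Fin 2) (Fin 2) F) * x =
      (x : Matrix (Fin 2) (Fin 2) F).trace • (x : Matrix (Fin 2) (Fin 2) F) - 1 := by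
  have h := M24_det x
  ext i j
  fin_cases i <;> fin_cases j <;>
    simp [Matrix.mul_apply, Fin.sum_univ_two, Matrix.trace_fin_two] <;>
    first | linear_combination -h | linear_combination (0 : F) * h

private theorem M24_cube (x : SL(2, F)) :
    ((x ^ 3 : SL(2, F)) : Matrix (Fin 2) (Fin 2) F) =
      ((x : Matrix (Fin 2) (Fin 2) F).trace ^ 2 - 1) • (x : Matrix (Fin 2) (Fin 2) F) -
        (x : Matrix (Fin 2) (Fin 2) F).trace • (1 : Matrix (Fin 2) (Fin 2) F) := by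
  have h := M24_ch x
  rw [Matrix.SpecialLinearGroup.coe_pow, pow_succ, pow_two, h, Matrix.sub_mul, Matrix.smul_mul, h,
    Matrix.one_mul]
  module

private theorem M24_four (x : SL(2, F)) :
    ((x ^ 4 : SL(2, F)) : Matrix (Fin 2) (Fin 2) F) =
      ((x : Matrix (Fin 2) (Fin 2) F).trace ^ 3 - 2 * (x : Matrix (Fin 2) (Fin 2) F).trace) •
        (x : Matrix (Fin 2) (Fin 2) F) -
        ((x : Matrix (Fin 2) (Fin 2) F).trace ^ 2 - 1) • (1 : Matrix (Fin 2) (Fin 2) F) := by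
  have h := M24_ch x
  rw [pow_succ, Matrix.SpecialLinearGroup.coe_mul, M24_cube, Matrix.sub_mul, Matrix.smul_mul, h,
    Matrix.smul_mul, Matrix.one_mul]
  module

private theorem M24_nonscalar (x : SL(2, F)) (hx : ∀ p, pn x p ≠ p) (c : F) :
    (x : Matrix (Fin 2) (Fin 2) F) ≠ c • (1 : Matrix (Fin 2) (Fin 2) F) := by
  intro h
  have h1 : pn x = 1 := (pn_eq_one_iff x).2 ⟨c, h⟩
  have hv : (fun _ => 1 : Fin 2 → F) ≠ 0 := fun h => one_ne_zero (congrFun h 0)
  apply hx (Projectivization.mk F _ hv)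
  rw [h1]
  rfl

private theorem M24_scal (x : SL(2, F)) (hx : ∀ p, pn x p ≠ p) (a b c : F)
    (h : a • (x : Matrix (Fin 2) (Fin 2) F) - b • (1 : Matrix (Fin 2) (Fin 2) F) =
      c • (1 : Matrix (Fin 2) (Fin 2) F)) : a = 0 := by
  by_contra ha
  apply M24_nonscalar x hx (a⁻¹ * (b + c))
  have h1 : a • (x : Matrix (Fin 2) (Fin 2) F) = (b + c) • (1 : Matrix (Fin 2) (Fin 2) F) := by
    rw [add_smul, ← h]
    abel
  rw [mul_smul, ← h1, smul_smul, inv_mul_cancel₀ ha, one_smul]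

private theorem M24_three_iff (x : SL(2, F)) (hx : ∀ p, pn x p ≠ p) :
    pn x ^ 3 = 1 ↔ (x : Matrix (Fin 2) (Fin 2) F).trace ^ 2 - 1 = 0 := by
  rw [← map_pow, pn_eq_one_iff, M24_cube]
  constructor
  · rintro ⟨c, hc⟩
    exact M24_scal x hx _ _ _ hc
  · intro h
    refine ⟨-(x : Matrix (Fin 2) (Fin 2) F).trace, ?_⟩
    rw [h]
    module

private theorem M24_four_iff (x : SL(2, F)) (hx : ∀ p, pn x p ≠ p) :
    pn x ^ 4 = 1 ↔ (x : Matrix (Fin 2) (Fin 2) F).trace ^ 3 -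
      2 * (x : Matrix (Fin 2) (Fin 2) F).trace = 0 := by
  rw [← map_pow, pn_eq_one_iff, M24_four]
  constructor
  · rintro ⟨c, hc⟩
    exact M24_scal x hx _ _ _ hc
  · intro h
    refine ⟨-((x : Matrix (Fin 2) (Fin 2) F).trace ^ 2 - 1), ?_⟩
    rw [h]
    module

theorem good_of_trace [Finite F] (x y : SL(2, F)) (hx : Good x)
    (ht : (x : Matrix (Fin 2) (Fin 2) F).trace = (y : Matrix (Fin 2) (Fin 2) F).trace) :
    Good y := by
  obtain ⟨h1, h2, h3⟩ := hx
  have hy : ∀ p, pn y p ≠ p := by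
    intro p hp
    have h4 := (M24_fix_iff y).1 ⟨p, hp⟩
    rw [← ht] at h4
    obtain ⟨q, hq⟩ := (M24_fix_iff x).2 h4
    exact h1 q hq
  refine ⟨hy, ?_, ?_⟩
  · rw [Ne, M24_three_iff y hy, ← ht, ← M24_three_iff x h1]
    exact h2
  · rw [Ne, M24_four_iff y hy, ← ht, ← M24_four_iff x h1]
    exact h3

/-- In odd characteristic the discriminant of an element without fixed points is not a square. -/
theorem not_square_disc (h2 : (2 : F) ≠ 0) (x : SL(2, F)) (hx : ∀ p, pn x p ≠ p) :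
    ¬ IsSquare (disc (x : Matrix (Fin 2) (Fin 2) F)) := by
  rintro ⟨s, hs⟩
  unfold disc at hs
  rw [x.det_coe] at hs
  have h4 : (∃ p, pn x p = p) := by
    rw [M24_fix_iff]
    refine ⟨((x : Matrix (Fin 2) (Fin 2) F).trace + s) / 2, ?_⟩
    field_simp
    linear_combination -hs
  obtain ⟨p, hp⟩ := h4
  exact hx p hp

end SGL
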