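import Pool.Agent.SGL.Defs
import Pool.Agent.SGL.M02
import Pool.Agent.SGL.M06
import Pool.Agent.SGL.M22
import Pool.Agent.SGL.M24

/-! Two good elements with trivial intersection of normalisers in `PSL₂`, odd `q`. -/

namespace SGL

open Matrix
open scoped MatrixGroups LinearAlgebra.Projectivization

variable {F : Type} [Field F]

/-- Arithmetic: for `D ≠ 0` in a finite field with odd `q ≥ 5` elements there are a nonsquare of the
form `4D² - τ²`. (With a nonsquare `N` and `m ≠ 0`, `1 + N m² ≠ 0`: `τ = 2D (N m² - 1)/(N m² + 1)`,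
`4D² - τ² = N (4 D m / (N m² + 1))²`.) -/
theorem exists_tau [Finite F] (h2 : (2 : F) ≠ 0) (hF : 4 ≤ Nat.card F) (D : F) (hD : D ≠ 0) :
    ∃ τ : F, ¬ IsSquare (4 * D ^ 2 - τ ^ 2) := by
  classical
  have : Fintype F := Fintype.ofFinite F
  have hchar : ringChar F ≠ 2 := by
    intro h
    apply h2
    have h3 := ringChar.Nat.cast_ringChar (R := F)
    rw [h] at h3
    exact_mod_cast h3
  obtain ⟨N, hN⟩ := FiniteField.exists_nonsquare hchar
  have hm : ∃ m : F, m ≠ 0 ∧ N * m ^ 2 + 1 ≠ 0 := by
    by_cases h1 : N + 1 = 0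
    · have hcard : ({0, 1, -1} : Finset F).card < (Finset.univ : Finset F).card := by
        rw [Finset.card_univ, ← Nat.card_eq_fintype_card]
        exact lt_of_le_of_lt Finset.card_le_three (by omega)
      obtain ⟨m, -, hm⟩ := Finset.exists_mem_notMem_of_card_lt_card hcard
      simp only [Finset.mem_insert, Finset.mem_singleton, not_or] at hm
      refine ⟨m, hm.1, fun h => ?_⟩
      have h3 : N = -1 := by linear_combination h1
      rw [h3] at h
      have h4 : (m - 1) * (m + 1) = 0 := by linear_combination -h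
      rcases mul_eq_zero.1 h4 with h5 | h5
      · exact hm.2.1 (by linear_combination h5)
      · exact hm.2.2 (by linear_combination h5)
    · exact ⟨1, one_ne_zero, by rw [one_pow, mul_one]; exact h1⟩
  obtain ⟨m, hm0, hm1⟩ := hm
  refine ⟨2 * D * (N * m ^ 2 - 1) / (N * m ^ 2 + 1), ?_⟩
  rintro ⟨r, hr⟩
  apply hN
  have h4 : (4 : F) ≠ 0 := by
    have : (4 : F) = 2 * 2 := by norm_num
    rw [this]
    exact mul_ne_zero h2 h2
  refine ⟨r * (N * m ^ 2 + 1) / (4 * D * m), ?_⟩
  have hden : 4 * D * m ≠ 0 := mul_ne_zero (mul_ne_zero h4 hD) hm0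
  have h5 : N * (4 * D * m) ^ 2 = (r * (N * m ^ 2 + 1)) ^ 2 := by
    have h6 : (4 * D ^ 2 - (2 * D * (N * m ^ 2 - 1) / (N * m ^ 2 + 1)) ^ 2) *
        (N * m ^ 2 + 1) ^ 2 = N * (4 * D * m) ^ 2 := by
      rw [div_pow, sub_mul, div_mul_cancel₀ _ (pow_ne_zero 2 hm1)]
      ring
    rw [← h6, hr]
    ring
  field_simp
  linear_combination h5

/-- There are `x, y ∈ SL₂` good such that an element of `SL₂` normalising both `F[x]` and `F[y]` is
scalar. Proof: `D = disc x₀`, `t = tr x₀` of a good `x₀`, `X₀ = !![0, D; 1, 0]`, `x = (t + X₀)/2`;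
`τ` from `exists_tau` (so `τ ≠ 0`); `a, e` with `a² - D e² + τ e - D = 0`
(`FiniteField.exists_root_sum_quadratic`), `Y₀ = !![a, τ - D e; e, -a]`, `y = (t + Y₀)/2`.
`z` in both normalisers satisfies `z X₀ = ± X₀ z`, `z Y₀ = ± Y₀ z` (`normX_linear`). Signs (+,+): `z`
scalar. (+,-) and (-,+): impossible because `tr (X₀ Y₀) = τ ≠ 0`. (-,-): `z = l (X₀ Y₀ - Y₀ X₀)`,
`1 = det z = l² (4D² - τ²)`, contradiction. -/
theorem exists_far_pair [Finite F] (h2 : (2 : F) ≠ 0) (hF : 4 ≤ Nat.card F)
    (h5 : Nat.card F ≠ 5) (h7 : Nat.card F ≠ 7) (x₀ : SL(2, F)) (hx₀ : Good x₀) :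
    ∃ x y : SL(2, F), Good x ∧ Good y ∧ ∀ z : SL(2, F),
      ofSL z ∈ normX (x : Matrix (Fin 2) (Fin 2) F) →
      ofSL z ∈ normX (y : Matrix (Fin 2) (Fin 2) F) → pn z = 1 := by
  classical
  have : Fintype F := Fintype.ofFinite F
  have hchar : ringChar F ≠ 2 := by
    intro h
    apply h2
    have h3 := ringChar.Nat.cast_ringChar (R := F)
    rw [h] at h3
    exact_mod_cast h3
  set t : F := (x₀ : Matrix (Fin 2) (Fin 2) F).trace with ht
  set D : F := t ^ 2 - 4 with hDdef
  have hdisc0 : disc (x₀ : Matrix (Fin 2) (Fin 2) F) = D := by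
    unfold disc
    rw [x₀.det_coe, ← ht, hDdef, mul_one]
  have hD : D ≠ 0 := by
    rw [← hdisc0]
    exact disc_ne_zero_of_no_fix x₀ hx₀.1
  obtain ⟨τ, hτ⟩ := exists_tau h2 hF D hD
  have hτ0 : τ ≠ 0 := by
    intro h
    apply hτ
    exact ⟨2 * D, by rw [h]; ring⟩
  obtain ⟨a, e, hae⟩ : ∃ a e : F, a ^ 2 - D * e ^ 2 + τ * e - D = 0 := by
    have hodd : Fintype.card F % 2 = 1 := FiniteField.odd_card_of_char_ne_two hchar
    have hdf : (Polynomial.C (1 : F) * Polynomial.X ^ 2 + Polynomial.C 0 * Polynomial.X +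
        Polynomial.C 0).degree = 2 := Polynomial.degree_quadratic one_ne_zero
    have hdg : (Polynomial.C (-D) * Polynomial.X ^ 2 + Polynomial.C τ * Polynomial.X +
        Polynomial.C (-D)).degree = 2 := Polynomial.degree_quadratic (neg_ne_zero.2 hD)
    obtain ⟨a, e, h⟩ := FiniteField.exists_root_sum_quadratic hdf hdg hodd
    refine ⟨a, e, ?_⟩
    simp only [Polynomial.eval_add, Polynomial.eval_mul, Polynomial.eval_C, Polynomial.eval_pow,
      Polynomial.eval_X] at h
    linear_combination h
  obtain ⟨g, hg⟩ : ∃ g : F, 2 * g = 1 := ⟨2⁻¹, mul_inv_cancel₀ h2⟩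
  have hg0 : g ≠ 0 := by
    intro h
    rw [h, mul_zero] at hg
    exact zero_ne_one hg
  have hx : (!![t * g, D * g; g, t * g] : Matrix (Fin 2) (Fin 2) F).det = 1 := by
    rw [Matrix.det_fin_two_of, hDdef]
    linear_combination (2 * g + 1) * hg
  have hy : (!![(t + a) * g, (τ - D * e) * g; e * g, (t - a) * g] :
      Matrix (Fin 2) (Fin 2) F).det = 1 := by
    rw [Matrix.det_fin_two_of]
    have h : (t + a) * g * ((t - a) * g) - (τ - D * e) * g * (e * g) =
        g ^ 2 * (t ^ 2 - D) - g ^ 2 * (a ^ 2 - D * e ^ 2 + τ * e - D) := by ring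
    rw [h, hae, hDdef]
    linear_combination (2 * g + 1) * hg
  have htx : (!![t * g, D * g; g, t * g] : Matrix (Fin 2) (Fin 2) F).trace = t := by
    rw [Matrix.trace_fin_two_of]
    linear_combination t * hg
  have hty : (!![(t + a) * g, (τ - D * e) * g; e * g, (t - a) * g] :
      Matrix (Fin 2) (Fin 2) F).trace = t := by
    rw [Matrix.trace_fin_two_of]
    linear_combination t * hg
  have hdx : disc (!![t * g, D * g; g, t * g] : Matrix (Fin 2) (Fin 2) F) ≠ 0 := by
    unfold disc
    rw [hx, htx, mul_one]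
    exact hD
  have hdy : disc (!![(t + a) * g, (τ - D * e) * g; e * g, (t - a) * g] :
      Matrix (Fin 2) (Fin 2) F) ≠ 0 := by
    unfold disc
    rw [hy, hty, mul_one]
    exact hD
  refine ⟨⟨!![t * g, D * g; g, t * g], hx⟩,
    ⟨!![(t + a) * g, (τ - D * e) * g; e * g, (t - a) * g], hy⟩,
    good_of_trace x₀ _ hx₀ (by
      show _ = (!![t * g, D * g; g, t * g] : Matrix (Fin 2) (Fin 2) F).trace
      rw [htx]),
    good_of_trace x₀ _ hx₀ (by
      show _ = (!![(t + a) * g, (τ - D * e) * g; e * g, (t - a) * g] :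
        Matrix (Fin 2) (Fin 2) F).trace
      rw [hty]), fun z hzx hzy => ?_⟩
  have hzx' := normX_linear hdx hzx (right_ofSL z)
  have hzy' := normX_linear hdy hzy (right_ofSL z)
  rw [mat_ofSL, htx] at hzx'
  rw [mat_ofSL, hty] at hzy'
  have hdet := z.det_coe
  rw [pn_eq_one_iff]
  obtain ⟨p, q, r, s, hz⟩ : ∃ p q r s : F, (z : Matrix (Fin 2) (Fin 2) F) = !![p, q; r, s] :=
    ⟨_, _, _, _, Matrix.eta_fin_two _⟩
  rw [hz] at hzx' hzy' hdet ⊢
  rw [Matrix.det_fin_two_of] at hdet
  have cancel : ∀ u : F, g * u = 0 → u = 0 := fun u hu =>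
    (mul_eq_zero.1 hu).resolve_left hg0
  have cancel2 : ∀ u : F, 2 * u = 0 → u = 0 := fun u hu =>
    (mul_eq_zero.1 hu).resolve_left h2
  -- equations from `x`
  have hX : (q = D * r ∧ s = p) ∨ (q = -(D * r) ∧ s = -p) := by
    rcases hzx' with h | h
    · left
      have e1 := congrFun (congrFun h 0) 0
      have e2 := congrFun (congrFun h 1) 0
      simp [Matrix.mul_apply, Fin.sum_univ_two] at e1 e2
      constructor
      · exact sub_eq_zero.1 (cancel _ (by linear_combination e1))
      · exact sub_eq_zero.1 (cancel _ (by linear_combination e2))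
    · right
      have e1 := congrFun (congrFun h 0) 0
      have e2 := congrFun (congrFun h 1) 0
      simp [Matrix.mul_apply, Fin.sum_univ_two] at e1 e2
      constructor
      · have h3 : g * (q + D * r) = 0 := by linear_combination e1 - p * t * hg
        linear_combination cancel _ h3
      · have h3 : g * (s + p) = 0 := by linear_combination e2 - r * t * hg
        linear_combination cancel _ h3
  have hY : (q * e = (τ - D * e) * r ∧ (τ - D * e) * (p - s) = 2 * a * q ∧
      2 * a * r = e * (p - s)) ∨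
      (2 * a * p + q * e + (τ - D * e) * r = 0 ∧ (τ - D * e) * (p + s) = 0 ∧ e * (p + s) = 0 ∧
        r * (τ - D * e) + e * q - 2 * a * s = 0) := by
    rcases hzy' with h | h
    · left
      have e1 := congrFun (congrFun h 0) 0
      have e2 := congrFun (congrFun h 0) 1
      have e3 := congrFun (congrFun h 1) 0
      simp [Matrix.mul_apply, Fin.sum_univ_two] at e1 e2 e3
      refine ⟨?_, ?_, ?_⟩
      · exact sub_eq_zero.1 (cancel _ (by linear_combination e1))
      · exact sub_eq_zero.1 (cancel _ (by linear_combination e2))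
      · exact sub_eq_zero.1 (cancel _ (by linear_combination e3))
    · right
      have e1 := congrFun (congrFun h 0) 0
      have e2 := congrFun (congrFun h 0) 1
      have e3 := congrFun (congrFun h 1) 0
      have e4 := congrFun (congrFun h 1) 1
      simp [Matrix.mul_apply, Fin.sum_univ_two] at e1 e2 e3 e4
      refine ⟨?_, ?_, ?_, ?_⟩
      · exact cancel _ (by linear_combination e1 - p * t * hg)
      · exact cancel _ (by linear_combination e2 - q * t * hg)
      · exact cancel _ (by linear_combination e3 - r * t * hg)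
      · exact cancel _ (by linear_combination e4 - s * t * hg)
  rcases hX with ⟨hq, hs⟩ | ⟨hq, hs⟩ <;> subst hq <;> subst hs
  · rcases hY with ⟨e1, e2, e3⟩ | ⟨e1, e2, e3, e4⟩
    · have hr : r = 0 := by
        by_contra hr
        have ha : a = 0 := by
          have h3 : 2 * (a * r) = 0 := by linear_combination e3
          exact (mul_eq_zero.1 (cancel2 _ h3)).resolve_right hr
        have hτ1 : τ - 2 * D * e = 0 := by
          have h3 : r * (τ - 2 * D * e) = 0 := by linear_combination -e1
          exact (mul_eq_zero.1 h3).resolve_left hr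
        have h4 : D * (e ^ 2 - 1) = 0 := by
          rw [ha] at hae
          linear_combination hae - e * hτ1
        have h5 : e ^ 2 - 1 = 0 := (mul_eq_zero.1 h4).resolve_left hD
        apply hτ
        exact ⟨0, by linear_combination (-(τ + 2 * D * e)) * hτ1 - 4 * D ^ 2 * h5⟩
      refine ⟨s, ?_⟩
      rw [hr]
      ext i j
      fin_cases i <;> fin_cases j <;> simp
    · exfalso
      have hr : r = 0 := by
        have h3 : 2 * (τ * r) = 0 := by linear_combination e1 + e4
        exact (mul_eq_zero.1 (cancel2 _ h3)).resolve_left hτ0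
      have hs0 : s ≠ 0 := by
        intro h
        rw [h, hr] at hdet
        simp at hdet
      have he : e = 0 := by
        have h3 : 2 * (e * s) = 0 := by linear_combination e3
        exact (mul_eq_zero.1 (cancel2 _ h3)).resolve_right hs0
      have h3 : 2 * ((τ - D * e) * s) = 0 := by linear_combination e2
      have h4 := (mul_eq_zero.1 (cancel2 _ h3)).resolve_right hs0
      rw [he] at h4
      exact hτ0 (by linear_combination h4)
  · exfalso
    rcases hY with ⟨e1, e2, e3⟩ | ⟨e1, e2, e3, e4⟩
    · have hr : r = 0 := by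
        have h3 : τ * r = 0 := by linear_combination -e1
        exact (mul_eq_zero.1 h3).resolve_left hτ0
      have hp0 : p ≠ 0 := by
        intro h
        rw [h, hr] at hdet
        simp at hdet
      have he : e = 0 := by
        have h3 : 2 * (e * p) = 0 := by rw [hr] at e3; linear_combination -e3
        exact (mul_eq_zero.1 (cancel2 _ h3)).resolve_right hp0
      have h3 : 2 * ((τ - D * e) * p) = 0 := by rw [hr] at e2; linear_combination e2
      have h4 := (mul_eq_zero.1 (cancel2 _ h3)).resolve_right hp0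
      rw [he] at h4
      exact hτ0 (by linear_combination h4)
    · have h3 : 2 * a * p = r * (2 * D * e - τ) := by linear_combination e1
      have h4 : 4 * D ^ 2 - τ ^ 2 = 4 * D * a ^ 2 - (2 * D * e - τ) ^ 2 := by
        linear_combination (-4 * D) * hae
      have h6 : D * r ^ 2 - p ^ 2 = 1 := by linear_combination hdet
      by_cases hr : r = 0
      · have hp0 : p ≠ 0 := by
          intro h
          rw [h, hr] at h6
          simp at h6
        have ha : a = 0 := by
          rw [hr, zero_mul] at h3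
          have h7 : 2 * (a * p) = 0 := by linear_combination h3
          exact (mul_eq_zero.1 (cancel2 _ h7)).resolve_right hp0
        apply hτ
        refine ⟨p * (2 * D * e - τ), ?_⟩
        rw [h4, ha]
        rw [hr] at h6
        linear_combination ((2 * D * e - τ) ^ 2) * h6
      · apply hτ
        refine ⟨2 * a / r, ?_⟩
        have h8 : r ^ 2 * (4 * D ^ 2 - τ ^ 2) = (2 * a) ^ 2 := by
          rw [h4]
          linear_combination (4 * a ^ 2) * h6 + (2 * a * p + r * (2 * D * e - τ)) * h3
        field_simp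
        linear_combination h8

end SGL
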