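import Pool.Agent.SGL.Defs
import Pool.Agent.SGL.M02
import Pool.Agent.SGL.M06
import Pool.Agent.SGL.M22
import Pool.Agent.SGL.M23

/-! Nonadjacent elements: even `q`, and prime `q`. -/

namespace SGL

open Matrix
open scoped MatrixGroups LinearAlgebra.Projectivization

variable {F : Type} [Field F]

/-- `SL₂(F)` is perfect and nontrivial, hence not soluble. -/
theorem not_solvable_SL [Finite F] (hF : 4 ≤ Nat.card F) : ¬ Group.IsSolvable SL(2, F) := by
  classical
  have : Fintype F := Fintype.ofFinite F
  obtain ⟨m, hm0, hm1⟩ : ∃ m : F, m ≠ 0 ∧ m ^ 2 ≠ 1 := by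
    have hcard : ({0, 1, -1} : Finset F).card < (Finset.univ : Finset F).card := by
      rw [Finset.card_univ, ← Nat.card_eq_fintype_card]
      exact lt_of_le_of_lt Finset.card_le_three (by omega)
    obtain ⟨m, -, hm⟩ := Finset.exists_mem_notMem_of_card_lt_card hcard
    simp only [Finset.mem_insert, Finset.mem_singleton, not_or] at hm
    refine ⟨m, hm.1, fun h => ?_⟩
    have h4 : (m - 1) * (m + 1) = 0 := by linear_combination h
    rcases mul_eq_zero.1 h4 with h5 | h5
    · exact hm.2.1 (by linear_combination h5)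
    · exact hm.2.2 (by linear_combination h5)
  intro hsol
  have hnt : Nontrivial SL(2, F) := by
    refine ⟨⟨Matrix.SpecialLinearGroup.transvection (zero_ne_one : (0 : Fin 2) ≠ 1) 1, 1,
      fun h => ?_⟩⟩
    have h1 := congrArg (fun A : SL(2, F) => (A : Matrix (Fin 2) (Fin 2) F) 0 1) h
    simp [Matrix.SpecialLinearGroup.transvection_coe] at h1
  have h1 := Group.IsSolvable.commutator_lt_top_of_nontrivial SL(2, F)
  rw [Matrix.SL2.commutator_eq_top hm0 hm1] at h1
  exact lt_irrefl _ h1

/-- If `x` is good, some `z` does not generate a soluble group with `x`. (Otherwise all of `SL₂`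
normalises `F[x]` by `neighbour`, so `SL₂` is soluble by `normX_solvable`, but `PSL(2, F)` is simple
nonabelian: `Matrix.ProjectiveSpecialLinearGroup.rank_two_simple`,
`IsSimpleGroup.comm_iff_isSolvable`.) -/
theorem exists_not_sol_of_good [Finite F] (hF : 4 ≤ Nat.card F) (x : SL(2, F)) (hx : Good x) :
    ∃ z : SL(2, F), ¬ Sol (pn x) (pn z) := by
  by_contra hcon
  push Not at hcon
  apply not_solvable_SL hF
  have h1 : ∀ z : SL(2, F), ofSL z ∈ normX (x : Matrix (Fin 2) (Fin 2) F) := fun z =>
    neighbour x z hx (hcon z)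
  have : Group.IsSolvable (normX (x : Matrix (Fin 2) (Fin 2) F)) :=
    normX_solvable _ (disc_ne_zero_of_no_fix x hx.1)
  have hinj : Function.Injective (ofSL.codRestrict (normX (x : Matrix (Fin 2) (Fin 2) F)) h1) := by
    intro a b hab
    have h2 : ofSL a = ofSL b := congrArg Subtype.val hab
    have h3 := congrArg mat h2
    rw [mat_ofSL, mat_ofSL] at h3
    exact Subtype.ext h3
  exact Group.isSolvable_of_isSolvable_injective hinj

/-- If `F` has prime order `p ≥ 5` the two elementary matrices generate `SL₂`, which is not soluble. -/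
theorem exists_not_sol_of_prime [Finite F] (hF : 4 ≤ Nat.card F) (hp : (Nat.card F).Prime) :
    ∃ x z : SL(2, F), ¬ Sol (pn x) (pn z) := by
  set x : SL(2, F) := Matrix.SpecialLinearGroup.transvection (zero_ne_one : (0 : Fin 2) ≠ 1) 1
    with hx
  set z : SL(2, F) := Matrix.SpecialLinearGroup.transvection (one_ne_zero : (1 : Fin 2) ≠ 0) 1
    with hz
  refine ⟨x, z, fun hsol => ?_⟩
  apply not_solvable_SL hF
  have : Fact (Nat.card F).Prime := ⟨hp⟩
  -- powers of a transvection
  have hpow : ∀ (i j : Fin 2) (hij : i ≠ j) (c : F),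
      Matrix.SpecialLinearGroup.transvection hij c ∈
        Subgroup.zpowers (Matrix.SpecialLinearGroup.transvection hij (1 : F)) := by
    intro i j hij c
    have h1 : c ∈ AddSubgroup.zmultiples (1 : F) := mem_zmultiples_of_prime_card rfl one_ne_zero
    obtain ⟨n, hn⟩ := AddSubgroup.mem_zmultiples_iff.1 h1
    rw [← hn]
    have h2 : ∀ n : ℕ, Matrix.SpecialLinearGroup.transvection hij (n • (1 : F)) =
        Matrix.SpecialLinearGroup.transvection hij (1 : F) ^ n := by
      intro n
      induction n with
      | zero => rw [zero_smul, pow_zero, Matrix.SpecialLinearGroup.transvection_coeff_zero]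
      | succ n ih =>
        rw [add_smul, one_smul, Matrix.SpecialLinearGroup.transvection_add, ih, pow_succ]
    obtain ⟨m, rfl | rfl⟩ := n.eq_nat_or_neg
    · rw [natCast_zsmul, h2]
      exact Subgroup.pow_mem _ (Subgroup.mem_zpowers _) m
    · rw [neg_smul, natCast_zsmul, ← Matrix.SpecialLinearGroup.transvection_inv, h2]
      exact Subgroup.inv_mem _ (Subgroup.pow_mem _ (Subgroup.mem_zpowers _) m)
  have htop : Subgroup.closure {x, z} = ⊤ := by
    rw [eq_top_iff]
    rintro A -
    refine Matrix.SL2.transvection_induction (fun A => A ∈ Subgroup.closure {x, z}) ?_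
      (fun _ _ => Subgroup.mul_mem _) A
    intro i j hij c
    have h1 : Matrix.SpecialLinearGroup.transvection hij (1 : F) ∈ Subgroup.closure {x, z} := by
      fin_cases i <;> fin_cases j
      · exact absurd rfl hij
      · exact Subgroup.subset_closure (Or.inl rfl)
      · exact Subgroup.subset_closure (Or.inr rfl)
      · exact absurd rfl hij
    exact (Subgroup.zpowers_le.2 h1) (hpow i j hij c)
  have hrange : (pn (F := F)).range ≤ Subgroup.closure {pn x, pn z} := by
    rw [MonoidHom.range_eq_map, ← htop, MonoidHom.map_closure, Set.image_pair]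
  have hs2 : Group.IsSolvable (Subgroup.closure {pn x, pn z}) := hsol
  have hs1 : Group.IsSolvable (pn (F := F)).range :=
    Group.isSolvable_of_isSolvable_injective (Subgroup.inclusion_injective hrange)
  have hs3 : Group.IsSolvable (pn (F := F)).ker := by
    apply Group.isSolvable_of_comm
    rintro ⟨a, ha⟩ ⟨b, hb⟩
    obtain ⟨c, hc⟩ := (pn_eq_one_iff a).1 ha
    obtain ⟨d, hd⟩ := (pn_eq_one_iff b).1 hb
    apply Subtype.ext
    apply Subtype.ext
    show (a : Matrix (Fin 2) (Fin 2) F) * (b : Matrix (Fin 2) (Fin 2) F) =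
      (b : Matrix (Fin 2) (Fin 2) F) * (a : Matrix (Fin 2) (Fin 2) F)
    rw [hc, hd]
    simp [smul_smul, mul_comm]
  refine Group.isSolvable_of_ker_le_range (pn (F := F)).ker.subtype (pn (F := F)).rangeRestrict ?_
  rw [MonoidHom.ker_rangeRestrict, Subgroup.range_subtype]

end SGL
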