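import Pool.Agent.SGL.Defs
import Pool.Agent.SGL.M02

/-! Elements of order `p` in `PSL₂(F)` acting on the projective line. -/

namespace SGL

open Matrix
open scoped MatrixGroups LinearAlgebra.Projectivization

variable {F : Type} [Field F]

variable (p : ℕ) [Fact p.Prime] [CharP F p]

/-- the rank one nilpotent matrix `x ↦ (v 0 x 1 - v 1 x 0) v` -/
private def M27_N (v : Fin 2 → F) : Matrix (Fin 2) (Fin 2) F :=
  !![-(v 0 * v 1), v 0 * v 0; -(v 1 * v 1), v 0 * v 1]

private theorem M27_N_mulVec (v w : Fin 2 → F) :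
    M27_N v *ᵥ w = (v 0 * w 1 - v 1 * w 0) • v := by
  ext i
  fin_cases i <;> simp [M27_N, Matrix.mulVec, dotProduct, Fin.sum_univ_two] <;> ring

private theorem M27_pn_fix (a : SL(2, F)) (v : Fin 2 → F) (hv : v ≠ 0) :
    pn a (Projectivization.mk F v hv) = Projectivization.mk F v hv ↔
      ∃ c : F, c • v = (a : Matrix (Fin 2) (Fin 2) F) *ᵥ v := by
  rw [pn_def, toPerm_mk_eq_iff, act_ofSL]

/-- `a ^ p` is a scalar -/
private theorem M27_pow (a : SL(2, F)) (hp : pn a ^ p = 1) :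
    ∃ c : F, (a : Matrix (Fin 2) (Fin 2) F) ^ p = c • (1 : Matrix (Fin 2) (Fin 2) F) := by
  rw [← map_pow, pn_eq_one_iff] at hp
  obtain ⟨c, hc⟩ := hp
  exact ⟨c, by rw [← hc, Matrix.SpecialLinearGroup.coe_pow]⟩

private theorem M27_sub_pow (a : Matrix (Fin 2) (Fin 2) F) (μ : F) :
    (a - μ • (1 : Matrix (Fin 2) (Fin 2) F)) ^ p =
      a ^ p - μ ^ p • (1 : Matrix (Fin 2) (Fin 2) F) := by
  have h1 : Commute a (μ • (1 : Matrix (Fin 2) (Fin 2) F)) :=
    (Commute.one_right a).smul_right μ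
  have h2 := sub_pow_char_of_commute (p := p) h1
  rw [h2, smul_pow, one_pow]

private theorem M27_pow_mulVec (a : Matrix (Fin 2) (Fin 2) F) (μ : F) (v : Fin 2 → F)
    (h : μ • v = a *ᵥ v) (n : ℕ) : (a ^ n) *ᵥ v = μ ^ n • v := by
  induction n with
  | zero => simp
  | succ n ih =>
    rw [pow_succ, ← Matrix.mulVec_mulVec, ← h, Matrix.mulVec_smul, ih, smul_smul, pow_succ]
    ring_nf

/-- the structure of the elements fixing `v` -/
private theorem M27_struct (a : SL(2, F)) (hp : pn a ^ p = 1) (v : Fin 2 → F) (hv : v ≠ 0)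
    (μ : F) (h : μ • v = (a : Matrix (Fin 2) (Fin 2) F) *ᵥ v) :
    ∃ s : F, (a : Matrix (Fin 2) (Fin 2) F) =
      μ • (1 : Matrix (Fin 2) (Fin 2) F) + s • M27_N v := by
  obtain ⟨c, hc⟩ := M27_pow p a hp
  have h1 : μ ^ p = c := by
    have h2 := M27_pow_mulVec _ μ v h p
    rw [hc, Matrix.smul_mulVec, Matrix.one_mulVec] at h2
    by_contra hne
    apply hv
    have h3 : (c - μ ^ p) • v = 0 := by rw [sub_smul, h2, sub_self]
    rcases smul_eq_zero.1 h3 with h4 | h4
    · exact absurd (sub_eq_zero.1 h4).symm hne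
    · exact h4
  obtain ⟨B, hB⟩ : ∃ B, B = (a : Matrix (Fin 2) (Fin 2) F) - μ • (1 : Matrix (Fin 2) (Fin 2) F) :=
    ⟨_, rfl⟩
  have hBp : B ^ p = 0 := by
    rw [hB, M27_sub_pow, hc, h1, sub_self]
  have hBv : B *ᵥ v = 0 := by
    rw [hB, Matrix.sub_mulVec, Matrix.smul_mulVec, Matrix.one_mulVec, ← h, sub_self]
  have htr : B.trace = 0 := by
    have h2 : IsNilpotent B := ⟨p, hBp⟩
    exact (Matrix.isNilpotent_trace_of_isNilpotent h2).eq_zero
  have hB0 := congrFun hBv 0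
  have hB1 := congrFun hBv 1
  simp only [Matrix.mulVec, dotProduct, Fin.sum_univ_two, Pi.zero_apply] at hB0 hB1
  rw [Matrix.trace_fin_two] at htr
  have ha : (a : Matrix (Fin 2) (Fin 2) F) = μ • (1 : Matrix (Fin 2) (Fin 2) F) + B := by
    rw [hB]; abel
  rw [ha]
  suffices h5 : ∃ s : F, B = s • M27_N v by
    obtain ⟨s, hs⟩ := h5
    exact ⟨s, by rw [← hs]⟩
  by_cases hv0 : v 0 = 0
  · have hv1 : v 1 ≠ 0 := by
      intro h6
      apply hv
      ext i
      fin_cases i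
      · exact hv0
      · exact h6
    rw [hv0, mul_zero, zero_add] at hB0 hB1
    have e1 : B 0 1 = 0 := (mul_eq_zero.1 hB0).resolve_right hv1
    have e2 : B 1 1 = 0 := (mul_eq_zero.1 hB1).resolve_right hv1
    have e3 : B 0 0 = 0 := by rw [e2, add_zero] at htr; exact htr
    refine ⟨-(B 1 0) / (v 1 * v 1), ?_⟩
    ext i j
    fin_cases i <;> fin_cases j <;> simp [M27_N, e1, e2, e3, hv0]
    field_simp
  · have e1 : B 0 0 = -(B 0 1 * v 1) / v 0 := by
      field_simp
      linear_combination hB0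
    have e2 : B 1 1 = B 0 1 * v 1 / v 0 := by
      have : B 1 1 = - B 0 0 := by linear_combination htr
      rw [this, e1]
      field_simp
    have e3 : B 1 0 = -(B 0 1 * (v 1 * v 1)) / (v 0 * v 0) := by
      have : B 1 0 = -(B 1 1 * v 1) / v 0 := by
        field_simp
        linear_combination hB1
      rw [this, e2]
      field_simp
    refine ⟨B 0 1 / (v 0 * v 0), ?_⟩
    ext i j
    fin_cases i <;> fin_cases j <;> simp [M27_N, e1, e2, e3] <;> field_simp

/-- (`(a - ε)^p = a^p - ε^p = 0` with `a^p = ε = ± 1` so `a - ε` is nilpotent.) -/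
theorem fix_of_pow_p [Finite F] (a : SL(2, F)) (h1 : pn a ≠ 1) (hp : pn a ^ p = 1) :
    ∃! r : ℙ F (Fin 2 → F), pn a r = r := by
  obtain ⟨c, hc⟩ := M27_pow p a hp
  have hc2 : c ^ 2 = 1 := by
    have h2 := congrArg Matrix.det hc
    rw [Matrix.det_pow, a.det_coe, one_pow, Matrix.det_smul, Matrix.det_one, mul_one] at h2
    simpa using h2.symm
  have hcp : c ^ p = c := by
    rw [pow_two] at hc2
    rcases mul_self_eq_one_iff.1 hc2 with h2 | h2
    · rw [h2, one_pow]
    · rw [h2]; exact neg_one_pow_char F p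
  have hB : ((a : Matrix (Fin 2) (Fin 2) F) - c • (1 : Matrix (Fin 2) (Fin 2) F)) ^ p = 0 := by
    rw [M27_sub_pow, hc, hcp, sub_self]
  have hdet : ((a : Matrix (Fin 2) (Fin 2) F) - c • (1 : Matrix (Fin 2) (Fin 2) F)).det = 0 := by
    have h2 := congrArg Matrix.det hB
    rw [Matrix.det_pow, Matrix.det_zero] at h2
    exact (pow_eq_zero_iff (Fact.out : p.Prime).ne_zero).1 h2
  rw [← Matrix.exists_mulVec_eq_zero_iff] at hdet
  obtain ⟨v, hv, hv2⟩ := hdet
  rw [Matrix.sub_mulVec, Matrix.smul_mulVec, Matrix.one_mulVec, sub_eq_zero] at hv2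
  refine ⟨Projectivization.mk F v hv, (M27_pn_fix a v hv).2 ⟨c, hv2.symm⟩, ?_⟩
  intro r hr
  induction r using Projectivization.ind with | _ w hw =>
  obtain ⟨d, hd⟩ := (M27_pn_fix a w hw).1 hr
  obtain ⟨s, hs⟩ := M27_struct p a hp v hv c hv2.symm
  have hs0 : s ≠ 0 := by
    rintro rfl
    apply h1
    rw [pn_eq_one_iff]
    exact ⟨c, by rw [hs, zero_smul, add_zero]⟩
  rw [hs, Matrix.add_mulVec, Matrix.smul_mulVec, Matrix.smul_mulVec, Matrix.one_mulVec,
    M27_N_mulVec] at hd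
  have e0 := congrFun hd 0
  have e1 := congrFun hd 1
  simp only [Pi.smul_apply, Pi.add_apply, smul_eq_mul] at e0 e1
  have hD : s * ((v 0 * w 1 - v 1 * w 0) * (v 0 * w 1 - v 1 * w 0)) = 0 := by
    linear_combination w 0 * e1 - w 1 * e0
  have hD2 : v 0 * w 1 - v 1 * w 0 = 0 := by
    have h3 := (mul_eq_zero.1 hD).resolve_left hs0
    exact mul_self_eq_zero.1 h3
  rw [Projectivization.mk_eq_mk_iff']
  by_cases hv0 : v 0 = 0
  · have hv1 : v 1 ≠ 0 := by
      intro h6
      apply hv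
      ext i
      fin_cases i
      · exact hv0
      · exact h6
    refine ⟨w 1 / v 1, ?_⟩
    ext i
    fin_cases i
    · change w 1 / v 1 * v 0 = w 0
      field_simp
      linear_combination hD2
    · change w 1 / v 1 * v 1 = w 1
      field_simp
  · refine ⟨w 0 / v 0, ?_⟩
    ext i
    fin_cases i
    · change w 0 / v 0 * v 0 = w 0
      field_simp
    · change w 0 / v 0 * v 1 = w 1
      field_simp
      linear_combination -hD2

theorem exists_pow_p [Finite F] (r : ℙ F (Fin 2 → F)) :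
    ∃ a : SL(2, F), pn a ≠ 1 ∧ pn a ^ p = 1 ∧ pn a r = r := by
  induction r using Projectivization.ind with | _ v hv =>
  have hdet : ((1 : Matrix (Fin 2) (Fin 2) F) + M27_N v).det = 1 := by
    rw [Matrix.det_fin_two]
    simp [M27_N]
    ring
  obtain ⟨a, ha⟩ : ∃ a : SL(2, F), (a : Matrix (Fin 2) (Fin 2) F) = 1 + M27_N v :=
    ⟨⟨_, hdet⟩, rfl⟩
  have hNN : M27_N v * M27_N v = 0 := by
    ext i j
    fin_cases i <;> fin_cases j <;> simp [M27_N, Matrix.mul_apply, Fin.sum_univ_two] <;> ring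
  have hNp : M27_N v ^ p = 0 := by
    obtain ⟨k, hk⟩ := Nat.exists_eq_add_of_le (Fact.out : p.Prime).two_le
    rw [hk, pow_add, pow_two, hNN, zero_mul]
  refine ⟨a, ?_, ?_, ?_⟩
  · intro h
    rw [pn_eq_one_iff] at h
    obtain ⟨c, hc⟩ := h
    rw [ha] at hc
    have e1 := congrFun (congrFun hc 0) 1
    have e2 := congrFun (congrFun hc 1) 0
    simp [M27_N] at e1 e2
    apply hv
    ext i
    fin_cases i
    · exact e1
    · exact e2
  · rw [← map_pow, pn_eq_one_iff]
    refine ⟨1, ?_⟩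
    rw [Matrix.SpecialLinearGroup.coe_pow, one_smul]
    have h2 := M27_sub_pow p (a : Matrix (Fin 2) (Fin 2) F) 1
    rw [one_smul, one_pow, one_smul, ha, add_sub_cancel_left, hNp] at h2
    rw [ha]
    exact (sub_eq_zero.1 h2.symm)
  · rw [M27_pn_fix]
    refine ⟨1, ?_⟩
    rw [ha, Matrix.add_mulVec, Matrix.one_mulVec, M27_N_mulVec, one_smul]
    have : v 0 * v 1 - v 1 * v 0 = 0 := by ring
    rw [this, zero_smul, add_zero]

theorem comm_of_fix [Finite F] (a b : SL(2, F)) (ha : pn a ^ p = 1) (hb : pn b ^ p = 1)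
    (r : ℙ F (Fin 2 → F)) (hra : pn a r = r) (hrb : pn b r = r) : pn a * pn b = pn b * pn a := by
  induction r using Projectivization.ind with | _ v hv =>
  rw [M27_pn_fix] at hra hrb
  obtain ⟨μ, hμ⟩ := hra
  obtain ⟨ν, hν⟩ := hrb
  obtain ⟨s, hs⟩ := M27_struct p a ha v hv μ hμ
  obtain ⟨t, ht⟩ := M27_struct p b hb v hv ν hν
  rw [← map_mul, ← map_mul]
  congr 1
  apply Subtype.ext
  change (a : Matrix (Fin 2) (Fin 2) F) * b = b * a
  rw [hs, ht]
  simp only [Matrix.add_mul, Matrix.mul_add, Matrix.smul_mul, Matrix.mul_smul, Matrix.one_mul,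
    Matrix.mul_one, smul_smul]
  module

end SGL
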