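import Pool.Agent.SGL.Defs
import Pool.Agent.SGL.M02
import Pool.Agent.SGL.M27

/-! Automorphisms of `PSL(2, F)` come from permutations of the projective line. -/

namespace SGL

open Matrix
open scoped MatrixGroups LinearAlgebra.Projectivization

variable {F : Type} [Field F]

/-- The permutation representation of `PSL(2, F)`. -/
noncomputable def rho : PSL(2, F) →* Equiv.Perm (ℙ F (Fin 2 → F)) :=
  Projectivization.PSLAction.toPermHom

theorem rho_mk (g : SL(2, F)) : rho (g : PSL(2, F)) = pn g := by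
  ext r
  induction r using Projectivization.ind with | _ v hv =>
  change g • Projectivization.mk F v hv = toPerm F (ofSL g) (Projectivization.mk F v hv)
  rw [toPerm_mk, Projectivization.smul_mk]
  rfl

theorem rho_injective : Function.Injective (rho (F := F)) :=
  Matrix.ProjectiveSpecialLinearGroup.toPermHom_injective

theorem exists_char [Finite F] : ∃ p : ℕ, Fact p.Prime ∧ CharP F p := by
  obtain ⟨p, hp⟩ := CharP.exists F
  exact ⟨p, ⟨CharP.char_is_prime F p⟩, hp⟩

theorem rho_ne_one {u : PSL(2, F)} (h : u ≠ 1) : rho u ≠ 1 := by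
  intro h'
  exact h (rho_injective (h'.trans (map_one rho).symm))

/-- Elements of order `p` have exactly one fixed point. -/
theorem ufix [Finite F] (p : ℕ) [Fact p.Prime] [CharP F p] (u : PSL(2, F)) (h1 : u ≠ 1)
    (hp : u ^ p = 1) : ∃! r : ℙ F (Fin 2 → F), rho u r = r := by
  obtain ⟨a, rfl⟩ := QuotientGroup.mk_surjective u
  have e : rho (QuotientGroup.mk a : PSL(2, F)) = pn a := rho_mk a
  rw [e]
  refine fix_of_pow_p p a ?_ ?_
  · rw [← e]
    exact rho_ne_one h1
  · rw [← e, ← map_pow, hp, map_one]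

/-- Every point is fixed by an element of order `p`. -/
theorem exfix [Finite F] (p : ℕ) [Fact p.Prime] [CharP F p] (r : ℙ F (Fin 2 → F)) :
    ∃ u : PSL(2, F), u ≠ 1 ∧ u ^ p = 1 ∧ rho u r = r := by
  obtain ⟨a, h1, h2, h3⟩ := exists_pow_p (F := F) p r
  refine ⟨(a : PSL(2, F)), ?_, ?_, ?_⟩
  · intro h
    apply h1
    rw [← rho_mk, h, map_one]
  · apply rho_injective
    rw [map_pow, rho_mk, h2, map_one]
  · rw [rho_mk]
    exact h3

theorem cfix [Finite F] (p : ℕ) [Fact p.Prime] [CharP F p] (u v : PSL(2, F)) (hu : u ^ p = 1)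
    (hv : v ^ p = 1) (r : ℙ F (Fin 2 → F)) (hru : rho u r = r) (hrv : rho v r = r) :
    u * v = v * u := by
  obtain ⟨a, rfl⟩ := QuotientGroup.mk_surjective u
  obtain ⟨b, rfl⟩ := QuotientGroup.mk_surjective v
  have ea : rho (QuotientGroup.mk a : PSL(2, F)) = pn a := rho_mk a
  have eb : rho (QuotientGroup.mk b : PSL(2, F)) = pn b := rho_mk b
  apply rho_injective
  rw [map_mul, map_mul, ea, eb]
  refine comm_of_fix p a b ?_ ?_ r ?_ ?_
  · rw [← ea, ← map_pow, hu, map_one]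
  · rw [← eb, ← map_pow, hv, map_one]
  · rw [← ea]
    exact hru
  · rw [← eb]
    exact hrv

theorem exists_point [Finite F] (p : ℕ) [Fact p.Prime] [CharP F p] (θ : MulAut PSL(2, F))
    (r : ℙ F (Fin 2 → F)) :
    ∃ s : ℙ F (Fin 2 → F), ∀ u : PSL(2, F), u ≠ 1 → u ^ p = 1 → rho u r = r →
      rho (θ u) s = s := by
  obtain ⟨u₀, h1, h2, h3⟩ := exfix (F := F) p r
  have hne : θ u₀ ≠ 1 := fun h => h1 ((map_eq_one_iff θ θ.injective).1 h)
  have hpw : θ u₀ ^ p = 1 := by rw [← map_pow, h2, map_one]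
  obtain ⟨s, hs, huniq⟩ := ufix p (θ u₀) hne hpw
  refine ⟨s, fun u hu1 hu2 hu3 => ?_⟩
  have hc : θ u₀ * θ u = θ u * θ u₀ := by
    rw [← map_mul, ← map_mul, cfix p u₀ u h2 hu2 r h3 hu3]
  apply huniq
  have hs' : rho (θ u₀) s = s := hs
  change rho (θ u₀) (rho (θ u) s) = rho (θ u) s
  rw [← Equiv.Perm.mul_apply, ← map_mul, hc, map_mul, Equiv.Perm.mul_apply, hs']

/-- Define `π r` as the fixed point of `θ u` for `u ≠ 1` with `u^p = 1` fixing `r` (`M27`). -/
theorem exists_perm [Finite F] (θ : MulAut PSL(2, F)) :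
    ∃ π : Equiv.Perm (ℙ F (Fin 2 → F)), ∀ a : PSL(2, F), rho (θ a) = π * rho a * π⁻¹ := by
  obtain ⟨p, hp, hc⟩ := exists_char (F := F)
  have key : ∀ η : MulAut PSL(2, F), ∃ f : ℙ F (Fin 2 → F) → ℙ F (Fin 2 → F),
      ∀ r, ∀ u : PSL(2, F), u ≠ 1 → u ^ p = 1 → rho u r = r → rho (η u) (f r) = f r := by
    intro η
    choose f hf using exists_point (F := F) p η
    exact ⟨f, hf⟩
  have comp : ∀ (η : MulAut PSL(2, F)) (f g : ℙ F (Fin 2 → F) → ℙ F (Fin 2 → F)),
      (∀ r, ∀ u : PSL(2, F), u ≠ 1 → u ^ p = 1 → rho u r = r → rho (η u) (f r) = f r) →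
      (∀ r, ∀ u : PSL(2, F), u ≠ 1 → u ^ p = 1 → rho u r = r → rho (η⁻¹ u) (g r) = g r) →
      ∀ r, g (f r) = r := by
    intro η f g hf hg r
    obtain ⟨u, h1, h2, h3⟩ := exfix (F := F) p r
    have h4 := hf r u h1 h2 h3
    have hne : η u ≠ 1 := fun h => h1 ((map_eq_one_iff η η.injective).1 h)
    have hpw : η u ^ p = 1 := by rw [← map_pow, h2, map_one]
    have h5 := hg (f r) (η u) hne hpw h4
    rw [MulAut.inv_apply_self] at h5
    exact (ufix p u h1 h2).unique h5 h3
  obtain ⟨f, hf⟩ := key θ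
  obtain ⟨g, hg⟩ := key θ⁻¹
  have hgf := comp θ f g hf hg
  have hfg := comp θ⁻¹ g f hg (by rw [inv_inv]; exact hf)
  have heq : ∀ (a : PSL(2, F)) (r : ℙ F (Fin 2 → F)), rho (θ a) (f r) = f (rho a r) := by
    intro a r
    obtain ⟨u, h1, h2, h3⟩ := exfix (F := F) p r
    have h4 := hf r u h1 h2 h3
    have hv1 : a * u * a⁻¹ ≠ 1 := by
      intro h
      apply h1
      have : u = a⁻¹ * (a * u * a⁻¹) * a := by group
      rw [this, h]
      group
    have hv2 : (a * u * a⁻¹) ^ p = 1 := by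
      rw [conj_pow, h2]
      group
    have hv3 : rho (a * u * a⁻¹) (rho a r) = rho a r := by
      rw [← Equiv.Perm.mul_apply, ← map_mul]
      have : a * u * a⁻¹ * a = a * u := by group
      rw [this, map_mul, Equiv.Perm.mul_apply, h3]
    have h5 := hf (rho a r) (a * u * a⁻¹) hv1 hv2 hv3
    have h6 : rho (θ (a * u * a⁻¹)) (rho (θ a) (f r)) = rho (θ a) (f r) := by
      rw [← Equiv.Perm.mul_apply, ← map_mul, ← map_mul]
      have : a * u * a⁻¹ * a = a * u := by group
      rw [this, map_mul, map_mul, Equiv.Perm.mul_apply, h4]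
    have hne : θ (a * u * a⁻¹) ≠ 1 := fun h => hv1 ((map_eq_one_iff θ θ.injective).1 h)
    have hpw : θ (a * u * a⁻¹) ^ p = 1 := by rw [← map_pow, hv2, map_one]
    exact (ufix p _ hne hpw).unique h6 h5
  refine ⟨⟨f, g, hgf, hfg⟩, fun a => ?_⟩
  ext r
  change rho (θ a) r = f (rho a (g r))
  rw [← heq a (g r), hfg r]

/-- The centraliser of `PSL₂` in the symmetric group of the projective line is trivial. -/
theorem cent_trivial [Finite F] (π : Equiv.Perm (ℙ F (Fin 2 → F)))
    (h : ∀ a : SL(2, F), π * pn a = pn a * π) : π = 1 := by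
  obtain ⟨p, hp, hc⟩ := exists_char (F := F)
  ext r
  obtain ⟨a, h1, h2, h3⟩ := exists_pow_p (F := F) p r
  have h4 : pn a (π r) = π r := by
    rw [← Equiv.Perm.mul_apply, ← h a, Equiv.Perm.mul_apply, h3]
  exact (fix_of_pow_p p a h1 h2).unique h4 h3

end SGL
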