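import Pool.Agent.SGL.Defs
import Pool.Agent.SGL.M02

/-! Permutations of the projective line normalising `PSL₂(F)` and fixing three points. -/

namespace SGL

open Matrix
open scoped MatrixGroups LinearAlgebra.Projectivization

variable {F : Type} [Field F]

theorem ne_inf' : (![1, 0] : Fin 2 → F) ≠ 0 := by
  intro h; simpa using congrFun h 0

theorem ne_aff' (x : F) : (![x, 1] : Fin 2 → F) ≠ 0 := by
  intro h; simpa using congrFun h 1

/-- The point at infinity. -/
noncomputable def pInf (F : Type) [Field F] : ℙ F (Fin 2 → F) :=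
  Projectivization.mk F ![1, 0] ne_inf'

/-- The affine points. -/
noncomputable def pAff (x : F) : ℙ F (Fin 2 → F) := Projectivization.mk F ![x, 1] (ne_aff' x)

theorem mk_eq_of_det {u v : Fin 2 → F} (hu : u ≠ 0) (hv : v ≠ 0) (h : u 0 * v 1 = u 1 * v 0) :
    Projectivization.mk F u hu = Projectivization.mk F v hv := by
  rw [Projectivization.mk_eq_mk_iff']
  by_cases h0 : v 0 = 0
  · have h1 : v 1 ≠ 0 := by
      intro h1
      apply hv
      ext i; fin_cases i <;> simp [h0, h1]
    have h2 : u 0 = 0 := by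
      rw [h0, mul_zero] at h
      rcases mul_eq_zero.1 h with h | h
      · exact h
      · exact absurd h h1
    refine ⟨u 1 / v 1, ?_⟩
    ext i; fin_cases i
    · simp [h0, h2]
    · simp [h1]
  · refine ⟨u 0 / v 0, ?_⟩
    ext i; fin_cases i
    · simp [h0]
    · simp only [Fin.mk_one, Pi.smul_apply, smul_eq_mul]
      field_simp
      linear_combination h

theorem det_of_mk_eq {u v : Fin 2 → F} (hu : u ≠ 0) (hv : v ≠ 0)
    (h : Projectivization.mk F u hu = Projectivization.mk F v hv) : u 0 * v 1 = u 1 * v 0 := by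
  rw [Projectivization.mk_eq_mk_iff'] at h
  obtain ⟨a, ha⟩ := h
  rw [← ha]
  simp only [Pi.smul_apply, smul_eq_mul]
  ring

theorem mk_eq_iff_det {u v : Fin 2 → F} (hu : u ≠ 0) (hv : v ≠ 0) :
    Projectivization.mk F u hu = Projectivization.mk F v hv ↔ u 0 * v 1 = u 1 * v 0 :=
  ⟨det_of_mk_eq hu hv, mk_eq_of_det hu hv⟩

theorem pAff_inj {x y : F} : pAff x = pAff y ↔ x = y := by
  unfold pAff
  rw [mk_eq_iff_det]
  simp

theorem pAff_ne_pInf (x : F) : pAff x ≠ pInf F := by
  unfold pAff pInf
  rw [Ne, mk_eq_iff_det]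
  simp

theorem pt_cases (P : ℙ F (Fin 2 → F)) : P = pInf F ∨ ∃ x, P = pAff x := by
  induction P using Projectivization.ind with | _ v hv =>
  by_cases h : v 1 = 0
  · left
    unfold pInf
    rw [mk_eq_iff_det]
    simp [h]
  · right
    refine ⟨v 0 / v 1, ?_⟩
    unfold pAff
    rw [mk_eq_iff_det]
    simp only [Matrix.cons_val_zero, Matrix.cons_val_one, mul_one]
    field_simp

theorem pn_mk (a : SL(2, F)) (v : Fin 2 → F) (hv : v ≠ 0) (w : Fin 2 → F) (hw : w ≠ 0) :
    pn a (Projectivization.mk F v hv) = Projectivization.mk F w hw ↔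
      (a 0 0 * v 0 + a 0 1 * v 1) * w 1 = (a 1 0 * v 0 + a 1 1 * v 1) * w 0 := by
  rw [pn_def, toPerm_mk, mk_eq_iff_det, act_ofSL]
  simp [Matrix.mulVec, dotProduct, Fin.sum_univ_two]

theorem pn_inf_iff (a : SL(2, F)) : pn a (pInf F) = pInf F ↔ a 1 0 = 0 := by
  unfold pInf
  rw [pn_mk]
  simp
  exact eq_comm

theorem det_eq' (a : SL(2, F)) : a 0 0 * a 1 1 - a 0 1 * a 1 0 = 1 := by
  have := a.det_coe
  rwa [Matrix.det_fin_two] at this

theorem pn_aff_of_upper (a : SL(2, F)) (h : a 1 0 = 0) (x : F) :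
    pn a (pAff x) = pAff (a 0 0 ^ 2 * x + a 0 0 * a 0 1) := by
  have hd := det_eq' a
  rw [h, mul_zero, sub_zero] at hd
  unfold pAff
  rw [pn_mk]
  simp only [Matrix.cons_val_zero, Matrix.cons_val_one, mul_one, h, zero_mul, zero_add]
  linear_combination (-(a 0 0 * x) - a 0 1) * hd

/-- Every element of a finite field is a sum of two squares. -/
theorem exists_two_sq [Finite F] (y : F) : ∃ c d : F, y = c ^ 2 + d ^ 2 := by
  classical
  have : Fintype F := Fintype.ofFinite F
  by_cases h2 : ringChar F = 2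
  · obtain ⟨c, hc⟩ := FiniteField.isSquare_of_char_two h2 y
    exact ⟨c, 0, by rw [hc]; ring⟩
  · have hodd := FiniteField.odd_card_of_char_ne_two h2
    obtain ⟨c, d, hcd⟩ := FiniteField.exists_root_sum_quadratic (R := F)
      (f := Polynomial.X ^ 2 - Polynomial.C y) (g := Polynomial.X ^ 2)
      (Polynomial.degree_X_pow_sub_C (by norm_num) y) (Polynomial.degree_X_pow 2) hodd
    refine ⟨c, d, ?_⟩
    simp only [Polynomial.eval_sub, Polynomial.eval_pow, Polynomial.eval_X, Polynomial.eval_C]
      at hcd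
    linear_combination -hcd

/-- `π` fixes `∞ = [e₁]`, `0 = [e₂]`, `1 = [e₁+e₂]` and normalises `pn (SL₂)`. Then `π` comes from a field
automorphism: write `π [x:1] = [f x : 1]`; translations give additivity, `x ↦ c² x` gives
`f (c² x) = f (c²) f x`, and every element of a finite field is a sum of two squares. -/
theorem perm_three_points [Finite F] (π : Equiv.Perm (ℙ F (Fin 2 → F)))
    (h0 : ∀ hv : (![1, 0] : Fin 2 → F) ≠ 0,
      π (Projectivization.mk F ![1, 0] hv) = Projectivization.mk F ![1, 0] hv)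
    (h1 : ∀ hv : (![0, 1] : Fin 2 → F) ≠ 0,
      π (Projectivization.mk F ![0, 1] hv) = Projectivization.mk F ![0, 1] hv)
    (h2 : ∀ hv : (![1, 1] : Fin 2 → F) ≠ 0,
      π (Projectivization.mk F ![1, 1] hv) = Projectivization.mk F ![1, 1] hv)
    (hn : ∀ a : SL(2, F), ∃ b : SL(2, F), π * pn a * π⁻¹ = pn b) :
    ∃ σ : F ≃+* F, π = toPerm F (SemidirectProduct.inr σ) := by
  have hI : π (pInf F) = pInf F := h0 ne_inf'
  have hZ : π (pAff 0) = pAff 0 := h1 (ne_aff' 0)
  have hO : π (pAff 1) = pAff 1 := h2 (ne_aff' 1)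
  have hex : ∀ x : F, ∃ y : F, π (pAff x) = pAff y := by
    intro x
    rcases pt_cases (π (pAff x)) with h | h
    · exfalso
      rw [← hI] at h
      exact pAff_ne_pInf x (π.injective h)
    · exact h
  choose f hf using hex
  have f0 : f 0 = 0 := by
    have := hf 0
    rw [hZ, pAff_inj] at this
    exact this.symm
  have f1 : f 1 = 1 := by
    have := hf 1
    rw [hO, pAff_inj] at this
    exact this.symm
  have finj : Function.Injective f := by
    intro x y hxy
    have : π (pAff x) = π (pAff y) := by rw [hf, hf, hxy]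
    exact pAff_inj.1 (π.injective this)
  have fsurj : Function.Surjective f := Finite.surjective_of_injective finj
  -- conjugates of upper triangular elements
  have hconj : ∀ a : SL(2, F), a 1 0 = 0 → ∃ b : SL(2, F), b 1 0 = 0 ∧ ∀ x : F,
      f (a 0 0 ^ 2 * x + a 0 0 * a 0 1) = b 0 0 ^ 2 * f x + b 0 0 * b 0 1 := by
    intro a ha
    obtain ⟨b, hb⟩ := hn a
    have hb' : ∀ P, π (pn a P) = pn b (π P) := by
      intro P
      rw [← hb]
      simp
    have hb10 : b 1 0 = 0 := by
      rw [← pn_inf_iff]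
      have := hb' (pInf F)
      rw [(pn_inf_iff a).2 ha, hI] at this
      exact this.symm
    refine ⟨b, hb10, fun x => ?_⟩
    have := hb' (pAff x)
    rw [pn_aff_of_upper a ha, hf, hf, pn_aff_of_upper b hb10, pAff_inj] at this
    exact this
  have fadd : ∀ x t : F, f (x + t) = f x + f t := by
    intro x t
    by_cases ht : t = 0
    · rw [ht, f0, add_zero, add_zero]
    let a : SL(2, F) := ⟨!![1, t; 0, 1], by simp [Matrix.det_fin_two]⟩
    obtain ⟨b, hb, hb2⟩ := hconj a (by simp [a])
    have hb3 : ∀ x : F, f (x + t) = b 0 0 ^ 2 * f x + b 0 0 * b 0 1 := by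
      intro x
      have := hb2 x
      simpa [a] using this
    have hu : b 0 0 ^ 2 = 1 := by
      by_contra hu
      obtain ⟨z, hz⟩ := fsurj (b 0 0 * b 0 1 / (1 - b 0 0 ^ 2))
      have h3 := hb3 z
      have h4 : (1 - b 0 0 ^ 2) ≠ 0 := fun h => hu (by linear_combination -h)
      have h5 : f (z + t) = f z := by
        rw [h3, hz]
        field_simp
        ring
      have h6 := finj h5
      apply ht
      linear_combination h6
    have h7 := hb3 x
    have h8 := hb3 0
    rw [zero_add, f0, mul_zero, zero_add] at h8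
    rw [h7, hu, one_mul, h8]
  have fsq : ∀ c x : F, f (c ^ 2 * x) = f (c ^ 2) * f x := by
    intro c x
    by_cases hc : c = 0
    · simp [hc, f0]
    let a : SL(2, F) := ⟨!![c, 0; 0, c⁻¹], by simp [Matrix.det_fin_two, hc]⟩
    obtain ⟨b, hb, hb2⟩ := hconj a (by simp [a])
    have hb3 : ∀ x : F, f (c ^ 2 * x) = b 0 0 ^ 2 * f x + b 0 0 * b 0 1 := by
      intro x
      have := hb2 x
      simpa [a] using this
    have h3 := hb3 0
    rw [mul_zero, f0, mul_zero, zero_add] at h3
    have h4 := hb3 1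
    rw [mul_one, f1, mul_one, ← h3, add_zero] at h4
    have h5 := hb3 x
    rw [h5, ← h3, add_zero, h4]
  have fmul : ∀ y x : F, f (y * x) = f y * f x := by
    intro y x
    obtain ⟨c, d, hcd⟩ := exists_two_sq y
    rw [hcd, add_mul, fadd, fadd, fsq, fsq, add_mul]
  let φ : F →+* F :=
    { toFun := f, map_one' := f1, map_mul' := fmul, map_zero' := f0, map_add' := fadd }
  let σ : F ≃+* F := RingEquiv.ofBijective φ ⟨finj, fsurj⟩
  have hσ : ∀ x, σ x = f x := fun x => rfl
  refine ⟨σ, ?_⟩
  have hmat : mat (SemidirectProduct.inr σ : GamL F) = 1 := rfl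
  have hright : (SemidirectProduct.inr σ : GamL F).right = σ := rfl
  ext P
  rcases pt_cases P with rfl | ⟨x, rfl⟩
  · rw [hI]
    unfold pInf
    rw [toPerm_mk, mk_eq_iff_det]
    simp only [act, hmat, hright, Matrix.one_mulVec]
    simp
  · rw [hf]
    unfold pAff
    rw [toPerm_mk, mk_eq_iff_det]
    simp only [act, hmat, hright, Matrix.one_mulVec]
    simp [hσ, f1]

end SGL
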