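import Pool.Agent.SGL.Defs
import Pool.Agent.SGL.M02
import Pool.Agent.SGL.M29

/-! Permutations of the projective line normalising `PSL₂(F)` are semilinear. -/

namespace SGL

open Matrix
open scoped MatrixGroups LinearAlgebra.Projectivization

variable {F : Type} [Field F]

/-- `GL₂` is transitive on triples of distinct points. -/
theorem three_trans (a b c : ℙ F (Fin 2 → F)) (hab : a ≠ b) (hac : a ≠ c) (hbc : b ≠ c) :
    ∃ g : GL (Fin 2) F,
      (∀ hv : (![1, 0] : Fin 2 → F) ≠ 0,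
        toPerm F (ofGL g) (Projectivization.mk F ![1, 0] hv) = a) ∧
      (∀ hv : (![0, 1] : Fin 2 → F) ≠ 0,
        toPerm F (ofGL g) (Projectivization.mk F ![0, 1] hv) = b) ∧
      (∀ hv : (![1, 1] : Fin 2 → F) ≠ 0,
        toPerm F (ofGL g) (Projectivization.mk F ![1, 1] hv) = c) := by
  induction a using Projectivization.ind with | _ u hu =>
  induction b using Projectivization.ind with | _ v hv =>
  induction c using Projectivization.ind with | _ w hw =>
  rw [Ne, mk_eq_iff_det] at hab hac hbc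
  have hD : u 0 * v 1 - u 1 * v 0 ≠ 0 := sub_ne_zero.2 hab
  have hα : w 0 * v 1 - w 1 * v 0 ≠ 0 := by
    intro h
    apply hbc
    linear_combination -h
  have hβ : u 0 * w 1 - u 1 * w 0 ≠ 0 := sub_ne_zero.2 hac
  set α := w 0 * v 1 - w 1 * v 0 with hαd
  set β := u 0 * w 1 - u 1 * w 0 with hβd
  let M : Matrix (Fin 2) (Fin 2) F := !![α * u 0, β * v 0; α * u 1, β * v 1]
  have hM : M.det ≠ 0 := by
    have : M.det = α * β * (u 0 * v 1 - u 1 * v 0) := by
      simp only [M, Matrix.det_fin_two, Matrix.of_apply, Matrix.cons_val', Matrix.cons_val_zero,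
        Matrix.cons_val_one, Matrix.cons_val_fin_one]
      ring
    rw [this]
    exact mul_ne_zero (mul_ne_zero hα hβ) hD
  let g : GL (Fin 2) F := Matrix.GeneralLinearGroup.mkOfDetNeZero M hM
  have hg : ((g : GL (Fin 2) F) : Matrix (Fin 2) (Fin 2) F) = M := rfl
  refine ⟨g, ?_, ?_, ?_⟩
  · intro hv'
    rw [toPerm_mk, mk_eq_iff_det, act_ofGL, hg]
    simp [M, Matrix.mulVec, dotProduct, Fin.sum_univ_two]
    ring
  · intro hv'
    rw [toPerm_mk, mk_eq_iff_det, act_ofGL, hg]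
    simp [M, Matrix.mulVec, dotProduct, Fin.sum_univ_two]
    ring
  · intro hv'
    rw [toPerm_mk, mk_eq_iff_det, act_ofGL, hg]
    simp [M, Matrix.mulVec, dotProduct, Fin.sum_univ_two]
    rw [hαd, hβd]
    ring

theorem perm_semilinear [Finite F] (π : Equiv.Perm (ℙ F (Fin 2 → F)))
    (hn : ∀ a : SL(2, F), ∃ b : SL(2, F), π * pn a * π⁻¹ = pn b) :
    ∃ g : GamL F, π = toPerm F g := by
  obtain ⟨g, hg1, hg2, hg3⟩ := three_trans (π (pInf F)) (π (pAff 0)) (π (pAff 1))
    (fun h => pAff_ne_pInf 0 (π.injective h).symm) (fun h => pAff_ne_pInf 1 (π.injective h).symm)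
    (fun h => zero_ne_one (α := F) (pAff_inj.1 (π.injective h)))
  have hn' : ∀ a : SL(2, F), ∃ b : SL(2, F),
      ((toPerm F (ofGL g))⁻¹ * π) * pn a * ((toPerm F (ofGL g))⁻¹ * π)⁻¹ = pn b := by
    intro a
    obtain ⟨b, hb⟩ := hn a
    have hdet : (((g⁻¹ * Matrix.SpecialLinearGroup.toGL b * g : GL (Fin 2) F)) :
        Matrix (Fin 2) (Fin 2) F).det = 1 := by
      have h1 : ((g⁻¹ * Matrix.SpecialLinearGroup.toGL b * g : GL (Fin 2) F) :
          Matrix (Fin 2) (Fin 2) F)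
          = ((g⁻¹ : GL (Fin 2) F) : Matrix (Fin 2) (Fin 2) F) * (b : Matrix (Fin 2) (Fin 2) F)
            * (g : Matrix (Fin 2) (Fin 2) F) := rfl
      rw [h1, Matrix.det_mul, Matrix.det_mul, b.det_coe, mul_one, ← Matrix.det_mul]
      have h2 : ((g⁻¹ : GL (Fin 2) F) : Matrix (Fin 2) (Fin 2) F) * (g : Matrix (Fin 2) (Fin 2) F)
          = ((g⁻¹ * g : GL (Fin 2) F) : Matrix (Fin 2) (Fin 2) F) := rfl
      rw [h2, inv_mul_cancel]
      simp
    let b' : SL(2, F) := ⟨_, hdet⟩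
    have hb' : Matrix.SpecialLinearGroup.toGL b' = g⁻¹ * Matrix.SpecialLinearGroup.toGL b * g := by
      apply Units.ext
      rfl
    refine ⟨b', ?_⟩
    have h3 : pn b' = (toPerm F (ofGL g))⁻¹ * pn b * toPerm F (ofGL g) := by
      rw [pn_def, pn_def]
      change toPerm F (ofGL (Matrix.SpecialLinearGroup.toGL b')) =
        (toPerm F (ofGL g))⁻¹ * toPerm F (ofGL (Matrix.SpecialLinearGroup.toGL b)) *
          toPerm F (ofGL g)
      rw [hb']
      simp only [map_mul, map_inv]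
    rw [h3, ← hb]
    group
  have hfix : ∀ P Q, toPerm F (ofGL g) P = π Q → P = Q →
      ((toPerm F (ofGL g))⁻¹ * π) Q = Q := by
    intro P Q h1 h2
    rw [Equiv.Perm.mul_apply, Equiv.Perm.inv_eq_iff_eq, ← h1, h2]
  obtain ⟨σ, hσ⟩ := perm_three_points ((toPerm F (ofGL g))⁻¹ * π)
    (fun hv => hfix _ _ (hg1 hv) rfl) (fun hv => hfix _ _ (hg2 hv) rfl)
    (fun hv => hfix _ _ (hg3 hv) rfl) hn'
  refine ⟨ofGL g * SemidirectProduct.inr σ, ?_⟩
  rw [map_mul, ← hσ, mul_inv_cancel_left]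

end SGL
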