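import Pool.Agent.SGL.Defs
import Pool.Agent.SGL.M02
import Pool.Agent.SGL.M28
import Pool.Agent.SGL.M30

/-! The embedding of `Aut PSL(2, F)` into the permutations of the projective line. -/

namespace SGL

open Matrix
open scoped MatrixGroups LinearAlgebra.Projectivization

variable {F : Type} [Field F]

private theorem conj_uniq [Finite F] (π π' : Equiv.Perm (ℙ F (Fin 2 → F)))
    (h : ∀ a : PSL(2, F), π * rho a * π⁻¹ = π' * rho a * π'⁻¹) : π = π' := by
  have key : π'⁻¹ * π = 1 := by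
    apply cent_trivial
    intro a
    have h1 := h (a : PSL(2, F))
    rw [rho_mk] at h1
    have h2 : π * pn a = π' * pn a * π'⁻¹ * π := by
      rw [← h1]; group
    calc π'⁻¹ * π * pn a = π'⁻¹ * (π * pn a) := by rw [mul_assoc]
      _ = π'⁻¹ * (π' * pn a * π'⁻¹ * π) := by rw [h2]
      _ = pn a * (π'⁻¹ * π) := by group
  calc π = π' * (π'⁻¹ * π) := by group
    _ = π' := by rw [key, mul_one]

theorem exists_phi [Finite F] : ∃ Φ : MulAut PSL(2, F) →* Equiv.Perm (ℙ F (Fin 2 → F)),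
    Function.Injective Φ ∧ (∀ θ, ∃ g : GamL F, Φ θ = toPerm F g) ∧
    (∀ a, Φ (MulAut.conj a) = rho a) ∧ (∀ θ a, rho (θ a) = Φ θ * rho a * (Φ θ)⁻¹) := by
  choose φ hφ using fun θ : MulAut PSL(2, F) => exists_perm θ
  have hone : φ 1 = 1 := by
    apply conj_uniq
    intro a
    rw [← hφ 1 a]
    simp
  have hmul : ∀ θ₁ θ₂, φ (θ₁ * θ₂) = φ θ₁ * φ θ₂ := by
    intro θ₁ θ₂
    apply conj_uniq
    intro a
    rw [← hφ (θ₁ * θ₂) a, MulAut.mul_apply, hφ θ₁, hφ θ₂]
    group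
  let Φ : MulAut PSL(2, F) →* Equiv.Perm (ℙ F (Fin 2 → F)) :=
    { toFun := φ, map_one' := hone, map_mul' := hmul }
  refine ⟨Φ, ?_, ?_, ?_, fun θ a => hφ θ a⟩
  · rw [injective_iff_map_eq_one]
    intro θ hθ
    have hθ' : φ θ = 1 := hθ
    ext1 a
    apply rho_injective
    rw [hφ θ a, hθ']
    simp
  · intro θ
    apply perm_semilinear
    intro a
    obtain ⟨b, hb⟩ := QuotientGroup.mk_surjective (θ (a : PSL(2, F)))
    refine ⟨b, ?_⟩
    have h1 := hφ θ (a : PSL(2, F))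
    rw [rho_mk] at h1
    change φ θ * pn a * (φ θ)⁻¹ = pn b
    rw [← h1, ← rho_mk b]
    congr 1
    exact hb.symm
  · intro a
    apply conj_uniq
    intro b
    change φ (MulAut.conj a) * rho b * (φ (MulAut.conj a))⁻¹ = _
    rw [← hφ (MulAut.conj a) b, MulAut.conj_apply, map_mul, map_mul, map_inv]

end SGL
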