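import Pool.Agent.SGL.Defs
import Pool.Agent.SGL.M02
import Pool.Agent.SGL.M03
import Pool.Agent.SGL.M04
import Pool.Agent.SGL.M07
import Pool.Agent.SGL.M16
import Pool.Agent.SGL.M18
import Pool.Agent.SGL.M31

/-! Upper bounds for almost simple groups with socle `PSL(2, F)`. -/

namespace SGL

open Matrix
open scoped MatrixGroups LinearAlgebra.Projectivization

variable {F : Type} [Field F]

/-- Conjugation of `SL₂` by `GL₂`. -/
def conjSL (g : GL (Fin 2) F) (a : SL(2, F)) : SL(2, F) :=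
  ⟨(g : Matrix (Fin 2) (Fin 2) F) * a * ((g⁻¹ : GL (Fin 2) F) : Matrix (Fin 2) (Fin 2) F), by
    rw [Matrix.det_mul, Matrix.det_mul, a.2, mul_one, ← Matrix.det_mul]
    have : ((g : Matrix (Fin 2) (Fin 2) F)) * ((g⁻¹ : GL (Fin 2) F) : Matrix (Fin 2) (Fin 2) F)
        = 1 := by
      rw [← Units.val_mul]; simp
    rw [this, Matrix.det_one]⟩

theorem conjSL_mul (g : GL (Fin 2) F) (a : SL(2, F)) :
    (conjSL g a : Matrix (Fin 2) (Fin 2) F) * g = g * a := by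
  have : ((g⁻¹ : GL (Fin 2) F) : Matrix (Fin 2) (Fin 2) F) * (g : Matrix (Fin 2) (Fin 2) F)
        = 1 := by
    rw [← Units.val_mul]; simp
  change (g : Matrix (Fin 2) (Fin 2) F) * a * ((g⁻¹ : GL (Fin 2) F) : Matrix (Fin 2) (Fin 2) F) * g
    = g * a
  rw [Matrix.mul_assoc, this, Matrix.mul_one]

theorem pn_conjSL (g : GL (Fin 2) F) (a : SL(2, F)) :
    pn (conjSL g a) = toPerm F (ofGL g) * pn a * (toPerm F (ofGL g))⁻¹ := by
  have h : ofSL (conjSL g a) * ofGL g = ofGL g * ofSL a := by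
    apply gam_ext
    · rw [mat_mul, mat_mul]
      have := conjSL_mul g a
      ext i j
      have h2 := congrFun (congrFun this i) j
      simpa using h2
    · rfl
  rw [eq_mul_inv_iff_mul_eq, pn_def, pn_def, ← map_mul, ← map_mul, h]

theorem phi_eq [Finite F] {Φ : MulAut PSL(2, F) →* Equiv.Perm (ℙ F (Fin 2 → F))}
    (hact : ∀ θ a, rho (θ a) = Φ θ * rho a * (Φ θ)⁻¹) (θ : MulAut PSL(2, F))
    (π : Equiv.Perm (ℙ F (Fin 2 → F)))
    (h : ∀ a : SL(2, F), rho (θ (a : PSL(2, F))) = π * pn a * π⁻¹) : Φ θ = π := by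
  have h1 : π⁻¹ * Φ θ = 1 := by
    apply cent_trivial
    intro a
    have h2 := hact θ (a : PSL(2, F))
    rw [h a, rho_mk] at h2
    have h3 : π⁻¹ * (π * pn a * π⁻¹) * Φ θ = π⁻¹ * (Φ θ * pn a * (Φ θ)⁻¹) * Φ θ := by rw [h2]
    have h4 : pn a * (π⁻¹ * Φ θ) = π⁻¹ * Φ θ * pn a := by
      simpa [mul_assoc] using h3
    exact h4.symm
  have := congrArg (fun x => π * x) h1
  simpa using this

/-- The general reduction: from a statement on semilinear maps to one on `G`. -/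
theorem lift_of [Finite F] (G : Subgroup (MulAut PSL(2, F)))
    {Φ : MulAut PSL(2, F) →* Equiv.Perm (ℙ F (Fin 2 → F))} (hinj : Function.Injective Φ)
    (hgam : ∀ θ, ∃ g : GamL F, Φ θ = toPerm F g) (x : G) (hx : x ≠ 1) :
    ∃ g : GamL F, Φ (x : MulAut PSL(2, F)) = toPerm F g ∧ toPerm F g ≠ 1 ∧
      g ∈ (G.map Φ).comap (toPerm F) := by
  obtain ⟨g, hg⟩ := hgam x
  refine ⟨g, hg, ?_, ?_⟩
  · rw [← hg]
    intro h
    apply hx
    have : (x : MulAut PSL(2, F)) = 1 := hinj (by rw [h, map_one])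
    exact Subtype.ext this
  · rw [Subgroup.mem_comap, ← hg]
    exact Subgroup.mem_map_of_mem Φ x.2

theorem unlift [Finite F] (G : Subgroup (MulAut PSL(2, F)))
    {Φ : MulAut PSL(2, F) →* Equiv.Perm (ℙ F (Fin 2 → F))}
    {g : GamL F} (hg : g ∈ (G.map Φ).comap (toPerm F)) (h1 : toPerm F g ≠ 1) :
    ∃ z : G, z ≠ 1 ∧ Φ (z : MulAut PSL(2, F)) = toPerm F g := by
  obtain ⟨z, hz, hzg⟩ := Subgroup.mem_map.1 (Subgroup.mem_comap.1 hg)
  refine ⟨⟨z, hz⟩, ?_, hzg⟩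
  intro h
  apply h1
  have : z = 1 := congrArg Subtype.val h
  rw [← hzg, this, map_one]

theorem sol_unlift [Finite F] (G : Subgroup (MulAut PSL(2, F)))
    {Φ : MulAut PSL(2, F) →* Equiv.Perm (ℙ F (Fin 2 → F))} (hinj : Function.Injective Φ)
    (x y : G) (h : Sol (Φ (x : MulAut PSL(2, F))) (Φ (y : MulAut PSL(2, F)))) : Sol x y := by
  have h1 : Sol ((Φ.comp G.subtype) x) ((Φ.comp G.subtype) y) := h
  rw [sol_map_iff] at h1
  · exact h1
  · exact hinj.comp Subtype.val_injective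

/-- `G` contains the inner automorphisms and the automorphisms induced by `GL₂`. -/
theorem upper_two [Finite F] (hF : 4 ≤ Nat.card F) (G : Subgroup (MulAut PSL(2, F)))
    (hG : ∀ g : GL (Fin 2) F, ∃ α ∈ G, ∀ a b : SL(2, F),
      (b : Matrix (Fin 2) (Fin 2) F) * g = g * a → α (a : PSL(2, F)) = (b : PSL(2, F))) :
    (solGraph G).ediam ≤ 2 := by
  obtain ⟨Φ, hinj, hgam, hconj, hact⟩ := exists_phi (F := F)
  apply ediam_le_two
  intro x y hx hy
  obtain ⟨x', hx1, hx2, hx3⟩ := lift_of G hinj hgam x hx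
  obtain ⟨y', hy1, hy2, hy3⟩ := lift_of G hinj hgam y hy
  have hGL : (ofGL (F := F)).range ≤ (G.map Φ).comap (toPerm F) := by
    rintro _ ⟨g, rfl⟩
    obtain ⟨α, hα, hα2⟩ := hG g
    rw [Subgroup.mem_comap, Subgroup.mem_map]
    refine ⟨α, hα, ?_⟩
    apply phi_eq hact
    intro a
    rw [hα2 a (conjSL g a) (conjSL_mul g a), rho_mk, pn_conjSL]
  obtain ⟨z, hz, hz1, hxz, hzy⟩ := dist_two hF _ hGL hx3 hy3
  obtain ⟨w, hw, hw2⟩ := unlift G hz hz1
  refine ⟨w, hw, ?_, ?_⟩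
  · apply sol_unlift G hinj
    rw [hw2, hx1]; exact hxz.sol
  · apply sol_unlift G hinj
    rw [hw2, hy1]; exact hzy.sol

theorem ofSL_range_le [Finite F] (G : Subgroup (MulAut PSL(2, F)))
    (hG : (MulAut.conj (G := PSL(2, F))).range ≤ G)
    {Φ : MulAut PSL(2, F) →* Equiv.Perm (ℙ F (Fin 2 → F))}
    (hconj : ∀ a, Φ (MulAut.conj a) = rho a) :
    (ofSL (F := F)).range ≤ (G.map Φ).comap (toPerm F) := by
  rintro _ ⟨a, rfl⟩
  rw [Subgroup.mem_comap, Subgroup.mem_map]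
  refine ⟨MulAut.conj (a : PSL(2, F)), hG ⟨_, rfl⟩, ?_⟩
  rw [hconj, rho_mk]; rfl

theorem upper_three [Finite F] (hF : 4 ≤ Nat.card F) (h2 : (2 : F) ≠ 0)
    (G : Subgroup (MulAut PSL(2, F)))
    (hG : (MulAut.conj (G := PSL(2, F))).range ≤ G) :
    (solGraph G).ediam ≤ 3 := by
  obtain ⟨Φ, hinj, hgam, hconj, hact⟩ := exists_phi (F := F)
  apply ediam_le_three
  intro x y hx hy
  obtain ⟨x', hx1, hx2, hx3⟩ := lift_of G hinj hgam x hx
  obtain ⟨y', hy1, hy2, hy3⟩ := lift_of G hinj hgam y hy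
  obtain ⟨z₁, hz1, z₂, hz2, h1, h2', s1, s2, s3⟩ :=
    dist_three hF h2 _ (ofSL_range_le G hG hconj) hx3 hy3
  obtain ⟨w₁, hw1, hw1'⟩ := unlift G hz1 h1
  obtain ⟨w₂, hw2, hw2'⟩ := unlift G hz2 h2'
  refine ⟨w₁, w₂, hw1, hw2, ?_, ?_, ?_⟩
  · apply sol_unlift G hinj; rw [hx1, hw1']; exact s1
  · apply sol_unlift G hinj; rw [hw1', hw2']; exact s2
  · apply sol_unlift G hinj; rw [hy1, hw2']; exact s3

/-- In characteristic two every element of `GL₂` is a scalar times an element of `SL₂`. -/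
theorem upper_two_even [Finite F] (hF : 4 ≤ Nat.card F) (h2 : (2 : F) = 0)
    (G : Subgroup (MulAut PSL(2, F)))
    (hG : (MulAut.conj (G := PSL(2, F))).range ≤ G) :
    (solGraph G).ediam ≤ 2 := by
  apply upper_two hF G
  intro g
  -- a square root of the determinant
  have hchar : CharP F 2 := by
    apply CharTwo.of_one_ne_zero_of_two_eq_zero one_ne_zero h2
  have : Fact (Nat.Prime 2) := ⟨Nat.prime_two⟩
  have hsq : ∀ a : F, ∃ b : F, b * b = a := by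
    intro a
    obtain ⟨b, hb⟩ := FiniteField.isSquare_of_char_two (ringChar.eq_iff.2 hchar) a
    exact ⟨b, hb.symm⟩
  obtain ⟨s, hs⟩ := hsq (g : Matrix (Fin 2) (Fin 2) F).det
  have hdet : (g : Matrix (Fin 2) (Fin 2) F).det ≠ 0 :=
    ((Matrix.isUnit_iff_isUnit_det _).1 g.isUnit).ne_zero
  have hs0 : s ≠ 0 := by
    rintro rfl; apply hdet; rw [← hs]; simp
  let h : SL(2, F) := ⟨s⁻¹ • (g : Matrix (Fin 2) (Fin 2) F), by
    rw [Matrix.det_smul, Fintype.card_fin, ← hs]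
    field_simp⟩
  refine ⟨MulAut.conj (h : PSL(2, F)), hG ⟨_, rfl⟩, ?_⟩
  intro a b hab
  rw [MulAut.conj_apply, mul_inv_eq_iff_eq_mul]
  have : h * a = b * h := by
    apply Subtype.ext
    change s⁻¹ • (g : Matrix (Fin 2) (Fin 2) F) * (a : Matrix (Fin 2) (Fin 2) F)
      = (b : Matrix (Fin 2) (Fin 2) F) * (s⁻¹ • (g : Matrix (Fin 2) (Fin 2) F))
    rw [Matrix.smul_mul, Matrix.mul_smul, hab]
  rw [← QuotientGroup.mk_mul, ← QuotientGroup.mk_mul, this]

end SGL
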