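import Pool.Agent.SGL.Defs
import Pool.Agent.SGL.M02
import Pool.Agent.SGL.M03
import Pool.Agent.SGL.M04
import Pool.Agent.SGL.M22
import Pool.Agent.SGL.M23
import Pool.Agent.SGL.M25
import Pool.Agent.SGL.M26
import Pool.Agent.SGL.M31

/-! Lower bounds. -/

namespace SGL

open Matrix
open scoped MatrixGroups LinearAlgebra.Projectivization

variable {F : Type} [Field F]

theorem sol_one_left {G : Type*} [Group G] (z : G) : Sol 1 z :=
  haveI : Group.IsSolvable (Subgroup.closure {z, z}) := sol_self z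
  Sol.of_mem (Subgroup.closure {z, z}) (one_mem _) (Subgroup.subset_closure (by simp))

theorem sol_psl_iff (x y : SL(2, F)) : Sol (x : PSL(2, F)) (y : PSL(2, F)) ↔ Sol (pn x) (pn y) := by
  rw [← rho_mk, ← rho_mk, sol_map_iff rho rho_injective]

/-- There are elements of `PSL(2, F)` at distance at least two. -/
theorem exists_not_sol [Finite F] (hF : 4 ≤ Nat.card F) :
    ∃ x y : PSL(2, F), x ≠ 1 ∧ y ≠ 1 ∧ ¬ Sol x y := by
  have key : ∃ x z : SL(2, F), ¬ Sol (pn x) (pn z) := by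
    by_cases h5 : Nat.card F = 5
    · exact exists_not_sol_of_prime hF (by rw [h5]; norm_num)
    by_cases h7 : Nat.card F = 7
    · exact exists_not_sol_of_prime hF (by rw [h7]; norm_num)
    obtain ⟨x, hx⟩ := exists_good hF h5 h7
    exact ⟨x, exists_not_sol_of_good hF x hx⟩
  obtain ⟨x, z, h⟩ := key
  rw [← sol_psl_iff] at h
  refine ⟨x, z, ?_, ?_, h⟩
  · intro h1
    rw [h1] at h
    exact h (sol_one_left _)
  · intro h1
    rw [h1] at h
    exact h (sol_one_left _).symm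

theorem lower_two_psl [Finite F] (hF : 4 ≤ Nat.card F) : 2 ≤ (solGraph PSL(2, F)).ediam := by
  obtain ⟨x, y, hx, hy, h⟩ := exists_not_sol hF
  exact two_le_ediam hx hy h

theorem lower_two [Finite F] (hF : 4 ≤ Nat.card F) (G : Subgroup (MulAut PSL(2, F)))
    (hG : (MulAut.conj (G := PSL(2, F))).range ≤ G) : 2 ≤ (solGraph G).ediam := by
  obtain ⟨x, y, hx, hy, h⟩ := exists_not_sol hF
  obtain ⟨Φ, hΦ, -, hΦc, -⟩ := exists_phi (F := F)
  let x' : G := ⟨MulAut.conj x, hG ⟨x, rfl⟩⟩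
  let y' : G := ⟨MulAut.conj y, hG ⟨y, rfl⟩⟩
  have hne : ∀ a : PSL(2, F), a ≠ 1 → MulAut.conj a ≠ 1 := by
    intro a ha h1
    apply ha
    apply rho_injective (F := F)
    rw [← hΦc, h1, map_one, map_one]
  have hx' : x' ≠ 1 := fun h1 => hne x hx (congrArg Subtype.val h1)
  have hy' : y' ≠ 1 := fun h1 => hne y hy (congrArg Subtype.val h1)
  refine two_le_ediam hx' hy' ?_
  intro hs
  apply h
  have h1 : Sol (MulAut.conj x) (MulAut.conj y) :=
    (sol_map_iff G.subtype G.subtype_injective x' y').2 hs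
  have h2 : Sol (Φ (MulAut.conj x)) (Φ (MulAut.conj y)) := (sol_map_iff Φ hΦ _ _).2 h1
  rw [hΦc, hΦc] at h2
  exact (sol_map_iff rho rho_injective x y).1 h2

theorem lower_three_psl [Finite F] (h2 : (2 : F) ≠ 0) (hF : 4 ≤ Nat.card F)
    (h5 : Nat.card F ≠ 5) (h7 : Nat.card F ≠ 7) : 3 ≤ (solGraph PSL(2, F)).ediam := by
  obtain ⟨x₀, hx₀⟩ := exists_good hF h5 h7
  obtain ⟨x, y, hx, hy, hz⟩ := exists_far_pair h2 hF h5 h7 x₀ hx₀
  have hne : ∀ a : SL(2, F), Good a → (a : PSL(2, F)) ≠ 1 := by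
    intro a ha h1
    have h3 : pn a = 1 := by rw [← rho_mk, h1, map_one]
    exact ha.1 (Projectivization.mk F ![1, 0] (by
      intro h; simpa using congrFun h 0)) (by rw [h3]; rfl)
  refine three_le_ediam (hne x hx) (hne y hy) ?_
  intro z hz1 hxz hzy
  obtain ⟨w, rfl⟩ := QuotientGroup.mk_surjective z
  have e1 := neighbour x w hx ((sol_psl_iff x w).1 hxz)
  have e2 := neighbour y w hy ((sol_psl_iff y w).1 hzy.symm)
  apply hz1
  apply rho_injective (F := F)
  have h3 := hz w e1 e2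
  rw [map_one, ← h3]
  exact rho_mk w

end SGL
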