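import Pool.Agent.SGL.Defs
import Pool.Agent.SGL.M02
import Pool.Agent.SGL.M03
import Pool.Agent.SGL.M04
import Pool.Agent.SGL.M31
import Pool.Agent.SGL.M32
import Pool.Agent.SGL.M33

/-! The cases `q = 5, 7`, and the final statement. -/

namespace SGL

open Matrix
open scoped MatrixGroups LinearAlgebra.Projectivization

variable {F : Type} [Field F]

/-- A matrix whose determinant is a square induces an inner automorphism. -/
theorem conj_of_square_det (g : GL (Fin 2) F)
    (hs : IsSquare (g : Matrix (Fin 2) (Fin 2) F).det) :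
    ∃ h : SL(2, F), ∃ s : F, s ≠ 0 ∧
      (g : Matrix (Fin 2) (Fin 2) F) = s • (h : Matrix (Fin 2) (Fin 2) F) := by
  obtain ⟨s, hs⟩ := hs
  have hdet : (g : Matrix (Fin 2) (Fin 2) F).det ≠ 0 :=
    ((Matrix.isUnit_iff_isUnit_det _).1 g.isUnit).ne_zero
  have hs0 : s ≠ 0 := by
    rintro rfl; apply hdet; rw [hs]; simp
  refine ⟨⟨s⁻¹ • (g : Matrix (Fin 2) (Fin 2) F), ?_⟩, s, hs0, ?_⟩
  · rw [Matrix.det_smul, Fintype.card_fin, hs]
    field_simp
  · change _ = s • (s⁻¹ • (g : Matrix (Fin 2) (Fin 2) F))
    rw [smul_smul, mul_inv_cancel₀ hs0, one_smul]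

theorem conj_of_smul (g : GL (Fin 2) F) (h : SL(2, F)) (s : F) (hs : s ≠ 0)
    (hg : (g : Matrix (Fin 2) (Fin 2) F) = s • (h : Matrix (Fin 2) (Fin 2) F))
    (a b : SL(2, F)) (hab : (b : Matrix (Fin 2) (Fin 2) F) * g = g * a) :
    MulAut.conj (h : PSL(2, F)) (a : PSL(2, F)) = (b : PSL(2, F)) := by
  rw [MulAut.conj_apply, mul_inv_eq_iff_eq_mul]
  have : h * a = b * h := by
    apply Subtype.ext
    change (h : Matrix (Fin 2) (Fin 2) F) * (a : Matrix (Fin 2) (Fin 2) F)
      = (b : Matrix (Fin 2) (Fin 2) F) * (h : Matrix (Fin 2) (Fin 2) F)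
    rw [hg, Matrix.smul_mul, Matrix.mul_smul] at hab
    have h2 := congrArg (fun M : Matrix (Fin 2) (Fin 2) F => s⁻¹ • M) hab
    simp only [smul_smul, inv_mul_cancel₀ hs, one_smul] at h2
    exact h2.symm
  rw [← QuotientGroup.mk_mul, ← QuotientGroup.mk_mul, this]

/-- A field of prime order has no nontrivial automorphism. -/
theorem aut_trivial_of_prime [Finite F] (hp : (Nat.card F).Prime) (σ : F ≃+* F) : σ = 1 := by
  have hF : Fintype F := Fintype.ofFinite F
  rw [Nat.card_eq_fintype_card] at hp
  let e := ZMod.ringEquivOfPrime F hp rfl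
  have h : (σ : F →+* F).comp (e : ZMod (Fintype.card F) →+* F) = (e : ZMod (Fintype.card F) →+* F) :=
    Subsingleton.elim _ _
  ext x
  obtain ⟨y, rfl⟩ := e.surjective x
  have := congrArg (fun f : ZMod (Fintype.card F) →+* F => f y) h
  simpa using this

/-- In a finite field the product of two nonsquares is a square. -/
theorem isSquare_mul_of_not [Finite F] {a b : F} (ha : ¬ IsSquare a) (hb : ¬ IsSquare b) :
    IsSquare (a * b) := by
  classical
  have hF : Fintype F := Fintype.ofFinite F
  have h2 : ringChar F ≠ 2 := by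
    intro h; exact ha (FiniteField.isSquare_of_char_two h a)
  have h1 := (quadraticChar_neg_one_iff_not_isSquare (a := a)).2 ha
  have h3 := (quadraticChar_neg_one_iff_not_isSquare (a := b)).2 hb
  by_contra h
  have h4 := (quadraticChar_neg_one_iff_not_isSquare (a := a * b)).2 h
  rw [map_mul, h1, h3] at h4
  norm_num at h4

/-- For `F` of prime order the only almost simple groups with socle `PSL(2, F)` are the socle and
the group of all automorphisms (induced by `GL₂`; two elements of `GL₂` whose determinants have square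
ratio differ by a scalar and an element of `SL₂`). -/
theorem prime_case [Finite F] (hF : 4 ≤ Nat.card F) (hp : (Nat.card F).Prime)
    (G : Subgroup (MulAut PSL(2, F))) (hG : (MulAut.conj (G := PSL(2, F))).range ≤ G) :
    G = (MulAut.conj (G := PSL(2, F))).range ∨
    (∀ g : GL (Fin 2) F, ∃ α ∈ G, ∀ a b : SL(2, F),
      (b : Matrix (Fin 2) (Fin 2) F) * g = g * a → α (a : PSL(2, F)) = (b : PSL(2, F))) := by
  obtain ⟨Φ, hinj, hgam, hconj, hact⟩ := exists_phi (F := F)
  by_cases hle : G ≤ (MulAut.conj (G := PSL(2, F))).range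
  · exact Or.inl (le_antisymm hle hG)
  · right
    obtain ⟨α, hα, hα2⟩ := SetLike.not_le_iff_exists.1 hle
    obtain ⟨m, hm⟩ := hgam α
    have hr : m.right = 1 := aut_trivial_of_prime hp _
    have hm2 : m = ofGL m.left := gam_ext rfl hr
    set M := m.left with hM
    -- `α` acts as conjugation by `M`
    have hαM : ∀ a b : SL(2, F), (b : Matrix (Fin 2) (Fin 2) F) * M = M * a →
        α (a : PSL(2, F)) = (b : PSL(2, F)) := by
      intro a b hab
      apply rho_injective
      rw [hact, hm, hm2, rho_mk, rho_mk]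
      have hb : b = conjSL M a := by
        apply Subtype.ext
        have h1 := conjSL_mul M a
        have h2 : (b : Matrix (Fin 2) (Fin 2) F) * (M : Matrix (Fin 2) (Fin 2) F)
          = (conjSL M a : Matrix (Fin 2) (Fin 2) F) * (M : Matrix (Fin 2) (Fin 2) F) := by
          rw [hab, h1]
        exact M.isUnit.mul_right_cancel h2
      rw [hb, pn_conjSL]
    have hnsq : ¬ IsSquare (M : Matrix (Fin 2) (Fin 2) F).det := by
      intro hs
      obtain ⟨h, s, hs0, hsm⟩ := conj_of_square_det M hs
      apply hα2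
      refine ⟨(h : PSL(2, F)), ?_⟩
      ext x
      obtain ⟨a, rfl⟩ := QuotientGroup.mk_surjective x
      rw [conj_of_smul M h s hs0 hsm a (conjSL M a) (conjSL_mul M a),
        hαM a (conjSL M a) (conjSL_mul M a)]
    intro g
    by_cases hsq : IsSquare (g : Matrix (Fin 2) (Fin 2) F).det
    · obtain ⟨h, s, hs0, hsm⟩ := conj_of_square_det g hsq
      exact ⟨MulAut.conj (h : PSL(2, F)), hG ⟨_, rfl⟩, fun a b hab =>
        conj_of_smul g h s hs0 hsm a b hab⟩
    · have hsq2 : IsSquare ((g * M : GL (Fin 2) F) : Matrix (Fin 2) (Fin 2) F).det := by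
        rw [Units.val_mul, Matrix.det_mul]
        exact isSquare_mul_of_not hsq hnsq
      obtain ⟨h, s, hs0, hsm⟩ := conj_of_square_det (g * M) hsq2
      refine ⟨MulAut.conj (h : PSL(2, F)) * α⁻¹, G.mul_mem (hG ⟨_, rfl⟩) (G.inv_mem hα), ?_⟩
      intro a b hab
      -- a = conjSL M c
      have hc : (conjSL M (conjSL M⁻¹ a) : SL(2, F)) = a := by
        apply Subtype.ext
        apply M.isUnit.mul_right_cancel
        rw [conjSL_mul M]
        have h1 := conjSL_mul M⁻¹ a
        have h2 : ((M⁻¹ : GL (Fin 2) F) : Matrix (Fin 2) (Fin 2) F) * (M : Matrix (Fin 2) (Fin 2) F)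
            = 1 := by rw [← Units.val_mul]; simp
        have h3 : (M : Matrix (Fin 2) (Fin 2) F) * ((M⁻¹ : GL (Fin 2) F) : Matrix (Fin 2) (Fin 2) F)
            = 1 := by rw [← Units.val_mul]; simp
        calc (M : Matrix (Fin 2) (Fin 2) F) * (conjSL M⁻¹ a : Matrix (Fin 2) (Fin 2) F)
            = M * ((conjSL M⁻¹ a : Matrix (Fin 2) (Fin 2) F)
              * (((M⁻¹ : GL (Fin 2) F) : Matrix (Fin 2) (Fin 2) F) * M)) := by
              rw [h2, Matrix.mul_one]
          _ = M * (((conjSL M⁻¹ a : Matrix (Fin 2) (Fin 2) F)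
              * ((M⁻¹ : GL (Fin 2) F) : Matrix (Fin 2) (Fin 2) F)) * M) := by
              rw [Matrix.mul_assoc (conjSL M⁻¹ a : Matrix (Fin 2) (Fin 2) F)]
          _ = _ := by
              rw [h1, ← Matrix.mul_assoc, ← Matrix.mul_assoc, h3, Matrix.one_mul]
      set c := conjSL M⁻¹ a with hcdef
      have hαc : α (c : PSL(2, F)) = (a : PSL(2, F)) := by
        rw [hαM c (conjSL M c) (conjSL_mul M c), hc]
      have hαc' : α⁻¹ (a : PSL(2, F)) = (c : PSL(2, F)) := by
        rw [← hαc]; simp
      rw [MulAut.mul_apply, hαc']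
      apply conj_of_smul (g * M) h s hs0 hsm
      have hMc : (M : Matrix (Fin 2) (Fin 2) F) * c = a * M := by
        have := conjSL_mul M c
        rw [hc] at this
        exact this.symm
      rw [Units.val_mul, Matrix.mul_assoc, hMc, ← Matrix.mul_assoc, ← Matrix.mul_assoc, hab]

/-- The homomorphism of soluble graphs given by a group isomorphism. -/
def isoHom {G H : Type*} [Group G] [Group H] (e : G ≃* H) : solGraph G →g solGraph H where
  toFun x := ⟨e x.1, by simpa using x.2⟩
  map_rel' := by
    rintro x y ⟨hne, hs⟩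
    refine ⟨?_, ?_⟩
    · intro h
      apply hne
      apply Subtype.ext
      exact e.injective (congrArg Subtype.val h)
    · have hs' : Sol x.1 y.1 := hs
      exact hs'.map e.toMonoidHom

theorem edist_hom_le {V W : Type*} {G : SimpleGraph V} {H : SimpleGraph W} (f : G →g H)
    (u v : V) : H.edist (f u) (f v) ≤ G.edist u v := by
  by_cases h : G.edist u v = ⊤
  · rw [h]; exact le_top
  · obtain ⟨w, hw⟩ := SimpleGraph.exists_walk_of_edist_ne_top h
    rw [← hw, ← SimpleGraph.Walk.length_map f]
    exact SimpleGraph.edist_le _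

theorem ediam_le_of_equiv {G H : Type*} [Group G] [Group H] (e : G ≃* H) :
    (solGraph H).ediam ≤ (solGraph G).ediam := by
  apply SimpleGraph.ediam_le_of_edist_le
  intro u v
  have hu : u = isoHom e ⟨e.symm u.1, by simpa using u.2⟩ := by
    apply Subtype.ext; simp [isoHom]
  have hv : v = isoHom e ⟨e.symm v.1, by simpa using v.2⟩ := by
    apply Subtype.ext; simp [isoHom]
  calc (solGraph H).edist u v = (solGraph H).edist (isoHom e ⟨e.symm u.1, by simpa using u.2⟩)
        (isoHom e ⟨e.symm v.1, by simpa using v.2⟩) := by rw [← hu, ← hv]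
    _ ≤ _ := edist_hom_le _ _ _
    _ ≤ _ := SimpleGraph.edist_le_ediam

/-- The diameters of `PSL(2, F)` and its group of inner automorphisms agree. -/
theorem ediam_inner [Finite F] (hF : 4 ≤ Nat.card F) :
    (solGraph (MulAut.conj (G := PSL(2, F))).range).ediam = (solGraph PSL(2, F)).ediam := by
  obtain ⟨Φ, hinj, hgam, hconj, hact⟩ := exists_phi (F := F)
  have hc : Function.Injective (MulAut.conj (G := PSL(2, F))) := by
    intro a b hab
    apply rho_injective
    rw [← hconj, ← hconj, hab]
  let e : PSL(2, F) ≃* (MulAut.conj (G := PSL(2, F))).range := MonoidHom.ofInjective hc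
  exact le_antisymm (ediam_le_of_equiv e) (ediam_le_of_equiv e.symm)

theorem main [Finite F] (hF : 4 ≤ Nat.card F) (G : Subgroup (MulAut PSL(2, F)))
    (hG : (MulAut.conj (G := PSL(2, F))).range ≤ G) :
    2 ≤ (solGraph G).ediam ∧ (solGraph G).ediam ≤ (solGraph PSL(2, F)).ediam ∧
    (solGraph PSL(2, F)).ediam ≤ 3 ∧
    ((2 : F) ≠ 0 → 9 ≤ Nat.card F → (solGraph PSL(2, F)).ediam = 3) ∧
    ((∀ g : GL (Fin 2) F, ∃ α ∈ G, ∀ a b : SL(2, F),
      (b : Matrix (Fin 2) (Fin 2) F) * g = g * a → α (a : PSL(2, F)) = (b : PSL(2, F))) →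
      (solGraph G).ediam = 2) := by
  have hlow := lower_two hF G hG
  have hlow' := lower_two_psl (F := F) hF
  have hup : (solGraph PSL(2, F)).ediam ≤ 3 := by
    rw [← ediam_inner hF]
    by_cases h2 : (2 : F) = 0
    · exact (upper_two_even hF h2 _ le_rfl).trans (by norm_num)
    · exact upper_three hF h2 _ le_rfl
  refine ⟨hlow, ?_, hup, ?_, ?_⟩
  · by_cases h2 : (2 : F) = 0
    · exact (upper_two_even hF h2 G hG).trans hlow'
    · by_cases h57 : Nat.card F = 5 ∨ Nat.card F = 7
      · have hp : (Nat.card F).Prime := by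
          rcases h57 with h | h <;> rw [h] <;> norm_num
        rcases prime_case hF hp G hG with h | h
        · rw [h, ediam_inner hF]
        · exact (upper_two hF G h).trans hlow'
      · push Not at h57
        exact (upper_three hF h2 G hG).trans (lower_three_psl h2 hF h57.1 h57.2)
  · intro h2 h9
    exact le_antisymm hup (lower_three_psl h2 hF (by omega) (by omega))
  · intro h
    exact le_antisymm (upper_two hF G h) hlow

end SGL
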